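import Mathlib

namespace Pool.Agent.MP_44c6d5_nt

open MeasureTheory Real

/-- the character `t ↦ exp (2 π i t)` of the unit circle. -/
noncomputable def e (t : UnitAddCircle) : ℂ := (AddCircle.toCircle t : ℂ)

theorem norm_e (t : UnitAddCircle) : ‖e t‖ = 1 := by simp [e]

theorem e_ne_zero (t : UnitAddCircle) : e t ≠ 0 := by
  intro h
  have := norm_e t
  rw [h] at this; simp at this

theorem e_add (s t : UnitAddCircle) : e (s + t) = e s * e t := by
  simp [e, AddCircle.toCircle_add]

theorem e_zero : e 0 = 1 := by simp [e]

theorem e_zsmul (n : ℤ) (t : UnitAddCircle) : e (n • t) = e t ^ n := by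
  simp [e, AddCircle.toCircle_zsmul]

theorem continuous_e : Continuous e := by
  unfold e
  exact continuous_subtype_val.comp AddCircle.continuous_toCircle

theorem e_coe (x : ℝ) : e (x : UnitAddCircle) = circleMap 0 1 (2 * π * x) := by
  unfold e
  rw [AddCircle.toCircle_apply_mk, circleMap]
  simp [Circle.coe_exp]

/-- integration over the circle is the circle average -/
theorem integral_e (g : ℂ → ℝ) :
    ∫ t : UnitAddCircle, g (e t) = circleAverage g 0 1 := by
  rw [← AddCircle.intervalIntegral_preimage 1 0 (fun t => g (e t)), circleAverage_def]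
  simp only [e_coe]
  rw [intervalIntegral.integral_comp_mul_left (fun x => g (circleMap 0 1 x)) (by positivity)]
  simp

theorem integrable_e {g : ℂ → ℝ} (hm : Measurable (fun t : UnitAddCircle => g (e t)))
    (hg : CircleIntegrable g 0 1) : Integrable (fun t : UnitAddCircle => g (e t)) := by
  rw [← (AddCircle.measurePreserving_mk 1 0).integrable_comp hm.aestronglyMeasurable]
  have h1 : IntervalIntegrable (fun x : ℝ => g (circleMap 0 1 (2 * π * x))) volume
      (0 / (2 * π)) (2 * π / (2 * π)) := by
    apply IntervalIntegrable.comp_mul_left hg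
  rw [div_self (by positivity), zero_div,
    intervalIntegrable_iff_integrableOn_Ioc_of_le zero_le_one] at h1
  rw [zero_add]
  refine h1.congr (Filter.Eventually.of_forall fun x => ?_)
  simp [e_coe]

theorem measurable_log_norm_e (f : Polynomial ℂ) :
    Measurable fun t : UnitAddCircle => log ‖f.eval (e t)‖ := by
  apply Real.measurable_log.comp
  apply Measurable.norm
  exact (f.continuous.comp continuous_e).measurable

theorem integrable_log_norm_e (f : Polynomial ℂ) :
    Integrable fun t : UnitAddCircle => log ‖f.eval (e t)‖ := by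
  apply integrable_e (g := fun z => log ‖f.eval z‖) (measurable_log_norm_e f)
  exact Polynomial.intervalIntegrable_mahlerMeasure f

theorem integral_log_norm_e (f : Polynomial ℂ) :
    ∫ t : UnitAddCircle, log ‖f.eval (e t)‖ = f.logMahlerMeasure :=
  integral_e (fun z => log ‖f.eval z‖)

/-- Jensen's inequality for a polynomial. -/
theorem log_coeff_zero_le (f : Polynomial ℂ) (h : f.coeff 0 ≠ 0) :
    log ‖f.coeff 0‖ ≤ ∫ t : UnitAddCircle, log ‖f.eval (e t)‖ := by
  rw [integral_log_norm_e, Polynomial.logMahlerMeasure_eq_log_MahlerMeasure]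
  apply Real.log_le_log (norm_pos_iff.mpr h)
  have := Polynomial.norm_coeff_le_choose_mul_mahlerMeasure 0 f
  simpa using this

end Pool.Agent.MP_44c6d5_nt
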