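import Mathlib

/-!
Definitions used in the statements about Mahler measures of integer polynomials.
-/

namespace Pool.Agent.MP_44c6d5_nt

open MvPolynomial

/-- Polynomials in `k` variables with integer coefficients. -/
abbrev Pol (k : ℕ) := MvPolynomial (Fin k) ℤ

/-- The weight `⟨y, j⟩ = ∑ y_i j_i` of an exponent vector `j`, for a real vector `y`. -/
def wt {k : ℕ} (y : Fin k → ℝ) (j : Fin k →₀ ℕ) : ℝ := ∑ i, y i * (j i : ℝ)

/-- The minimum of the weights `⟨y, j⟩` over the exponent vectors `j` occurring in `P`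
(and `0` if `P = 0`). -/
noncomputable def ord {k : ℕ} (y : Fin k → ℝ) (P : Pol k) : ℝ :=
  if h : P.support.Nonempty then P.support.inf' h (wt y) else 0

/-- The face polynomial of `P` in the direction `y`: the sum of the terms of `P` whose exponent
vectors `j` have minimal weight `⟨y, j⟩`. For `y = 0` it is `P` itself. -/
noncomputable def ini {k : ℕ} (y : Fin k → ℝ) (P : Pol k) : Pol k :=
  ∑ j ∈ P.support with wt y j = ord y P, monomial j (coeff j P)

/-- The vector `d` of partial degrees of `P`: `d_i` is the degree of `P` in the variable `i`. -/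
noncomputable def dg {k : ℕ} (P : Pol k) : Fin k →₀ ℕ :=
  Finsupp.equivFunOnFinite.symm fun i => degreeOf i P

/-- The reciprocal polynomial `z ^ d * P (1 / z_1, ..., 1 / z_k)`, where `d` is the vector of
partial degrees of `P`. -/
noncomputable def rev {k : ℕ} (P : Pol k) : Pol k :=
  ∑ j ∈ P.support, monomial (dg P - j) (coeff j P)

/-- The exponent (Newton) polytope of `P`: the convex hull of its exponent vectors. -/
def newton {k : ℕ} (P : Pol k) : Set (Fin k → ℝ) :=
  convexHull ℝ ((fun j : Fin k →₀ ℕ => fun i => (j i : ℝ)) '' (P.support : Set (Fin k →₀ ℕ)))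

/-- The dimension of `P`: the dimension of its exponent polytope. -/
noncomputable def ndim {k : ℕ} (P : Pol k) : ℕ :=
  Module.finrank ℝ (vectorSpan ℝ (newton P))

/-- The logarithmic Mahler measure: the integral of `log |F (exp (2 π i t_1), ...)|` over the
unit cube. -/
noncomputable def mahler {k : ℕ} (F : Pol k) : ℝ :=
  ∫ t in Set.Icc (0 : Fin k → ℝ) 1,
    Real.log ‖MvPolynomial.aeval (fun i => Complex.exp (2 * Real.pi * Complex.I * t i)) F‖

/-- The value at `z = (exp (2 π i t_1), ..., exp (2 π i t_l))` of `F_A (z) = F (z ^ A)`, where the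
`j`-th coordinate of `z ^ A` is the product of the `z_i ^ (A i j)`. -/
noncomputable def evalA {k l : ℕ} (A : Matrix (Fin l) (Fin k) ℤ) (F : Pol k)
    (t : Fin l → ℝ) : ℂ :=
  MvPolynomial.aeval
    (fun j => ∏ i, Complex.exp (2 * Real.pi * Complex.I * t i) ^ (A i j)) F

/-- The set `M(F)` of all Mahler measures `m(F_A)` with `A` an integer matrix with `k` columns and
`F_A ≠ 0` (that is, `F_A` does not vanish identically on the torus). -/
def MSet {k : ℕ} (F : Pol k) : Set ℝ :=
  {r | ∃ (l : ℕ) (A : Matrix (Fin l) (Fin k) ℤ), (∃ t, evalA A F t ≠ 0) ∧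
    r = ∫ t in Set.Icc (0 : Fin l → ℝ) 1, Real.log ‖evalA A F t‖}

end Pool.Agent.MP_44c6d5_nt
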