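import Mathlib
import Pool.Agent.MP_44c6d5_nt.Defs

namespace Pool.Agent.MP_44c6d5_nt

open MvPolynomial Filter Topology

variable {k : ℕ}

theorem wt_add (y : Fin k → ℝ) (j j' : Fin k →₀ ℕ) : wt y (j + j') = wt y j + wt y j' := by
  simp [wt, mul_add, Finset.sum_add_distrib]

theorem wt_add_left (y u : Fin k → ℝ) (j : Fin k →₀ ℕ) : wt (y + u) j = wt y j + wt u j := by
  simp [wt, add_mul, Finset.sum_add_distrib]

theorem wt_smul (c : ℝ) (y : Fin k → ℝ) (j : Fin k →₀ ℕ) : wt (c • y) j = c * wt y j := by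
  simp [wt, Finset.mul_sum, mul_assoc]

theorem wt_neg (y : Fin k → ℝ) (j : Fin k →₀ ℕ) : wt (-y) j = - wt y j := by
  simp [wt]

theorem wt_zero (j : Fin k →₀ ℕ) : wt (0 : Fin k → ℝ) j = 0 := by
  simp [wt]

theorem continuous_wt (j : Fin k →₀ ℕ) : Continuous fun y : Fin k → ℝ => wt y j := by
  unfold wt; fun_prop

theorem supp_nonempty {P : Pol k} (hP : P ≠ 0) : P.support.Nonempty := by
  rw [Finset.nonempty_iff_ne_empty, Ne, MvPolynomial.support_eq_empty]; exact hP

theorem ord_le (y : Fin k → ℝ) {P : Pol k} {j : Fin k →₀ ℕ} (hj : j ∈ P.support) :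
    ord y P ≤ wt y j := by
  unfold ord
  rw [dif_pos ⟨j, hj⟩]
  exact Finset.inf'_le _ hj

theorem exists_ord (y : Fin k → ℝ) {P : Pol k} (hP : P ≠ 0) :
    ∃ j ∈ P.support, wt y j = ord y P := by
  have h := supp_nonempty hP
  unfold ord
  rw [dif_pos h]
  obtain ⟨j, hj, hj'⟩ := Finset.exists_mem_eq_inf' h (wt y)
  exact ⟨j, hj, hj'.symm⟩

theorem le_ord {y : Fin k → ℝ} {P : Pol k} (hP : P ≠ 0) {c : ℝ}
    (h : ∀ j ∈ P.support, c ≤ wt y j) : c ≤ ord y P := by
  obtain ⟨j, hj, hj'⟩ := exists_ord y hP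
  rw [← hj']; exact h j hj

theorem lt_ord {y : Fin k → ℝ} {P : Pol k} (hP : P ≠ 0) {c : ℝ}
    (h : ∀ j ∈ P.support, c < wt y j) : c < ord y P := by
  obtain ⟨j, hj, hj'⟩ := exists_ord y hP
  rw [← hj']; exact h j hj

theorem continuous_ord (P : Pol k) : Continuous fun y : Fin k → ℝ => ord y P := by
  unfold ord
  by_cases h : P.support.Nonempty
  · simp only [dif_pos h]
    exact Continuous.finset_inf'_apply h (fun j _ => continuous_wt j)
  · simp only [dif_neg h]
    exact continuous_const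

theorem ord_smul {c : ℝ} (hc : 0 < c) (y : Fin k → ℝ) (P : Pol k) :
    ord (c • y) P = c * ord y P := by
  by_cases hP : P = 0
  · subst hP; simp [ord]
  · obtain ⟨j, hj, hj'⟩ := exists_ord y hP
    obtain ⟨i, hi, hi'⟩ := exists_ord (c • y) hP
    apply le_antisymm
    · rw [← hj', ← wt_smul]; exact ord_le _ hj
    · rw [← hi', wt_smul]; exact mul_le_mul_of_nonneg_left (ord_le y hi) hc.le

theorem coeff_ini (y : Fin k → ℝ) (P : Pol k) (j : Fin k →₀ ℕ) :
    coeff j (ini y P) = if wt y j = ord y P then coeff j P else 0 := by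
  classical
  unfold ini
  rw [coeff_sum]
  simp only [coeff_monomial]
  rw [Finset.sum_ite_eq']
  by_cases h : wt y j = ord y P
  · by_cases h2 : j ∈ P.support
    · simp [h, h2]
    · have : coeff j P = 0 := by simpa using h2
      simp [this]
  · simp [h]

theorem mem_support_ini {y : Fin k → ℝ} {P : Pol k} {j : Fin k →₀ ℕ} :
    j ∈ (ini y P).support ↔ j ∈ P.support ∧ wt y j = ord y P := by
  rw [MvPolynomial.mem_support_iff, MvPolynomial.mem_support_iff, coeff_ini]
  split_ifs with h <;> simp [h]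

theorem ini_ne_zero (y : Fin k → ℝ) {P : Pol k} (hP : P ≠ 0) : ini y P ≠ 0 := by
  obtain ⟨j, hj, hj'⟩ := exists_ord y hP
  intro h
  have : j ∈ (ini y P).support := mem_support_ini.mpr ⟨hj, hj'⟩
  rw [h] at this; simp at this

/-- characterisation of `ord` and `ini` at once. -/
theorem ini_eq_of {y : Fin k → ℝ} {P I : Pol k} (hI : I ≠ 0) {c : ℝ}
    (h1 : ∀ j, wt y j = c → coeff j P = coeff j I)
    (h2 : ∀ j, wt y j < c → coeff j P = 0)
    (h3 : ∀ j, coeff j I ≠ 0 → wt y j = c) : ord y P = c ∧ ini y P = I := by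
  obtain ⟨j, hj⟩ := supp_nonempty hI
  have hj' := MvPolynomial.mem_support_iff.mp hj
  have hjP : j ∈ P.support := by
    rw [MvPolynomial.mem_support_iff, h1 j (h3 j hj')]; exact hj'
  have hP : P ≠ 0 := by rintro rfl; simp at hjP
  have hc : ord y P = c := by
    apply le_antisymm
    · rw [← h3 j hj']; exact ord_le y hjP
    · apply le_ord hP
      intro i hi
      by_contra hlt
      push Not at hlt
      exact MvPolynomial.mem_support_iff.mp hi (h2 i hlt)
  refine ⟨hc, ?_⟩
  ext i
  rw [coeff_ini, hc]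
  split_ifs with h
  · exact h1 i h
  · by_contra h'
    exact h (h3 i (Ne.symm h'))

theorem coeff_eq_zero_of_lt {y : Fin k → ℝ} {P : Pol k} {j : Fin k →₀ ℕ} (h : wt y j < ord y P) :
    coeff j P = 0 := by
  by_contra h'
  exact absurd (ord_le y (MvPolynomial.mem_support_iff.mpr h')) (not_le.mpr h)

theorem ord_ini_mul (y : Fin k → ℝ) {P Q : Pol k} (hP : P ≠ 0) (hQ : Q ≠ 0) :
    ord y (P * Q) = ord y P + ord y Q ∧ ini y (P * Q) = ini y P * ini y Q := by
  classical
  apply ini_eq_of (mul_ne_zero (ini_ne_zero y hP) (ini_ne_zero y hQ))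
  · intro n hn
    rw [coeff_mul, coeff_mul]
    apply Finset.sum_congr rfl
    rintro ⟨i, j⟩ hij
    rw [Finset.HasAntidiagonal.mem_antidiagonal] at hij
    simp only at hij ⊢
    rw [coeff_ini, coeff_ini]
    have hw : wt y i + wt y j = ord y P + ord y Q := by rw [← wt_add, hij, hn]
    rcases lt_trichotomy (wt y i) (ord y P) with h | h | h
    · rw [coeff_eq_zero_of_lt h]; simp
    · have h' : wt y j = ord y Q := by linarith
      rw [if_pos h, if_pos h']
    · have h' : wt y j < ord y Q := by linarith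
      rw [coeff_eq_zero_of_lt h']; simp
  · intro n hn
    rw [coeff_mul]
    apply Finset.sum_eq_zero
    rintro ⟨i, j⟩ hij
    rw [Finset.HasAntidiagonal.mem_antidiagonal] at hij
    simp only at hij ⊢
    have hw : wt y i + wt y j < ord y P + ord y Q := by rw [← wt_add, hij]; exact hn
    rcases lt_or_ge (wt y i) (ord y P) with h | h
    · rw [coeff_eq_zero_of_lt h, zero_mul]
    · have h' : wt y j < ord y Q := by linarith
      rw [coeff_eq_zero_of_lt h', mul_zero]
  · intro n hn
    rw [coeff_mul] at hn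
    obtain ⟨⟨i, j⟩, hij, hne⟩ := Finset.exists_ne_zero_of_sum_ne_zero hn
    rw [Finset.HasAntidiagonal.mem_antidiagonal] at hij
    simp only at hij hne
    rw [coeff_ini, coeff_ini] at hne
    have h1 : wt y i = ord y P := by
      by_contra h; rw [if_neg h] at hne; simp at hne
    have h2 : wt y j = ord y Q := by
      by_contra h; rw [if_neg h] at hne; simp at hne
    rw [← hij, wt_add, h1, h2]

theorem ord_mul (y : Fin k → ℝ) {P Q : Pol k} (hP : P ≠ 0) (hQ : Q ≠ 0) :
    ord y (P * Q) = ord y P + ord y Q := (ord_ini_mul y hP hQ).1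

theorem ini_mul (y : Fin k → ℝ) {P Q : Pol k} (hP : P ≠ 0) (hQ : Q ≠ 0) :
    ini y (P * Q) = ini y P * ini y Q := (ord_ini_mul y hP hQ).2

/-- the space of weights for which `P` is homogeneous. -/
def Lam (P : Pol k) : Submodule ℝ (Fin k → ℝ) where
  carrier := {u | ∀ j ∈ P.support, ∀ j' ∈ P.support, wt u j = wt u j'}
  add_mem' := by
    intro a b ha hb j hj j' hj'
    rw [wt_add_left, wt_add_left, ha j hj j' hj', hb j hj j' hj']
  zero_mem' := by
    intro j _ j' _
    rw [wt_zero, wt_zero]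
  smul_mem' := by
    intro c a ha j hj j' hj'
    rw [wt_smul, wt_smul, ha j hj j' hj']

theorem mem_Lam {P : Pol k} {u : Fin k → ℝ} :
    u ∈ Lam P ↔ ∀ j ∈ P.support, ∀ j' ∈ P.support, wt u j = wt u j' := Iff.rfl

theorem Lam_mono {P Q : Pol k} (h : P.support ⊆ Q.support) : Lam Q ≤ Lam P :=
  fun _ hu j hj j' hj' => hu j (h hj) j' (h hj')

theorem Lam_le_Lam_ini (y : Fin k → ℝ) (P : Pol k) : Lam P ≤ Lam (ini y P) :=
  Lam_mono fun _ hj => (mem_support_ini.mp hj).1

theorem mem_Lam_ini (y : Fin k → ℝ) (P : Pol k) : y ∈ Lam (ini y P) := by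
  intro j hj j' hj'
  rw [(mem_support_ini.mp hj).2, (mem_support_ini.mp hj').2]

theorem wt_eq_ord_of_mem_Lam {P : Pol k} {u : Fin k → ℝ} (hu : u ∈ Lam P)
    {j : Fin k →₀ ℕ} (hj : j ∈ P.support) : wt u j = ord u P := by
  have hP : P ≠ 0 := by rintro rfl; simp at hj
  obtain ⟨i, hi, hi'⟩ := exists_ord u hP
  rw [← hi']; exact hu j hj i hi

theorem ini_eq_self_iff {P : Pol k} (hP : P ≠ 0) {u : Fin k → ℝ} :
    ini u P = P ↔ u ∈ Lam P := by
  constructor
  · intro h; rw [← h]; exact mem_Lam_ini u P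
  · intro h
    refine (ini_eq_of (c := ord u P) hP (fun _ _ => rfl) (fun j hj => coeff_eq_zero_of_lt hj)
      ?_).2
    intro j hj
    exact wt_eq_ord_of_mem_Lam h (MvPolynomial.mem_support_iff.mpr hj)

theorem ord_add_ord_neg_le {P : Pol k} (hP : P ≠ 0) (u : Fin k → ℝ) :
    ord u P + ord (-u) P ≤ 0 := by
  obtain ⟨i, hi, hi'⟩ := exists_ord u hP
  have h := ord_le (-u) hi
  rw [wt_neg] at h
  linarith

theorem ord_add_ord_neg_eq_iff {P : Pol k} (hP : P ≠ 0) {u : Fin k → ℝ} :
    ord u P + ord (-u) P = 0 ↔ u ∈ Lam P := by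
  constructor
  · intro h j hj j' hj'
    have h1 := ord_le u hj
    have h2 := ord_le u hj'
    have h3 := ord_le (-u) hj
    have h4 := ord_le (-u) hj'
    rw [wt_neg] at h3 h4
    linarith
  · intro h
    obtain ⟨i, hi, hi'⟩ := exists_ord u hP
    obtain ⟨j, hj, hj'⟩ := exists_ord (-u) hP
    rw [← hi', ← hj', wt_neg, h i hi j hj]
    ring

theorem Lam_mul {P Q : Pol k} (hP : P ≠ 0) (hQ : Q ≠ 0) : Lam (P * Q) = Lam P ⊓ Lam Q := by
  ext u
  rw [Submodule.mem_inf, ← ord_add_ord_neg_eq_iff hP, ← ord_add_ord_neg_eq_iff hQ,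
    ← ord_add_ord_neg_eq_iff (mul_ne_zero hP hQ), ord_mul u hP hQ, ord_mul (-u) hP hQ]
  have h1 := ord_add_ord_neg_le hP u
  have h2 := ord_add_ord_neg_le hQ u
  constructor
  · intro h; constructor <;> linarith
  · rintro ⟨h, h'⟩; linarith

theorem ord_neg_of_mem_Lam {P : Pol k} (hP : P ≠ 0) {u : Fin k → ℝ} (hu : u ∈ Lam P) :
    ord (-u) P = - ord u P := by
  have := (ord_add_ord_neg_eq_iff hP).mpr hu
  linarith

theorem ord_ini (y : Fin k → ℝ) {P : Pol k} (hP : P ≠ 0) : ord y (ini y P) = ord y P := by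
  obtain ⟨j, hj, hj'⟩ := exists_ord y (ini_ne_zero y hP)
  rw [← hj', (mem_support_ini.mp hj).2]

theorem ini_ini (y : Fin k → ℝ) {P : Pol k} (hP : P ≠ 0) : ini y (ini y P) = ini y P :=
  (ini_eq_self_iff (ini_ne_zero y hP)).mpr (mem_Lam_ini y P)

/-- perturbation of the weight. -/
theorem perturb (y : Fin k → ℝ) {P : Pol k} (hP : P ≠ 0) :
    ∀ᶠ u in 𝓝 (0 : Fin k → ℝ), ini (y + u) P = ini u (ini y P) ∧
      ord (y + u) P = ord y P + ord u (ini y P) := by
  have key : ∀ᶠ u in 𝓝 (0 : Fin k → ℝ), ∀ j ∈ P.support, ∀ i ∈ P.support,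
      ord y P < wt y j → wt y i = ord y P → wt (y + u) i < wt (y + u) j := by
    rw [Filter.eventually_all_finset]
    intro j _
    rw [Filter.eventually_all_finset]
    intro i _
    by_cases h : ord y P < wt y j
    swap
    · exact Filter.Eventually.of_forall fun u h' => absurd h' h
    by_cases h2 : wt y i = ord y P
    swap
    · exact Filter.Eventually.of_forall fun u _ h' => absurd h' h2
    have c1 : Continuous fun u : Fin k → ℝ => wt (y + u) i :=
      (continuous_wt i).comp (continuous_const.add continuous_id)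
    have c2 : Continuous fun u : Fin k → ℝ => wt (y + u) j :=
      (continuous_wt j).comp (continuous_const.add continuous_id)
    have : ∀ᶠ u in 𝓝 (0 : Fin k → ℝ), wt (y + u) i < wt (y + u) j := by
      apply c1.continuousAt.eventually_lt c2.continuousAt
      simp only [add_zero]
      rw [h2]; exact h
    filter_upwards [this] with u hu _ _ using hu
  filter_upwards [key] with u hu
  have hI := ini_ne_zero y hP
  obtain ⟨i0, hi0, hi0'⟩ := exists_ord y hP
  have hmem : i0 ∈ (ini y P).support := mem_support_ini.mpr ⟨hi0, hi0'⟩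
  have := ini_eq_of (y := y + u) (P := P) (I := ini u (ini y P)) (ini_ne_zero u hI)
    (c := ord y P + ord u (ini y P)) ?_ ?_ ?_
  · exact ⟨this.2, this.1⟩
  · intro j hj
    rw [coeff_ini]
    by_cases hjP : j ∈ P.support
    · rcases lt_or_eq_of_le (ord_le y hjP) with h | h
      · exfalso
        obtain ⟨i, hi, hi'⟩ := exists_ord u hI
        have hi2 := mem_support_ini.mp hi
        have h3 := hu j hjP i hi2.1 h hi2.2
        rw [wt_add_left y u i, hi2.2, hi'] at h3
        linarith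
      · rw [wt_add_left, ← h] at hj
        have : wt u j = ord u (ini y P) := by linarith
        rw [if_pos this, coeff_ini, if_pos h.symm]
    · have : coeff j P = 0 := by simpa using hjP
      rw [coeff_ini, this]; simp
  · intro j hj
    by_contra h
    have hjP := MvPolynomial.mem_support_iff.mpr h
    obtain ⟨i, hi, hi'⟩ := exists_ord u hI
    have hi2 := mem_support_ini.mp hi
    rcases lt_or_eq_of_le (ord_le y hjP) with h1 | h1
    · have h3 := hu j hjP i hi2.1 h1 hi2.2
      rw [wt_add_left y u i, hi2.2, hi'] at h3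
      linarith
    · have h4 : j ∈ (ini y P).support := mem_support_ini.mpr ⟨hjP, h1.symm⟩
      have h5 := ord_le u h4
      rw [wt_add_left, ← h1] at hj
      linarith
  · intro j hj
    have h1 := mem_support_ini.mp (MvPolynomial.mem_support_iff.mpr hj)
    have h2 := mem_support_ini.mp h1.1
    rw [wt_add_left, h2.2, h1.2]

end Pool.Agent.MP_44c6d5_nt
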