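import Mathlib
import Pool.Agent.MP_44c6d5_nt.Ord

namespace Pool.Agent.MP_44c6d5_nt

open MvPolynomial Filter Topology

variable {k : ℕ}

/-- simultaneous Diophantine approximation with large denominator -/
theorem dirichlet (y : Fin k → ℝ) {ε : ℝ} (hε : 0 < ε) (N0 : ℕ) :
    ∃ N : ℕ, N0 ≤ N ∧ ∃ l : Fin k → ℤ, ∀ i, |(N : ℝ) * y i - (l i : ℝ)| < ε := by
  obtain ⟨a, φ, hφ, hlim⟩ := CompactSpace.tendsto_subseq
    (fun (n : ℕ) (i : Fin k) => (((n : ℝ) * y i : ℝ) : UnitAddCircle))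
  have hc := hlim.cauchySeq
  rw [Metric.cauchySeq_iff'] at hc
  obtain ⟨M, hM⟩ := hc ε hε
  have h1 := hM (M + N0) (by omega)
  have h2 : φ M + N0 ≤ φ (M + N0) := by
    clear h1
    induction N0 with
    | zero => simp
    | succ n ih =>
      have := hφ (show M + n < M + (n + 1) by omega)
      omega
  refine ⟨φ (M + N0) - φ M, by omega, fun i => round (((φ (M + N0) - φ M : ℕ) : ℝ) * y i), ?_⟩
  intro i
  rw [← UnitAddCircle.norm_eq]
  have h3 : ((((φ (M + N0) - φ M : ℕ) : ℝ) * y i : ℝ) : UnitAddCircle) =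
      (((φ (M + N0) : ℕ) : ℝ) * y i : ℝ) - (((φ M : ℕ) : ℝ) * y i : ℝ) := by
    rw [← AddCircle.coe_sub]
    congr 1
    rw [Nat.cast_sub (by omega)]
    ring
  rw [h3]
  rw [dist_eq_norm] at h1
  have h4 := norm_le_pi_norm ((((fun (n : ℕ) (i : Fin k) => (((n : ℝ) * y i : ℝ) : UnitAddCircle)) ∘ φ) (M + N0)) -
    ((fun (n : ℕ) (i : Fin k) => (((n : ℝ) * y i : ℝ) : UnitAddCircle)) ∘ φ) M) i
  exact lt_of_le_of_lt h4 h1

/-- integral weight of an exponent vector -/
def wtZ (l : Fin k → ℤ) (j : Fin k →₀ ℕ) : ℤ := ∑ i, l i * (j i : ℤ)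

/-- the real weight attached to an integral one -/
def rl (l : Fin k → ℤ) : Fin k → ℝ := fun i => (l i : ℝ)

theorem wt_rl (l : Fin k → ℤ) (j : Fin k →₀ ℕ) : wt (rl l) j = (wtZ l j : ℝ) := by
  simp [wt, wtZ, rl]

theorem exists_int_weight (y : Fin k → ℝ) (J : Finset (Fin k →₀ ℕ)) :
    ∃ l : Fin k → ℤ, ∀ j ∈ J, ∀ j' ∈ J,
      (wt y j < wt y j' → wtZ l j < wtZ l j') ∧ (wt y j = wt y j' → wtZ l j = wtZ l j') := by
  classical
  set T : ℝ := ∑ j ∈ J, ∑ i, (j i : ℝ) with hT
  have hT0 : 0 ≤ T := Finset.sum_nonneg fun j _ => Finset.sum_nonneg fun i _ => by positivity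
  have hTle : ∀ j ∈ J, ∑ i, (j i : ℝ) ≤ T := fun j hj =>
    Finset.single_le_sum (f := fun j : Fin k →₀ ℕ => ∑ i, (j i : ℝ))
      (fun j _ => Finset.sum_nonneg fun i _ => by positivity) hj
  have hev : ∀ᶠ N : ℕ in atTop, ∀ j ∈ J, ∀ j' ∈ J, wt y j < wt y j' →
      1 ≤ (N : ℝ) * (wt y j' - wt y j) := by
    rw [Filter.eventually_all_finset]
    intro j _
    rw [Filter.eventually_all_finset]
    intro j' _
    by_cases h : wt y j < wt y j'
    · have h2 : Tendsto (fun N : ℕ => (N : ℝ) * (wt y j' - wt y j)) atTop atTop :=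
        tendsto_natCast_atTop_atTop.atTop_mul_const (by linarith)
      filter_upwards [h2.eventually_ge_atTop 1] with N hN _ using hN
    · exact Filter.Eventually.of_forall fun N h' => absurd h' h
  obtain ⟨N0, hN0⟩ := Filter.eventually_atTop.mp hev
  obtain ⟨N, hN, l, hl⟩ := dirichlet y (ε := 1 / (2 * T + 1)) (by positivity) N0
  have hest : ∀ j ∈ J, ∀ j' ∈ J, |(N : ℝ) * (wt y j' - wt y j) - ((wtZ l j' : ℝ) - wtZ l j)| < 1 := by
    intro j hj j' hj'
    have e1 : (N : ℝ) * (wt y j' - wt y j) - ((wtZ l j' : ℝ) - wtZ l j) =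
        ∑ i, ((N : ℝ) * y i - l i) * ((j' i : ℝ) - j i) := by
      rw [← wt_rl, ← wt_rl]
      unfold wt rl
      rw [← Finset.sum_sub_distrib, ← Finset.sum_sub_distrib, Finset.mul_sum,
        ← Finset.sum_sub_distrib]
      apply Finset.sum_congr rfl
      intro i _; ring
    rw [e1]
    calc |∑ i, ((N : ℝ) * y i - l i) * ((j' i : ℝ) - j i)|
        ≤ ∑ i, |((N : ℝ) * y i - l i) * ((j' i : ℝ) - j i)| := Finset.abs_sum_le_sum_abs _ _
      _ ≤ ∑ i, (1 / (2 * T + 1)) * ((j' i : ℝ) + j i) := by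
          apply Finset.sum_le_sum
          intro i _
          rw [abs_mul]
          apply mul_le_mul (hl i).le _ (abs_nonneg _) (by positivity)
          rw [abs_le]
          constructor <;> [skip; skip] <;>
          · have : (0 : ℝ) ≤ j i := by positivity
            have : (0 : ℝ) ≤ j' i := by positivity
            linarith
      _ = (∑ i, (j' i : ℝ) + ∑ i, (j i : ℝ)) / (2 * T + 1) := by
          rw [← Finset.mul_sum, Finset.sum_add_distrib]; ring
      _ < 1 := by
          rw [div_lt_one (by positivity)]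
          have := hTle j hj
          have := hTle j' hj'
          linarith
  refine ⟨l, fun j hj j' hj' => ⟨fun h => ?_, fun h => ?_⟩⟩
  · have h1 := hN0 N hN j hj j' hj' h
    have h2 := (abs_lt.mp (hest j hj j' hj')).2
    have h3 : (0 : ℝ) < (wtZ l j' : ℝ) - wtZ l j := by linarith
    have h4 : (wtZ l j : ℝ) < wtZ l j' := by linarith
    exact_mod_cast h4
  · have h2 := hest j hj j' hj'
    rw [h, sub_self, mul_zero, zero_sub, abs_neg] at h2
    have h3 : |wtZ l j' - wtZ l j| < 1 := by exact_mod_cast h2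
    rw [Int.abs_lt_one_iff] at h3
    omega

theorem ini_eq_of_weight {y : Fin k → ℝ} {l : Fin k → ℤ} {J : Finset (Fin k →₀ ℕ)}
    (h : ∀ j ∈ J, ∀ j' ∈ J,
      (wt y j < wt y j' → wtZ l j < wtZ l j') ∧ (wt y j = wt y j' → wtZ l j = wtZ l j'))
    {P : Pol k} (hP : P ≠ 0) (hJ : P.support ⊆ J) : ini (rl l) P = ini y P := by
  obtain ⟨j0, hj0, hj0'⟩ := exists_ord y hP
  refine (ini_eq_of (c := wt (rl l) j0) (ini_ne_zero y hP) ?_ ?_ ?_).2
  · intro j hj
    rw [coeff_ini]
    split_ifs with h1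
    · rfl
    · by_contra h2
      have hjs := MvPolynomial.mem_support_iff.mpr h2
      have h3 := lt_of_le_of_ne (ord_le y hjs) (Ne.symm h1)
      rw [← hj0'] at h3
      have := (h j0 (hJ hj0) j (hJ hjs)).1 h3
      rw [wt_rl, wt_rl] at hj
      have : wtZ l j = wtZ l j0 := by exact_mod_cast hj
      omega
  · intro j hj
    by_contra h2
    have hjs := MvPolynomial.mem_support_iff.mpr h2
    rw [wt_rl, wt_rl] at hj
    have hj1 : wtZ l j < wtZ l j0 := by exact_mod_cast hj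
    have h3 := ord_le y hjs
    rw [← hj0'] at h3
    rcases lt_or_eq_of_le h3 with h4 | h4
    · have := (h j0 (hJ hj0) j (hJ hjs)).1 h4
      omega
    · have := (h j0 (hJ hj0) j (hJ hjs)).2 h4
      omega
  · intro j hj
    have h1 := mem_support_ini.mp (MvPolynomial.mem_support_iff.mpr hj)
    have h2 := (h j0 (hJ hj0) j (hJ h1.1)).2 (by rw [h1.2, hj0'])
    rw [wt_rl, wt_rl, h2]

/-- for two polynomials and a real weight there is an integral weight with the same initial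
forms. -/
theorem exists_int_ini (y : Fin k → ℝ) {P Q : Pol k} (hP : P ≠ 0) (hQ : Q ≠ 0) :
    ∃ l : Fin k → ℤ, ini (rl l) P = ini y P ∧ ini (rl l) Q = ini y Q := by
  classical
  obtain ⟨l, hl⟩ := exists_int_weight y (P.support ∪ Q.support)
  exact ⟨l, ini_eq_of_weight hl hP Finset.subset_union_left,
    ini_eq_of_weight hl hQ Finset.subset_union_right⟩

end Pool.Agent.MP_44c6d5_nt
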