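import Mathlib
import Pool.Agent.MP_44c6d5_nt.Approx
import Pool.Agent.MP_44c6d5_nt.Uni

namespace Pool.Agent.MP_44c6d5_nt

open MeasureTheory Real MvPolynomial

variable {k : ℕ}

/-- the `k`-torus -/
abbrev Tor (k : ℕ) := Fin k → UnitAddCircle

/-- value of the polynomial at the point `(exp (2 π i x_1), ..., exp (2 π i x_k))` -/
noncomputable def ev (P : Pol k) (x : Tor k) : ℂ := aeval (fun i => e (x i)) P

/-- value of a monomial -/
noncomputable def mon (x : Tor k) (j : Fin k →₀ ℕ) : ℂ := ∏ i, e (x i) ^ (j i)

theorem norm_mon (x : Tor k) (j : Fin k →₀ ℕ) : ‖mon x j‖ = 1 := by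
  simp [mon, norm_prod, norm_e]

theorem ev_eq_sum (P : Pol k) (x : Tor k) :
    ev P x = ∑ j ∈ P.support, ((coeff j P : ℤ) : ℂ) * mon x j := by
  unfold ev mon
  rw [aeval_def, eval₂_eq']
  simp

theorem continuous_ev (P : Pol k) : Continuous (ev P) := by
  have : ev P = fun x => ∑ j ∈ P.support, ((coeff j P : ℤ) : ℂ) * mon x j := by
    ext x; exact ev_eq_sum P x
  rw [this]
  apply continuous_finsetSum
  intro j _
  apply Continuous.mul continuous_const
  unfold mon
  apply continuous_finsetProd
  intro i _
  exact (continuous_e.comp (continuous_apply i)).pow _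

theorem ev_mul (P Q : Pol k) (x : Tor k) : ev (P * Q) x = ev P x * ev Q x := by simp [ev]
theorem ev_sub (P Q : Pol k) (x : Tor k) : ev (P - Q) x = ev P x - ev Q x := by simp [ev]
theorem ev_add (P Q : Pol k) (x : Tor k) : ev (P + Q) x = ev P x + ev Q x := by simp [ev]

/-- the translate of `x` by `t` in the direction `l` -/
def line (l : Fin k → ℤ) (x : Tor k) (t : UnitAddCircle) : Tor k := fun i => x i + l i • t

theorem continuous_line (l : Fin k → ℤ) :
    Continuous fun p : Tor k × UnitAddCircle => line l p.1 p.2 := by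
  unfold line
  fun_prop

theorem mon_line (l : Fin k → ℤ) (x : Tor k) (t : UnitAddCircle) (j : Fin k →₀ ℕ) :
    mon (line l x t) j = mon x j * e t ^ (wtZ l j) := by
  unfold mon line wtZ
  simp only [e_add, e_zsmul, mul_pow]
  rw [Finset.prod_mul_distrib]
  congr 1
  have : ∀ s : Finset (Fin k), ∏ i ∈ s, (e t ^ l i) ^ (j i) = e t ^ (∑ i ∈ s, l i * (j i : ℤ)) := by
    intro s
    classical
    induction s using Finset.induction_on with
    | empty => simp
    | insert a s ha ih =>
      rw [Finset.prod_insert ha, Finset.sum_insert ha, zpow_add₀ (e_ne_zero t), ih,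
        zpow_mul, zpow_natCast]
  exact this Finset.univ

instance instProbUnitAddCircle : IsProbabilityMeasure (volume : Measure UnitAddCircle) :=
  ⟨by simp [AddCircle.measure_univ]⟩

theorem measurePreserving_line (l : Fin k → ℤ) :
    MeasurePreserving (fun p : UnitAddCircle × Tor k => line l p.2 p.1)
      ((volume : Measure UnitAddCircle).prod (volume : Measure (Tor k)))
      (volume : Measure (Tor k)) := by
  have h1 : MeasurePreserving
      (fun p : UnitAddCircle × Tor k => ((id p.1, line l p.2 p.1) : UnitAddCircle × Tor k))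
      ((volume : Measure UnitAddCircle).prod (volume : Measure (Tor k)))
      ((volume : Measure UnitAddCircle).prod (volume : Measure (Tor k))) := by
    apply MeasurePreserving.skew_product (g := fun t x => line l x t)
      (MeasurePreserving.id volume)
    · exact ((continuous_line l).comp (continuous_snd.prodMk continuous_fst)).measurable
    · apply Filter.Eventually.of_forall
      intro t
      have : (fun x : Tor k => line l x t) = fun x => x + (fun i => l i • t) := by
        ext x i; rfl
      rw [this]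
      exact map_add_right_eq_self volume (fun i => l i • t)
  have h2 : MeasurePreserving (Prod.snd : UnitAddCircle × Tor k → Tor k)
      ((volume : Measure UnitAddCircle).prod (volume : Measure (Tor k))) volume :=
    measurePreserving_snd
  exact h2.comp h1

theorem lintegral_line (l : Fin k → ℤ) {h : Tor k → ENNReal} (hh : Measurable h) :
    ∫⁻ x, h x = ∫⁻ x, ∫⁻ t, h (line l x t) := by
  rw [← (measurePreserving_line l).lintegral_comp hh]
  exact lintegral_prod_symm' _ (hh.comp (measurePreserving_line l).measurable)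

theorem integrable_line_prod (l : Fin k → ℤ) {h : Tor k → ℝ} (hh : Integrable h) :
    Integrable (fun p : UnitAddCircle × Tor k => h (line l p.2 p.1))
      ((volume : Measure UnitAddCircle).prod (volume : Measure (Tor k))) :=
  (measurePreserving_line l).integrable_comp_of_integrable hh

theorem ae_integrable_line (l : Fin k → ℤ) {h : Tor k → ℝ} (hh : Integrable h) :
    ∀ᵐ x : Tor k, Integrable fun t => h (line l x t) :=
  (integrable_line_prod l hh).prod_left_ae

theorem integrable_integral_line (l : Fin k → ℤ) {h : Tor k → ℝ} (hh : Integrable h) :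
    Integrable fun x => ∫ t, h (line l x t) :=
  (integrable_line_prod l hh).integral_prod_right

theorem integral_line (l : Fin k → ℤ) {h : Tor k → ℝ} (hh : Integrable h) :
    ∫ x, h x = ∫ x, ∫ t, h (line l x t) := by
  have h1 : ∫ x, h x = ∫ p : UnitAddCircle × Tor k, h (line l p.2 p.1)
      ∂((volume : Measure UnitAddCircle).prod (volume : Measure (Tor k))) := by
    have := (measurePreserving_line l).map_eq
    conv_lhs => rw [← this]
    rw [integral_map (measurePreserving_line l).measurable.aemeasurable]
    rw [this]; exact hh.aestronglyMeasurable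
  rw [h1, integral_prod_symm _ (integrable_line_prod l hh)]

/-- the integral minimal weight -/
def ordZ (l : Fin k → ℤ) (P : Pol k) : ℤ :=
  if h : P.support.Nonempty then P.support.inf' h (wtZ l) else 0

theorem ordZ_le {l : Fin k → ℤ} {P : Pol k} {j : Fin k →₀ ℕ} (hj : j ∈ P.support) :
    ordZ l P ≤ wtZ l j := by
  unfold ordZ
  rw [dif_pos ⟨j, hj⟩]
  exact Finset.inf'_le _ hj

theorem exists_ordZ (l : Fin k → ℤ) {P : Pol k} (hP : P ≠ 0) :
    ∃ j ∈ P.support, wtZ l j = ordZ l P := by
  have h := supp_nonempty hP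
  unfold ordZ
  rw [dif_pos h]
  obtain ⟨j, hj, hj'⟩ := Finset.exists_mem_eq_inf' h (wtZ l)
  exact ⟨j, hj, hj'.symm⟩

theorem ord_rl (l : Fin k → ℤ) {P : Pol k} (hP : P ≠ 0) : ord (rl l) P = (ordZ l P : ℝ) := by
  obtain ⟨j, hj, hj'⟩ := exists_ord (rl l) hP
  obtain ⟨i, hi, hi'⟩ := exists_ordZ l hP
  apply le_antisymm
  · rw [← hi', ← wt_rl]; exact ord_le _ hi
  · rw [← hj', wt_rl]; exact_mod_cast ordZ_le hj

/-- the restriction of `P` to the line through `x` in direction `l`, as a polynomial in
`exp (2 π i t)`. -/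
noncomputable def up (l : Fin k → ℤ) (P : Pol k) (x : Tor k) : Polynomial ℂ :=
  ∑ j ∈ P.support, Polynomial.C (((coeff j P : ℤ) : ℂ) * mon x j) *
    Polynomial.X ^ ((wtZ l j - ordZ l P).toNat)

theorem ev_line (l : Fin k → ℤ) (P : Pol k) (x : Tor k) (t : UnitAddCircle) :
    ev P (line l x t) = e t ^ (ordZ l P) * (up l P x).eval (e t) := by
  rw [ev_eq_sum, up, Polynomial.eval_finsetSum, Finset.mul_sum]
  apply Finset.sum_congr rfl
  intro j hj
  rw [mon_line, Polynomial.eval_mul, Polynomial.eval_C, Polynomial.eval_pow, Polynomial.eval_X]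
  have h := ordZ_le (l := l) hj
  have h2 : e t ^ ((wtZ l j - ordZ l P).toNat) = e t ^ (wtZ l j - ordZ l P) := by
    rw [← zpow_natCast, Int.toNat_of_nonneg (by omega)]
  rw [h2, show e t ^ (wtZ l j) = e t ^ (ordZ l P) * e t ^ (wtZ l j - ordZ l P) by
    rw [← zpow_add₀ (e_ne_zero t)]; congr 1; ring]
  ring

theorem norm_ev_line (l : Fin k → ℤ) (P : Pol k) (x : Tor k) (t : UnitAddCircle) :
    ‖ev P (line l x t)‖ = ‖(up l P x).eval (e t)‖ := by
  rw [ev_line, norm_mul, norm_zpow, norm_e]; simp

theorem coeff_zero_up (l : Fin k → ℤ) {P : Pol k} (hP : P ≠ 0) (x : Tor k) :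
    (up l P x).coeff 0 = ev (ini (rl l) P) x := by
  classical
  rw [up, Polynomial.finsetSum_coeff, ev_eq_sum]
  have hsub : (ini (rl l) P).support = P.support.filter (fun j => wt (rl l) j = ord (rl l) P) := by
    ext j
    rw [mem_support_ini, Finset.mem_filter]
  rw [hsub, Finset.sum_filter]
  apply Finset.sum_congr rfl
  intro j hj
  rw [Polynomial.coeff_C_mul, Polynomial.coeff_X_pow, coeff_ini]
  have h := ordZ_le (l := l) hj
  have h3 : wt (rl l) j = ord (rl l) P ↔ 0 = (wtZ l j - ordZ l P).toNat := by
    rw [ord_rl l hP, wt_rl, Int.cast_inj]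
    omega
  by_cases h4 : wt (rl l) j = ord (rl l) P
  · rw [if_pos h4, if_pos (h3.mp h4), if_pos h4, mul_one]
  · rw [if_neg h4, if_neg (fun h5 => h4 (h3.mpr h5)), mul_zero]

end Pool.Agent.MP_44c6d5_nt
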