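import Mathlib
import Pool.Agent.MP_44c6d5_nt.Torus

namespace Pool.Agent.MP_44c6d5_nt

open MeasureTheory Real MvPolynomial

variable {k : ℕ}

/-- an integral direction separating finitely many exponents. -/
theorem exists_sep (J : Finset (Fin k →₀ ℕ)) :
    ∃ l : Fin k → ℤ, ∀ j ∈ J, ∀ j' ∈ J, wtZ l j = wtZ l j' → j = j' := by
  classical
  let L : (Fin k →₀ ℕ) × (Fin k →₀ ℕ) → MvPolynomial (Fin k) ℤ :=
    fun p => ∑ i, C ((p.1 i : ℤ) - p.2 i) * X i
  have hL : ∀ p l, eval l (L p) = wtZ l p.1 - wtZ l p.2 := by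
    intro p l
    simp only [L, wtZ, map_sum, map_mul, eval_C, eval_X]
    rw [← Finset.sum_sub_distrib]
    apply Finset.sum_congr rfl
    intro i _; ring
  have hPi : ∏ p ∈ (J ×ˢ J).filter (fun p => p.1 ≠ p.2), L p ≠ 0 := by
    rw [Finset.prod_ne_zero_iff]
    rintro ⟨j, j'⟩ hp h0
    have hne : j ≠ j' := (Finset.mem_filter.mp hp).2
    apply hne
    ext i
    have := hL (j, j') (Pi.single i 1)
    rw [h0, map_zero] at this
    simp only [wtZ, Pi.single_apply, ite_mul, one_mul, zero_mul, Finset.sum_ite_eq',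
      Finset.mem_univ, if_true] at this
    omega
  obtain ⟨l, hl⟩ : ∃ l, eval l (∏ p ∈ (J ×ˢ J).filter (fun p => p.1 ≠ p.2), L p) ≠ 0 := by
    by_contra h
    push Not at h
    exact hPi (MvPolynomial.funext (fun l => by rw [h l]; simp))
  refine ⟨l, fun j hj j' hj' h => ?_⟩
  by_contra hne
  apply hl
  rw [map_prod]
  apply Finset.prod_eq_zero (i := (j, j'))
  · simp [hj, hj', hne]
  · rw [hL]; simp [h]

/-- sum of the absolute values of the coefficients -/
noncomputable def len (P : Pol k) : ℝ := ∑ j ∈ P.support, |((coeff j P : ℤ) : ℝ)|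

theorem norm_ev_le (P : Pol k) (x : Tor k) : ‖ev P x‖ ≤ len P := by
  rw [ev_eq_sum]
  refine (norm_sum_le _ _).trans ?_
  apply le_of_eq
  apply Finset.sum_congr rfl
  intro j _
  rw [norm_mul, norm_mon, mul_one, Complex.norm_intCast]

theorem one_le_abs_coeff {P : Pol k} {j : Fin k →₀ ℕ} (hj : j ∈ P.support) :
    (1 : ℝ) ≤ |((coeff j P : ℤ) : ℝ)| := by
  have h : coeff j P ≠ 0 := MvPolynomial.mem_support_iff.mp hj
  have := Int.one_le_abs h
  exact_mod_cast this

theorem one_le_len {P : Pol k} (hP : P ≠ 0) : 1 ≤ len P := by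
  obtain ⟨j, hj⟩ := supp_nonempty hP
  exact (one_le_abs_coeff hj).trans
    (Finset.single_le_sum (f := fun j => |((coeff j P : ℤ) : ℝ)|) (fun _ _ => abs_nonneg _) hj)

theorem log_norm_ev_le {P : Pol k} (hP : P ≠ 0) (x : Tor k) : log ‖ev P x‖ ≤ log (len P) := by
  rcases eq_or_ne (ev P x) 0 with h | h
  · rw [h, norm_zero, Real.log_zero]
    exact Real.log_nonneg (one_le_len hP)
  · exact Real.log_le_log (norm_pos_iff.mpr h) (norm_ev_le P x)

theorem measurable_log_ev (P : Pol k) : Measurable fun x : Tor k => log ‖ev P x‖ :=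
  Real.measurable_log.comp (continuous_ev P).norm.measurable

theorem up_coeff_zero_ge {P : Pol k} (hP : P ≠ 0) {l : Fin k → ℤ}
    (hl : ∀ j ∈ P.support, ∀ j' ∈ P.support, wtZ l j = wtZ l j' → j = j') (x : Tor k) :
    1 ≤ ‖(up l P x).coeff 0‖ := by
  rw [coeff_zero_up l hP x]
  obtain ⟨j0, hj0, hj0'⟩ := exists_ordZ l hP
  have hs : (ini (rl l) P).support = {j0} := by
    ext j
    rw [mem_support_ini, Finset.mem_singleton, ord_rl l hP, wt_rl, Int.cast_inj]
    constructor
    · rintro ⟨h1, h2⟩
      exact hl j h1 j0 hj0 (by rw [h2, hj0'])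
    · rintro rfl; exact ⟨hj0, hj0'⟩
  rw [ev_eq_sum, hs, Finset.sum_singleton, norm_mul, norm_mon, mul_one, Complex.norm_intCast]
  apply one_le_abs_coeff
  rw [hs]; simp

theorem integral_abs_line_le {P : Pol k} (hP : P ≠ 0) {l : Fin k → ℤ}
    (hl : ∀ j ∈ P.support, ∀ j' ∈ P.support, wtZ l j = wtZ l j' → j = j') (x : Tor k) :
    Integrable (fun t => log ‖ev P (line l x t)‖) ∧
    0 ≤ ∫ t, log ‖ev P (line l x t)‖ ∧
    ∫ t, ‖log ‖ev P (line l x t)‖‖ ≤ 2 * log (len P) := by
  have h0 := up_coeff_zero_ge hP hl x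
  have hne : (up l P x).coeff 0 ≠ 0 := by
    intro h; rw [h, norm_zero] at h0; linarith
  have hint : Integrable (fun t => log ‖ev P (line l x t)‖) := by
    simp only [norm_ev_line]
    exact integrable_log_norm_e _
  have h1 : 0 ≤ ∫ t, log ‖ev P (line l x t)‖ := by
    simp only [norm_ev_line]
    exact (Real.log_nonneg h0).trans (log_coeff_zero_le _ hne)
  refine ⟨hint, h1, ?_⟩
  have hB : 0 ≤ log (len P) := Real.log_nonneg (one_le_len hP)
  calc ∫ t, ‖log ‖ev P (line l x t)‖‖
      ≤ ∫ t, (2 * log (len P) - log ‖ev P (line l x t)‖) := by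
        apply integral_mono hint.norm ((integrable_const _).sub hint)
        intro t
        have := log_norm_ev_le hP (line l x t)
        simp only [Real.norm_eq_abs, Pi.sub_apply]
        rw [abs_le]
        constructor <;> linarith
    _ = 2 * log (len P) - ∫ t, log ‖ev P (line l x t)‖ := by
        rw [integral_sub (integrable_const _) hint]
        simp
    _ ≤ 2 * log (len P) := by linarith

theorem integrable_log_ev {P : Pol k} (hP : P ≠ 0) : Integrable fun x : Tor k => log ‖ev P x‖ := by
  obtain ⟨l, hl⟩ := exists_sep P.support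
  refine ⟨(measurable_log_ev P).aestronglyMeasurable, ?_⟩
  unfold HasFiniteIntegral
  have hm : Measurable fun x : Tor k => ‖log ‖ev P x‖‖ₑ := (measurable_log_ev P).enorm
  rw [lintegral_line l hm]
  calc ∫⁻ x, ∫⁻ t, ‖log ‖ev P (line l x t)‖‖ₑ
      ≤ ∫⁻ _x : Tor k, ENNReal.ofReal (2 * log (len P)) := by
        apply lintegral_mono
        intro x
        obtain ⟨h1, _, h3⟩ := integral_abs_line_le hP hl x
        simp only
        rw [← ofReal_integral_norm_eq_lintegral_enorm h1]
        exact ENNReal.ofReal_le_ofReal h3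
    _ < ⊤ := by
        rw [lintegral_const, measure_univ, mul_one]
        exact ENNReal.ofReal_lt_top

/-- logarithmic Mahler measure -/
noncomputable def mm (P : Pol k) : ℝ := ∫ x : Tor k, log ‖ev P x‖

theorem mm_nonneg {P : Pol k} (hP : P ≠ 0) : 0 ≤ mm P := by
  obtain ⟨l, hl⟩ := exists_sep P.support
  unfold mm
  rw [integral_line l (integrable_log_ev hP)]
  apply integral_nonneg
  intro x
  exact (integral_abs_line_le hP hl x).2.1

theorem e_injective : Function.Injective e := by
  intro s t h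
  unfold e at h
  exact AddCircle.injective_toCircle one_ne_zero (Subtype.ext h)

instance instNullUnitAddCircle : NullSingletonClass (volume : Measure UnitAddCircle) :=
  ⟨fun x => by
    have h := AddCircle.volume_closedBall (T := (1 : ℝ)) (x := x) 0
    rw [Metric.closedBall_zero] at h
    rw [h]; simp⟩

theorem ae_eval_ne_zero {f : Polynomial ℂ} (hf : f ≠ 0) :
    ∀ᵐ t : UnitAddCircle, f.eval (e t) ≠ 0 := by
  rw [ae_iff]
  apply Set.Finite.measure_zero
  have : {a : UnitAddCircle | ¬ Polynomial.eval (e a) f ≠ 0} = e ⁻¹' {z | f.IsRoot z} := by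
    ext a; simp
  rw [this]
  exact (Polynomial.finite_setOfPred_isRoot hf).preimage e_injective.injOn

theorem ae_ev_ne_zero {P : Pol k} (hP : P ≠ 0) : ∀ᵐ x : Tor k, ev P x ≠ 0 := by
  obtain ⟨l, hl⟩ := exists_sep P.support
  rw [ae_iff]
  have hS : MeasurableSet {x : Tor k | ¬ ev P x ≠ 0} := by
    have : {x : Tor k | ¬ ev P x ≠ 0} = ev P ⁻¹' {0} := by ext x; simp
    rw [this]
    exact (isClosed_singleton.preimage (continuous_ev P)).measurableSet
  have hmI : Measurable (({x : Tor k | ¬ ev P x ≠ 0}).indicator (1 : Tor k → ENNReal)) :=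
    (measurable_const (a := (1 : ENNReal))).indicator hS
  rw [← lintegral_indicator_one hS, lintegral_line l hmI]
  rw [lintegral_eq_zero_iff']
  swap
  · exact (Measurable.lintegral_prod_right'
      (f := fun p : Tor k × UnitAddCircle => ({x : Tor k | ¬ ev P x ≠ 0}).indicator
        (1 : Tor k → ENNReal) (line l p.1 p.2))
      (hmI.comp (continuous_line l).measurable)).aemeasurable
  apply Filter.Eventually.of_forall
  intro x
  simp only [Pi.zero_apply]
  rw [lintegral_eq_zero_iff']
  swap
  · exact (hmI.comp ((continuous_line l).comp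
      (continuous_const.prodMk continuous_id)).measurable).aemeasurable
  have hne : up l P x ≠ 0 := by
    intro h
    have := up_coeff_zero_ge hP hl x
    rw [h] at this; simp at this
    linarith
  filter_upwards [ae_eval_ne_zero hne] with t ht
  rw [Set.indicator_of_notMem]
  · rfl
  · simp only [Set.mem_ofPred_eq, not_not]
    intro h
    apply ht
    rw [← norm_eq_zero, ← norm_ev_line, h, norm_zero]

end Pool.Agent.MP_44c6d5_nt
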