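import Mathlib
import Pool.Agent.MP_44c6d5_nt.Integr

namespace Pool.Agent.MP_44c6d5_nt

open MeasureTheory Real MvPolynomial

variable {k : ℕ}

/-- `|P|² + |Q|²` on the torus -/
noncomputable def N (P Q : Pol k) (x : Tor k) : ℝ := ‖ev P x‖ ^ 2 + ‖ev Q x‖ ^ 2

/-- the joint height of a pair of polynomials -/
noncomputable def H (P Q : Pol k) : ℝ := ∫ x : Tor k, log (N P Q x)

theorem N_nonneg (P Q : Pol k) (x : Tor k) : 0 ≤ N P Q x := by unfold N; positivity

theorem N_pos {P : Pol k} (Q : Pol k) {x : Tor k} (h : ev P x ≠ 0) : 0 < N P Q x := by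
  unfold N
  have := norm_pos_iff.mpr h
  positivity

theorem N_comm (P Q : Pol k) (x : Tor k) : N P Q x = N Q P x := by unfold N; ring

theorem H_comm (P Q : Pol k) : H P Q = H Q P := by
  unfold H
  congr 1
  ext x
  rw [N_comm]

theorem continuous_N (P Q : Pol k) : Continuous (N P Q) := by
  unfold N
  exact ((continuous_ev P).norm.pow 2).add ((continuous_ev Q).norm.pow 2)

theorem measurable_logN (P Q : Pol k) : Measurable fun x => log (N P Q x) :=
  Real.measurable_log.comp (continuous_N P Q).measurable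

theorem two_log_le_logN {P : Pol k} (Q : Pol k) {x : Tor k} (h : ev P x ≠ 0) :
    2 * log ‖ev P x‖ ≤ log (N P Q x) := by
  have h1 := norm_pos_iff.mpr h
  have h2 : 2 * log ‖ev P x‖ = log (‖ev P x‖ ^ 2) := by rw [Real.log_pow]; norm_num
  rw [h2]
  apply Real.log_le_log (by positivity)
  unfold N
  have : 0 ≤ ‖ev Q x‖ ^ 2 := by positivity
  linarith

theorem len_nonneg (P : Pol k) : 0 ≤ len P := Finset.sum_nonneg fun _ _ => abs_nonneg _

theorem N_le (P Q : Pol k) (x : Tor k) : N P Q x ≤ len P ^ 2 + len Q ^ 2 := by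
  unfold N
  have h1 := pow_le_pow_left₀ (norm_nonneg _) (norm_ev_le P x) 2
  have h2 := pow_le_pow_left₀ (norm_nonneg _) (norm_ev_le Q x) 2
  linarith

theorem integrable_logN {P : Pol k} (hP : P ≠ 0) (Q : Pol k) :
    Integrable fun x => log (N P Q x) := by
  have hB : 0 ≤ log (len P ^ 2 + len Q ^ 2) := by
    apply Real.log_nonneg
    have := one_le_len hP
    nlinarith [len_nonneg Q]
  refine Integrable.mono' (g := fun x => 2 * ‖log ‖ev P x‖‖ + log (len P ^ 2 + len Q ^ 2))
    (((integrable_log_ev hP).norm.const_mul 2).add (integrable_const _))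
    (measurable_logN P Q).aestronglyMeasurable ?_
  filter_upwards [ae_ev_ne_zero hP] with x hx
  have h1 := two_log_le_logN Q hx
  have h2 : log (N P Q x) ≤ log (len P ^ 2 + len Q ^ 2) :=
    Real.log_le_log (N_pos Q hx) (N_le P Q x)
  rw [Real.norm_eq_abs, Real.norm_eq_abs]
  have h3 := neg_abs_le (log ‖ev P x‖)
  have h4 := abs_nonneg (log ‖ev P x‖)
  rw [abs_le]
  constructor <;> linarith

theorem two_mm_le_H {P : Pol k} (hP : P ≠ 0) (Q : Pol k) : 2 * mm P ≤ H P Q := by
  unfold mm H
  rw [← integral_const_mul]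
  apply integral_mono_ae ((integrable_log_ev hP).const_mul 2) (integrable_logN hP Q)
  filter_upwards [ae_ev_ne_zero hP] with x hx
  exact two_log_le_logN Q hx

theorem H_nonneg {P : Pol k} (hP : P ≠ 0) (Q : Pol k) : 0 ≤ H P Q := by
  have := two_mm_le_H hP Q
  have := mm_nonneg hP
  linarith

theorem H_mul {G P : Pol k} (hG : G ≠ 0) (hP : P ≠ 0) (Q : Pol k) :
    H (G * P) (G * Q) = 2 * mm G + H P Q := by
  unfold mm H
  rw [← integral_const_mul, ← integral_add ((integrable_log_ev hG).const_mul 2)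
    (integrable_logN hP Q)]
  apply integral_congr_ae
  filter_upwards [ae_ev_ne_zero hG, ae_ev_ne_zero hP] with x h1 h2
  have h3 : N (G * P) (G * Q) x = ‖ev G x‖ ^ 2 * N P Q x := by
    unfold N
    rw [ev_mul, ev_mul, norm_mul, norm_mul]; ring
  have h4 := norm_pos_iff.mpr h1
  rw [h3, Real.log_mul (by positivity) (N_pos Q h2).ne', Real.log_pow]
  norm_num

theorem H_combo {P Q p q : Pol k} (hP : P ≠ 0) (hQ : Q ≠ 0) (hp : p ≠ 0) (hq : q ≠ 0) :
    H (q * P - p * Q) (p * Q) ≤ log 3 + H p q + H P Q := by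
  rw [H_comm]
  unfold H
  have h1 := integrable_logN hp q
  have h2 := integrable_logN hP Q
  have h3 := integrable_logN (mul_ne_zero hp hQ) (q * P - p * Q)
  have e1 : log 3 + (∫ x, log (N p q x)) + (∫ x, log (N P Q x)) =
      ∫ x, (log 3 + log (N p q x) + log (N P Q x)) := by
    have h12 : Integrable (fun x : Tor k => log 3 + log (N p q x)) := (integrable_const _).add h1
    rw [integral_add h12 h2, integral_add (integrable_const _) h1]
    simp
  rw [e1]
  apply integral_mono_ae h3 (((integrable_const _).add h1).add h2)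
  filter_upwards [ae_ev_ne_zero hP, ae_ev_ne_zero hp, ae_ev_ne_zero (mul_ne_zero hp hQ)]
    with x g1 g2 g3
  simp only [Pi.add_apply]
  rw [← Real.log_mul (by norm_num) (N_pos q g2).ne',
    ← Real.log_mul (mul_pos (by norm_num) (N_pos q g2)).ne' (N_pos Q g1).ne']
  apply Real.log_le_log (N_pos _ g3)
  unfold N
  rw [ev_sub, ev_mul, ev_mul]
  have h4 : ‖ev q x * ev P x - ev p x * ev Q x‖ ≤ ‖ev q x‖ * ‖ev P x‖ + ‖ev p x‖ * ‖ev Q x‖ := by
    refine (norm_sub_le _ _).trans ?_
    rw [norm_mul, norm_mul]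
  have h5 := pow_le_pow_left₀ (norm_nonneg _) h4 2
  rw [norm_mul]
  nlinarith [sq_nonneg (‖ev q x‖ * ‖ev P x‖ - ‖ev p x‖ * ‖ev Q x‖),
    sq_nonneg (‖ev q x‖ * ‖ev Q x‖), sq_nonneg (‖ev p x‖ * ‖ev P x‖)]

theorem ev_line_ini (l : Fin k → ℤ) {P : Pol k} (hP : P ≠ 0) (x : Tor k) (t : UnitAddCircle) :
    ev (ini (rl l) P) (line l x t) = e t ^ (ordZ l P) * ev (ini (rl l) P) x := by
  rw [ev_eq_sum, ev_eq_sum, Finset.mul_sum]
  apply Finset.sum_congr rfl
  intro j hj
  have h := (mem_support_ini.mp hj).2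
  rw [wt_rl, ord_rl l hP, Int.cast_inj] at h
  rw [mon_line, h]; ring

theorem lagrange (a b c d : ℂ) :
    ‖(starRingEnd ℂ) c * a + (starRingEnd ℂ) d * b‖ ^ 2 + ‖a * d - b * c‖ ^ 2 =
      (‖a‖ ^ 2 + ‖b‖ ^ 2) * (‖c‖ ^ 2 + ‖d‖ ^ 2) := by
  simp only [Complex.sq_norm, Complex.normSq_apply, Complex.add_re, Complex.add_im,
    Complex.mul_re, Complex.mul_im, Complex.conj_re, Complex.conj_im, Complex.sub_re,
    Complex.sub_im]
  ring

/-- the defect function -/
noncomputable def rho (W P Q P' Q' : Pol k) (x : Tor k) : ℝ :=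
  ‖ev W x‖ ^ 2 / (N P Q x * N P' Q' x)

theorem rho_bounds (P Q P' Q' : Pol k) (x : Tor k) :
    0 ≤ rho (P * Q' - Q * P') P Q P' Q' x ∧ rho (P * Q' - Q * P') P Q P' Q' x ≤ 1 := by
  have h1 := N_nonneg P Q x
  have h2 := N_nonneg P' Q' x
  constructor
  · unfold rho; positivity
  · unfold rho
    apply div_le_one_of_le₀ _ (mul_nonneg h1 h2)
    rw [ev_sub, ev_mul, ev_mul]
    have h3 := lagrange (ev P x) (ev Q x) (ev P' x) (ev Q' x)
    unfold N
    rw [← h3]
    have : 0 ≤ ‖(starRingEnd ℂ) (ev P' x) * ev P x + (starRingEnd ℂ) (ev Q' x) * ev Q x‖ ^ 2 := by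
      positivity
    linarith

theorem measurable_rho (W P Q P' Q' : Pol k) : Measurable (rho W P Q P' Q') := by
  unfold rho
  exact ((continuous_ev W).norm.pow 2).measurable.div
    ((continuous_N P Q).mul (continuous_N P' Q')).measurable

theorem integrable_rho (P Q P' Q' : Pol k) :
    Integrable (rho (P * Q' - Q * P') P Q P' Q') := by
  refine Integrable.mono' (g := fun _ => (1 : ℝ)) (integrable_const _)
    (measurable_rho _ _ _ _ _).aestronglyMeasurable ?_
  apply Filter.Eventually.of_forall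
  intro x
  have := rho_bounds P Q P' Q' x
  rw [Real.norm_eq_abs, abs_le]
  constructor <;> linarith

/-- inner inequality on a line -/
theorem inner_ineq (l : Fin k → ℤ) {P Q : Pol k} (hP : P ≠ 0) (hQ : Q ≠ 0) (x : Tor k)
    (hx : ev (ini (rl l) P) x ≠ 0)
    (hi1 : Integrable fun t => log (N P Q (line l x t)))
    (hi2 : Integrable fun t => rho (P * ini (rl l) Q - Q * ini (rl l) P) P Q
      (ini (rl l) P) (ini (rl l) Q) (line l x t)) :
    log (N (ini (rl l) P) (ini (rl l) Q) x) ≤
      ∫ t, (log (N P Q (line l x t)) - rho (P * ini (rl l) Q - Q * ini (rl l) P) P Q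
        (ini (rl l) P) (ini (rl l) Q) (line l x t)) := by
  set P' := ini (rl l) P with hP'
  set Q' := ini (rl l) Q with hQ'
  set p := up l P x with hp
  set q := up l Q x with hq
  have hpc : p.coeff 0 = ev P' x := coeff_zero_up l hP x
  have hqc : q.coeff 0 = ev Q' x := coeff_zero_up l hQ x
  set c := ev P' x with hc
  set d := ev Q' x with hd
  set α : Polynomial ℂ := Polynomial.C ((starRingEnd ℂ) c) * p +
    Polynomial.C ((starRingEnd ℂ) d) * q with hα
  have hN' : 0 < N P' Q' x := N_pos Q' hx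
  have hα0 : α.coeff 0 = ((N P' Q' x : ℝ) : ℂ) := by
    rw [hα, Polynomial.coeff_add, Polynomial.coeff_C_mul, Polynomial.coeff_C_mul, hpc, hqc]
    unfold N
    push_cast
    rw [mul_comm, Complex.mul_conj, mul_comm _ d, Complex.mul_conj]
    rw [Complex.normSq_eq_norm_sq, Complex.normSq_eq_norm_sq]
    push_cast
    rfl
  have hα0' : α.coeff 0 ≠ 0 := by
    rw [hα0]; exact_mod_cast hN'.ne'
  have hαne : α ≠ 0 := by
    intro h; rw [h] at hα0'; simp at hα0'
  have h1 := log_coeff_zero_le α hα0'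
  rw [hα0, Complex.norm_real, Real.norm_eq_abs, abs_of_pos hN'] at h1
  have h2 : ∀ᵐ t : UnitAddCircle, 2 * log ‖α.eval (e t)‖ ≤
      (log (N P Q (line l x t)) - rho (P * Q' - Q * P') P Q P' Q' (line l x t)) +
        log (N P' Q' x) := by
    filter_upwards [ae_eval_ne_zero hαne] with t ht
    have a1 : N P Q (line l x t) = ‖p.eval (e t)‖ ^ 2 + ‖q.eval (e t)‖ ^ 2 := by
      unfold N; rw [norm_ev_line, norm_ev_line]
    have a2 : N P' Q' (line l x t) = ‖c‖ ^ 2 + ‖d‖ ^ 2 := by
      unfold N; rw [hP', hQ', ev_line_ini l hP, ev_line_ini l hQ, norm_mul, norm_mul,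
        norm_zpow, norm_zpow, norm_e]; simp [hc, hd, hP', hQ']
    have a3 : ‖ev (P * Q' - Q * P') (line l x t)‖ = ‖p.eval (e t) * d - q.eval (e t) * c‖ := by
      rw [ev_sub, ev_mul, ev_mul, ev_line l P, ev_line l Q, hP', hQ', ev_line_ini l hP,
        ev_line_ini l hQ]
      have : e t ^ ordZ l P * Polynomial.eval (e t) (up l P x) *
          (e t ^ ordZ l Q * ev (ini (rl l) Q) x) -
          e t ^ ordZ l Q * Polynomial.eval (e t) (up l Q x) *
          (e t ^ ordZ l P * ev (ini (rl l) P) x) =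
          (e t ^ ordZ l P * e t ^ ordZ l Q) * (p.eval (e t) * d - q.eval (e t) * c) := by
        rw [hp, hq, hc, hd]; ring
      rw [this, norm_mul, norm_mul, norm_zpow, norm_zpow, norm_e]
      simp
    have a4 := lagrange (p.eval (e t)) (q.eval (e t)) c d
    have a5 : α.eval (e t) = (starRingEnd ℂ) c * p.eval (e t) + (starRingEnd ℂ) d * q.eval (e t) := by
      rw [hα]; simp
    rw [← a5, ← a3, ← a1] at a4
    have a6 : N P' Q' x = ‖c‖ ^ 2 + ‖d‖ ^ 2 := rfl
    rw [← a6] at a4
    have a7 : 0 < ‖α.eval (e t)‖ ^ 2 := by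
      have := norm_pos_iff.mpr ht
      positivity
    have a8 : 0 < N P Q (line l x t) := by
      by_contra hcon
      have : N P Q (line l x t) = 0 := le_antisymm (not_lt.mp hcon) (N_nonneg _ _ _)
      rw [this, zero_mul] at a4
      have : 0 ≤ ‖ev (P * Q' - Q * P') (line l x t)‖ ^ 2 := by positivity
      linarith
    have a9 : rho (P * Q' - Q * P') P Q P' Q' (line l x t) =
        ‖ev (P * Q' - Q * P') (line l x t)‖ ^ 2 / (N P Q (line l x t) * N P' Q' x) := by
      unfold rho; rw [a2, ← a6]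
    have a10 : ‖α.eval (e t)‖ ^ 2 = N P Q (line l x t) * N P' Q' x *
        (1 - rho (P * Q' - Q * P') P Q P' Q' (line l x t)) := by
      rw [a9]
      have : N P Q (line l x t) * N P' Q' x ≠ 0 := (mul_pos a8 hN').ne'
      field_simp
      linarith
    have a11 : 0 < 1 - rho (P * Q' - Q * P') P Q P' Q' (line l x t) := by
      rw [a10] at a7
      exact (mul_pos_iff_of_pos_left (mul_pos a8 hN')).mp a7
    have a12 : 2 * log ‖α.eval (e t)‖ = log (‖α.eval (e t)‖ ^ 2) := by
      rw [Real.log_pow]; norm_num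
    rw [a12, a10, Real.log_mul (mul_pos a8 hN').ne' a11.ne', Real.log_mul a8.ne' hN'.ne']
    have := Real.log_le_sub_one_of_pos a11
    linarith
  have h3 : 2 * ∫ t : UnitAddCircle, log ‖α.eval (e t)‖ ≤
      (∫ t, (log (N P Q (line l x t)) - rho (P * Q' - Q * P') P Q P' Q' (line l x t))) +
        log (N P' Q' x) := by
    rw [← integral_const_mul]
    have : (∫ t, (log (N P Q (line l x t)) - rho (P * Q' - Q * P') P Q P' Q' (line l x t))) +
        log (N P' Q' x) = ∫ t, ((log (N P Q (line l x t)) -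
          rho (P * Q' - Q * P') P Q P' Q' (line l x t)) + log (N P' Q' x)) := by
      have hi12 : Integrable (fun t => log (N P Q (line l x t)) -
          rho (P * Q' - Q * P') P Q P' Q' (line l x t)) := hi1.sub hi2
      rw [integral_add hi12 (integrable_const _)]
      simp
    rw [this]
    apply integral_mono_ae ((integrable_log_norm_e α).const_mul 2)
      ((hi1.sub hi2).add (integrable_const _)) h2
  linarith

/-- the increment of the height when passing to initial forms. -/
theorem lemmaA (l : Fin k → ℤ) {P Q : Pol k} (hP : P ≠ 0) (hQ : Q ≠ 0)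
    (hW : P * ini (rl l) Q - Q * ini (rl l) P ≠ 0) :
    exp (-(H P Q) - H (ini (rl l) P) (ini (rl l) Q)) ≤
      H P Q - H (ini (rl l) P) (ini (rl l) Q) := by
  set P' := ini (rl l) P with hP'
  set Q' := ini (rl l) Q with hQ'
  have hP0 : P' ≠ 0 := ini_ne_zero _ hP
  have hQ0 : Q' ≠ 0 := ini_ne_zero _ hQ
  have i1 := integrable_logN hP Q
  have i2 := integrable_rho P Q P' Q'
  have i3 := integrable_logN hP0 Q'
  have step1 : H P' Q' ≤ H P Q - ∫ x, rho (P * Q' - Q * P') P Q P' Q' x := by
    have e1 : H P Q - ∫ x, rho (P * Q' - Q * P') P Q P' Q' x =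
        ∫ x, (log (N P Q x) - rho (P * Q' - Q * P') P Q P' Q' x) := by
      unfold H; rw [integral_sub i1 i2]
    have i12 : Integrable (fun x => log (N P Q x) - rho (P * Q' - Q * P') P Q P' Q' x) := i1.sub i2
    rw [e1, integral_line l i12]
    unfold H
    apply integral_mono_ae i3 (integrable_integral_line l i12)
    filter_upwards [ae_ev_ne_zero hP0, ae_integrable_line l i1, ae_integrable_line l i2]
      with x hx h1 h2
    exact inner_ineq l hP hQ x hx h1 h2
  have iW := (integrable_log_ev hW).const_mul 2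
  have step2 : exp (2 * mm (P * Q' - Q * P') - H P Q - H P' Q') ≤
      ∫ x, rho (P * Q' - Q * P') P Q P' Q' x := by
    set c := 2 * mm (P * Q' - Q * P') - H P Q - H P' Q' with hc
    have iu : Integrable fun x => (2 * log ‖ev (P * Q' - Q * P') x‖ - log (N P Q x)) -
        log (N P' Q' x) := (iW.sub i1).sub i3
    have iW1 : Integrable fun x => (2 * log ‖ev (P * Q' - Q * P') x‖ - log (N P Q x)) := iW.sub i1
    have e2 : ∫ x, exp c * (1 - c + ((2 * log ‖ev (P * Q' - Q * P') x‖ - log (N P Q x)) -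
        log (N P' Q' x))) = exp c := by
      rw [integral_const_mul, integral_add (integrable_const _) iu, integral_sub iW1 i3,
        integral_sub iW i1, integral_const_mul]
      have : (∫ x : Tor k, (1 - c)) = 1 - c := by simp
      rw [this]
      have : 2 * (∫ x : Tor k, log ‖ev (P * Q' - Q * P') x‖) - (∫ x : Tor k, log (N P Q x)) -
          (∫ x : Tor k, log (N P' Q' x)) = c := rfl
      rw [this]; ring
    rw [← e2]
    apply integral_mono_ae ((((integrable_const _).add iu)).const_mul _) i2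
    filter_upwards [ae_ev_ne_zero hW, ae_ev_ne_zero hP, ae_ev_ne_zero hP0] with x g1 g2 g3
    set u := (2 * log ‖ev (P * Q' - Q * P') x‖ - log (N P Q x)) - log (N P' Q' x) with hu
    have hWp := norm_pos_iff.mpr g1
    have hNp := N_pos Q g2
    have hNp' := N_pos Q' g3
    have e3 : rho (P * Q' - Q * P') P Q P' Q' x = exp u := by
      unfold rho
      have : u = log (‖ev (P * Q' - Q * P') x‖ ^ 2 / (N P Q x * N P' Q' x)) := by
        rw [Real.log_div (by positivity) (mul_pos hNp hNp').ne', Real.log_pow,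
          Real.log_mul hNp.ne' hNp'.ne', hu]
        push_cast; ring
      rw [this, Real.exp_log (div_pos (by positivity) (mul_pos hNp hNp'))]
    rw [e3]
    have h5 := Real.add_one_le_exp (u - c)
    calc exp c * (1 - c + u) = exp c * (u - c + 1) := by ring
      _ ≤ exp c * exp (u - c) := by
          apply mul_le_mul_of_nonneg_left h5 (Real.exp_pos _).le
      _ = exp u := by rw [← Real.exp_add]; congr 1; ring
  have h6 := mm_nonneg hW
  have h7 : exp (-(H P Q) - H P' Q') ≤ exp (2 * mm (P * Q' - Q * P') - H P Q - H P' Q') := by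
    apply Real.exp_le_exp.mpr; linarith
  linarith

end Pool.Agent.MP_44c6d5_nt
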