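import Mathlib
import Pool.Agent.MP_44c6d5_nt.Ent

namespace Pool.Agent.MP_44c6d5_nt

open MvPolynomial Filter Topology Module

variable {k : ℕ}

theorem lemmaA_real (y : Fin k → ℝ) {P Q : Pol k} (hP : P ≠ 0) (hQ : Q ≠ 0)
    (hW : P * ini y Q - Q * ini y P ≠ 0) {H0 : ℝ} (h0 : H P Q ≤ H0) :
    H (ini y P) (ini y Q) ≤ H0 ∧
      H (ini y P) (ini y Q) + Real.exp (-2 * H0) ≤ H P Q := by
  obtain ⟨l, h1, h2⟩ := exists_int_ini y hP hQ
  rw [← h1, ← h2] at hW ⊢
  have h3 := lemmaA l hP hQ hW
  have h4 := Real.exp_pos (-(H P Q) - H (ini (rl l) P) (ini (rl l) Q))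
  have h5 : H (ini (rl l) P) (ini (rl l) Q) ≤ H0 := by linarith
  refine ⟨h5, ?_⟩
  have h6 : Real.exp (-2 * H0) ≤ Real.exp (-(H P Q) - H (ini (rl l) P) (ini (rl l) Q)) := by
    apply Real.exp_le_exp.mpr; linarith
  linarith

/-- the linear form `u ↦ ∑ y_i u_i`. -/
noncomputable def dot (y : Fin k → ℝ) : (Fin k → ℝ) →ₗ[ℝ] ℝ := ∑ i, y i • LinearMap.proj i

theorem dot_apply (y u : Fin k → ℝ) : dot y u = ∑ i, y i * u i := by
  simp [dot, LinearMap.sum_apply]

theorem dot_self_nonneg (y : Fin k → ℝ) : 0 ≤ dot y y := by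
  rw [dot_apply]; exact Finset.sum_nonneg fun i _ => mul_self_nonneg _

theorem dot_self_pos {y : Fin k → ℝ} (hy : y ≠ 0) : 0 < dot y y := by
  rw [dot_apply]
  obtain ⟨i, hi⟩ := Function.ne_iff.mp hy
  apply Finset.sum_pos' (fun i _ => mul_self_nonneg _)
  exact ⟨i, Finset.mem_univ i, by
    have : y i ≠ 0 := hi
    exact mul_self_pos.mpr this⟩

theorem dot_comm (y u : Fin k → ℝ) : dot y u = dot u y := by
  rw [dot_apply, dot_apply]; apply Finset.sum_congr rfl; intro i _; ring

theorem finrank_inf_ge (s t : Submodule ℝ (Fin k → ℝ)) :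
    finrank ℝ s + finrank ℝ t ≤ finrank ℝ ↥(s ⊓ t) + k := by
  have h1 := Submodule.finrank_sup_add_finrank_inf_eq s t
  have h2 : finrank ℝ ↥(s ⊔ t) ≤ k := by
    have := Submodule.finrank_le (s ⊔ t)
    simpa using this
  omega

theorem finrank_ker_dot (y : Fin k → ℝ) : k ≤ finrank ℝ (LinearMap.ker (dot y)) + 1 := by
  have h1 := LinearMap.finrank_range_add_finrank_ker (dot y)
  have h2 : finrank ℝ (LinearMap.range (dot y)) ≤ 1 := by
    have := Submodule.finrank_le (LinearMap.range (dot y))
    simpa using this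
  have h3 : finrank ℝ (Fin k → ℝ) = k := by simp
  omega

/-- **Chain lemma, first part.** -/
theorem chain1 (H0 : ℝ) : ∀ (n : ℕ) (V : Submodule ℝ (Fin k → ℝ)), n ≤ finrank ℝ V →
    ∀ E B : Pol k, E ≠ 0 → B ≠ 0 → (∀ y ∈ V, y ≠ 0 → ord y B < ord y E) → H E B ≤ H0 →
      (n : ℝ) * Real.exp (-2 * H0) ≤ H E B := by
  intro n
  induction n with
  | zero =>
    intro V _ E B hE hB _ _
    simpa using H_nonneg hE B
  | succ n ih =>
    intro V hV E B hE hB hpos hH
    -- the compact sphere
    set K : Set (Fin k → ℝ) := {x | x ∈ V ∧ dot x x = 1} with hK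
    have hVne : V ≠ ⊥ := by
      rintro rfl
      rw [finrank_bot] at hV; omega
    obtain ⟨v, hv, hv0⟩ := Submodule.exists_mem_ne_zero_of_ne_bot hVne
    have hcontdot : Continuous fun x : Fin k → ℝ => dot x x := by
      simp only [dot_apply]; fun_prop
    have hKclosed : IsClosed K := by
      have h1 : IsClosed (V : Set (Fin k → ℝ)) := Submodule.closed_of_finiteDimensional V
      have h2 : IsClosed {x : Fin k → ℝ | dot x x = 1} := isClosed_eq hcontdot continuous_const
      exact h1.inter h2
    have hKbdd : K ⊆ Metric.closedBall 0 1 := by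
      intro x hx
      rw [mem_closedBall_zero_iff, pi_norm_le_iff_of_nonneg zero_le_one]
      intro i
      have h1 : dot x x = 1 := hx.2
      rw [dot_apply] at h1
      have h2 : x i * x i ≤ ∑ i, x i * x i :=
        Finset.single_le_sum (f := fun i => x i * x i) (fun i _ => mul_self_nonneg _)
          (Finset.mem_univ i)
      rw [Real.norm_eq_abs, abs_le]
      constructor <;> nlinarith
    have hKcomp : IsCompact K :=
      (isCompact_closedBall (0 : Fin k → ℝ) 1).of_isClosed_subset hKclosed hKbdd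
    have hnormalise : ∀ w ∈ V, w ≠ 0 → (Real.sqrt (dot w w))⁻¹ • w ∈ K := by
      intro w hw hw0
      refine ⟨V.smul_mem _ hw, ?_⟩
      have h1 := dot_self_pos hw0
      have h2 := Real.mul_self_sqrt h1.le
      have h3 := Real.sqrt_pos.mpr h1
      have h4 : dot ((Real.sqrt (dot w w))⁻¹ • w) ((Real.sqrt (dot w w))⁻¹ • w) =
          (Real.sqrt (dot w w))⁻¹ * (Real.sqrt (dot w w))⁻¹ * dot w w := by
        rw [dot_apply, dot_apply w w, Finset.mul_sum]
        apply Finset.sum_congr rfl
        intro i _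
        simp only [Pi.smul_apply, smul_eq_mul]; ring
      rw [h4]
      nth_rewrite 3 [← h2]
      field_simp
    have hKne : K.Nonempty := ⟨_, hnormalise v hv hv0⟩
    have hg : Continuous fun y : Fin k → ℝ => ord y E - ord y B :=
      (continuous_ord E).sub (continuous_ord B)
    obtain ⟨y, hyK, hymin⟩ := hKcomp.exists_isMinOn hKne hg.continuousOn
    rw [isMinOn_iff] at hymin
    have hyV : y ∈ V := hyK.1
    have hy1 : dot y y = 1 := hyK.2
    have hy0 : y ≠ 0 := by
      rintro rfl
      rw [map_zero] at hy1; exact zero_ne_one hy1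
    have hgy : 0 < ord y E - ord y B := by
      have := hpos y hyV hy0; linarith
    -- the numerator is non zero
    have hW : E * ini y B - B * ini y E ≠ 0 := by
      intro h
      have h1 : E * ini y B = B * ini y E := sub_eq_zero.mp h
      have h2 : ord (-y) (E * ini y B) = ord (-y) (B * ini y E) := by rw [h1]
      rw [ord_mul _ hE (ini_ne_zero y hB), ord_mul _ hB (ini_ne_zero y hE),
        ord_neg_of_mem_Lam (ini_ne_zero y hB) (mem_Lam_ini y B),
        ord_neg_of_mem_Lam (ini_ne_zero y hE) (mem_Lam_ini y E), ord_ini y hB, ord_ini y hE] at h2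
      have h3 := hpos (-y) (V.neg_mem hyV) (neg_ne_zero.mpr hy0)
      linarith
    obtain ⟨hA1, hA2⟩ := lemmaA_real y hE hB hW hH
    -- positivity persists
    have hV' : n ≤ finrank ℝ ↥(V ⊓ LinearMap.ker (dot y)) := by
      have h1 := finrank_inf_ge V (LinearMap.ker (dot y))
      have h2 := finrank_ker_dot y
      omega
    have hpos' : ∀ u ∈ V ⊓ LinearMap.ker (dot y), u ≠ 0 → ord u (ini y B) < ord u (ini y E) := by
      intro u hu hu0
      by_contra hcon
      push Not at hcon
      have huV : u ∈ V := hu.1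
      have hyu : dot y u = 0 := hu.2
      -- small multiple of u
      have hsmall : ∀ᶠ s : ℝ in 𝓝[>] 0, (ini (y + s • u) E = ini (s • u) (ini y E) ∧
          ord (y + s • u) E = ord y E + ord (s • u) (ini y E)) ∧
          (ini (y + s • u) B = ini (s • u) (ini y B) ∧
          ord (y + s • u) B = ord y B + ord (s • u) (ini y B)) := by
        have hc : Tendsto (fun s : ℝ => s • u) (𝓝[>] 0) (𝓝 0) := by
          have : Tendsto (fun s : ℝ => s • u) (𝓝 0) (𝓝 ((0 : ℝ) • u)) :=
            (continuous_id.smul continuous_const).tendsto 0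
          rw [zero_smul] at this
          exact this.mono_left nhdsWithin_le_nhds
        exact (hc.eventually (perturb y hE)).and (hc.eventually (perturb y hB))
      obtain ⟨s, ⟨⟨_, hsE⟩, ⟨_, hsB⟩⟩, hs0⟩ := (hsmall.and self_mem_nhdsWithin).exists
      have hs0 : 0 < s := hs0
      rw [ord_smul hs0] at hsE hsB
      have hle : ord (y + s • u) E - ord (y + s • u) B ≤ ord y E - ord y B := by
        rw [hsE, hsB]
        have : s * ord u (ini y E) ≤ s * ord u (ini y B) := mul_le_mul_of_nonneg_left hcon hs0.le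
        linarith
      have hdot : dot (y + s • u) (y + s • u) = 1 + s ^ 2 * dot u u := by
        rw [map_add, map_smul]
        rw [dot_comm (y + s • u) y, dot_comm (y + s • u) u, map_add, map_smul, map_add, map_smul,
          hy1, hyu, dot_comm u y, hyu]
        simp only [smul_eq_mul]; ring
      have huu := dot_self_pos hu0
      have hr1 : 1 < dot (y + s • u) (y + s • u) := by
        rw [hdot]; have : 0 < s ^ 2 * dot u u := by positivity
        linarith
      have hwV : y + s • u ∈ V := V.add_mem hyV (V.smul_mem s huV)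
      have hw0 : y + s • u ≠ 0 := by
        intro h; rw [h, map_zero] at hr1; linarith
      have hmin := hymin _ (hnormalise _ hwV hw0)
      have hrpos : 0 < (Real.sqrt (dot (y + s • u) (y + s • u)))⁻¹ := by
        apply inv_pos.mpr; apply Real.sqrt_pos.mpr; linarith
      rw [ord_smul hrpos, ord_smul hrpos, ← mul_sub] at hmin
      have hr2 : (Real.sqrt (dot (y + s • u) (y + s • u)))⁻¹ < 1 := by
        apply inv_lt_one_of_one_lt₀
        rw [Real.lt_sqrt zero_le_one]; simpa using hr1
      have hle2 : (Real.sqrt (dot (y + s • u) (y + s • u)))⁻¹ *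
          (ord (y + s • u) E - ord (y + s • u) B) ≤
          (Real.sqrt (dot (y + s • u) (y + s • u)))⁻¹ * (ord y E - ord y B) :=
        mul_le_mul_of_nonneg_left hle hrpos.le
      have : (Real.sqrt (dot (y + s • u) (y + s • u)))⁻¹ * (ord y E - ord y B) <
          1 * (ord y E - ord y B) := mul_lt_mul_of_pos_right hr2 hgy
      linarith
    have hfin := ih (V ⊓ LinearMap.ker (dot y)) hV' (ini y E) (ini y B) (ini_ne_zero y hE)
      (ini_ne_zero y hB) hpos' hA1
    push_cast
    linarith

end Pool.Agent.MP_44c6d5_nt
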