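import Mathlib
import Pool.Agent.MP_44c6d5_nt.Chain

namespace Pool.Agent.MP_44c6d5_nt

open MvPolynomial Filter Topology Module

variable {k : ℕ}

/-- the weights for which both `P` and `Q` are homogeneous -/
def LL (P Q : Pol k) : Submodule ℝ (Fin k → ℝ) := Lam P ⊓ Lam Q

theorem cancel_aux {P Q p q : Pol k} (hP : P ≠ 0) (hQ : Q ≠ 0)
    (hrel : IsRelPrime P Q) (h : P * q = Q * p) : ∃ r, p = P * r ∧ q = Q * r := by
  have h1 : P ∣ Q * p := ⟨q, h.symm⟩
  have h2 : P ∣ p := hrel.dvd_of_dvd_mul_left h1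
  obtain ⟨r, hr⟩ := h2
  refine ⟨r, hr, ?_⟩
  have h3 : P * q = P * (Q * r) := by rw [h, hr]; ring
  exact mul_left_cancel₀ hP h3

/-- reduced data at a weight `y`. -/
structure Red (P Q : Pol k) (y : Fin k → ℝ) (G p q : Pol k) : Prop where
  hG : G ≠ 0
  hp : p ≠ 0
  hq : q ≠ 0
  rel : IsRelPrime p q
  eP : ini y P = G * p
  eQ : ini y Q = G * q

theorem exists_red {P Q : Pol k} (hP : P ≠ 0) (hQ : Q ≠ 0) (y : Fin k → ℝ) :
    ∃ G p q, Red P Q y G p q := by
  obtain ⟨p, q, G, h1, h2, h3⟩ :=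
    UniqueFactorizationMonoid.exists_reduced_factors (ini y P) (ini_ne_zero y hP) (ini y Q)
  have hP' := ini_ne_zero y hP
  have hQ' := ini_ne_zero y hQ
  rw [← h2] at hP'
  rw [← h3] at hQ'
  exact ⟨G, p, q, left_ne_zero_of_mul hP', right_ne_zero_of_mul hP', right_ne_zero_of_mul hQ',
    h1, h2.symm, h3.symm⟩

theorem Red.mem {P Q : Pol k} {y : Fin k → ℝ} {G p q : Pol k} (r : Red P Q y G p q) :
    y ∈ LL p q := by
  have h1 := mem_Lam_ini y P
  have h2 := mem_Lam_ini y Q
  rw [r.eP, Lam_mul r.hG r.hp] at h1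
  rw [r.eQ, Lam_mul r.hG r.hq] at h2
  exact ⟨h1.2, h2.2⟩

theorem Red.le {P Q : Pol k} {y : Fin k → ℝ} {G p q : Pol k} (r : Red P Q y G p q) :
    LL P Q ≤ LL p q := by
  have h1 := Lam_le_Lam_ini y P
  have h2 := Lam_le_Lam_ini y Q
  rw [r.eP, Lam_mul r.hG r.hp] at h1
  rw [r.eQ, Lam_mul r.hG r.hq] at h2
  exact fun u hu => ⟨(h1 hu.1).2, (h2 hu.2).2⟩

theorem Red.ne {P Q : Pol k} (hP : P ≠ 0) (hQ : Q ≠ 0) (hrel : IsRelPrime P Q)
    {y : Fin k → ℝ} (hy : y ∉ LL P Q) {G p q : Pol k} (r : Red P Q y G p q) :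
    P * q - Q * p ≠ 0 := by
  intro h
  obtain ⟨s, h1, h2⟩ := cancel_aux hP hQ hrel (sub_eq_zero.mp h)
  have hs : s ≠ 0 := by
    rintro rfl
    exact r.hp (by rw [h1, mul_zero])
  have h3 := r.mem
  apply hy
  have h4 := h3.1
  have h5 := h3.2
  rw [h1, Lam_mul hP hs] at h4
  rw [h2, Lam_mul hQ hs] at h5
  exact ⟨h4.1, h5.1⟩

theorem Red.height {P Q : Pol k} (hP : P ≠ 0) (hQ : Q ≠ 0) (hrel : IsRelPrime P Q)
    {y : Fin k → ℝ} (hy : y ∉ LL P Q) {G p q : Pol k} (r : Red P Q y G p q)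
    {H0 : ℝ} (h0 : H P Q ≤ H0) :
    H p q ≤ H0 ∧ H p q + Real.exp (-2 * H0) ≤ H P Q := by
  have hW : P * ini y Q - Q * ini y P ≠ 0 := by
    rw [r.eP, r.eQ]
    have : P * (G * q) - Q * (G * p) = G * (P * q - Q * p) := by ring
    rw [this]
    exact mul_ne_zero r.hG (r.ne hP hQ hrel hy)
  have h1 := lemmaA_real y hP hQ hW h0
  rw [r.eP, r.eQ, H_mul r.hG r.hp] at h1
  have h2 := mm_nonneg r.hG
  constructor <;> linarith [h1.1, h1.2]

/-- the local step in the clopen argument -/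
theorem clopen_step {P Q p q : Pol k} (hP : P ≠ 0) (hQ : Q ≠ 0) (hp : p ≠ 0) (hq : q ≠ 0)
    (hrel : IsRelPrime p q)
    (hmin : ∀ v, v ∉ LL P Q → ∀ G' p' q', Red P Q v G' p' q' →
      finrank ℝ (LL p q) ≤ finrank ℝ (LL p' q'))
    {v : Fin k → ℝ} (hv : v ∉ LL P Q) :
    ∀ᶠ u in 𝓝 (0 : Fin k → ℝ), u ∈ LL p q →
      (q * ini (v + u) P = p * ini (v + u) Q ↔ q * ini v P = p * ini v Q) := by
  filter_upwards [perturb v hP, perturb v hQ] with u h1 h2 hu
  rw [h1.1, h2.1]
  have hup : ini u p = p := (ini_eq_self_iff hp).mpr hu.1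
  have huq : ini u q = q := (ini_eq_self_iff hq).mpr hu.2
  constructor
  · intro h
    obtain ⟨G', p', q', r⟩ := exists_red hP hQ v
    have hG'u := ini_ne_zero u r.hG
    have hp'u := ini_ne_zero u r.hp
    have hq'u := ini_ne_zero u r.hq
    rw [r.eP, r.eQ, ini_mul u r.hG r.hp, ini_mul u r.hG r.hq] at h
    have h3 : p * ini u q' = q * ini u p' := by
      have : ini u G' * (p * ini u q') = ini u G' * (q * ini u p') := by
        calc ini u G' * (p * ini u q') = p * (ini u G' * ini u q') := by ring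
          _ = q * (ini u G' * ini u p') := h.symm
          _ = ini u G' * (q * ini u p') := by ring
      exact mul_left_cancel₀ hG'u this
    obtain ⟨s, hs1, hs2⟩ := cancel_aux hp hq hrel h3
    have hs : s ≠ 0 := by
      rintro rfl
      exact hp'u (by rw [hs1, mul_zero])
    have hle : LL p' q' ≤ LL p q := by
      intro w hw
      have h4 := Lam_le_Lam_ini u p' hw.1
      have h5 := Lam_le_Lam_ini u q' hw.2
      rw [hs1, Lam_mul hp hs] at h4
      rw [hs2, Lam_mul hq hs] at h5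
      exact ⟨h4.1, h5.1⟩
    have heq : LL p' q' = LL p q :=
      Submodule.eq_of_le_of_finrank_le hle (hmin v hv G' p' q' r)
    have hu' : u ∈ LL p' q' := by rw [heq]; exact hu
    have hp'' : ini u p' = p' := (ini_eq_self_iff r.hp).mpr hu'.1
    have hq'' : ini u q' = q' := (ini_eq_self_iff r.hq).mpr hu'.2
    rw [hp'', hq''] at h3
    rw [r.eP, r.eQ]
    calc q * (G' * p') = G' * (q * p') := by ring
      _ = G' * (p * q') := by rw [h3]
      _ = p * (G' * q') := by ring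
  · intro h
    have h3 : ini u (q * ini v P) = ini u (p * ini v Q) := by rw [h]
    rw [ini_mul u hq (ini_ne_zero v hP), ini_mul u hp (ini_ne_zero v hQ), hup, huq] at h3
    exact h3

/-- the global clopen argument -/
theorem clopen {P Q p q : Pol k} (hP : P ≠ 0) (hQ : Q ≠ 0) (hp : p ≠ 0) (hq : q ≠ 0)
    (hrel : IsRelPrime p q)
    (hmin : ∀ v, v ∉ LL P Q → ∀ G' p' q', Red P Q v G' p' q' →
      finrank ℝ (LL p q) ≤ finrank ℝ (LL p' q'))
    (hle : LL P Q ≤ LL p q)
    (hcod : finrank ℝ (LL P Q) + 2 ≤ finrank ℝ (LL p q))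
    {y : Fin k → ℝ} (hy : y ∉ LL P Q) (hyV : y ∈ LL p q) (hy' : q * ini y P = p * ini y Q) :
    ∀ v ∈ LL p q, v ∉ LL P Q → q * ini v P = p * ini v Q := by
  classical
  intro v hv hv'
  set V := LL p q with hV
  set E : Submodule ℝ V := (LL P Q).comap V.subtype with hE
  have hEf : finrank ℝ E = finrank ℝ (LL P Q) :=
    (Submodule.comapSubtypeEquivOfLe hle).finrank_eq
  have hcodim : 1 < Module.rank ℝ (V ⧸ E) := by
    have h1 := Submodule.finrank_quotient_add_finrank E
    have h2 : 1 < finrank ℝ (V ⧸ E) := by omega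
    rw [← Module.finrank_eq_rank]
    exact_mod_cast h2
  have hconn := (isConnected_compl_of_one_lt_codim hcodim).isPreconnected
  let f : V → Bool := fun w => decide (q * ini (w : Fin k → ℝ) P = p * ini (w : Fin k → ℝ) Q)
  have hf : ContinuousOn f ((E : Set V)ᶜ) := by
    intro w hw
    have hw' : (w : Fin k → ℝ) ∉ LL P Q := hw
    apply ContinuousAt.continuousWithinAt
    have hev := clopen_step hP hQ hp hq hrel hmin hw'
    have hc : Tendsto (fun w' : V => (w' : Fin k → ℝ) - (w : Fin k → ℝ)) (𝓝 w) (𝓝 0) := by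
      have h1 : Continuous fun w' : V => (w' : Fin k → ℝ) - (w : Fin k → ℝ) :=
        continuous_subtype_val.sub continuous_const
      have h2 := h1.tendsto w
      rw [sub_self] at h2
      exact h2
    have h3 : ∀ᶠ w' : V in 𝓝 w, f w' = f w := by
      filter_upwards [hc.eventually hev] with w' h4
      have h5 := h4 (V.sub_mem w'.2 w.2)
      rw [add_sub_cancel] at h5
      simp only [f, decide_eq_decide]
      exact h5
    have h6 : f =ᶠ[𝓝 w] fun _ => f w := h3
    exact (continuousAt_const.congr h6.symm)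
  have hyE : (⟨y, hyV⟩ : V) ∈ ((E : Set V)ᶜ) := hy
  have hvE : (⟨v, hv⟩ : V) ∈ ((E : Set V)ᶜ) := hv'
  have h7 := hconn.constant hf hyE hvE
  simp only [f, decide_eq_decide] at h7
  exact h7.mp hy'

/-- positivity for `E = q P - p Q`, `B = p Q`. -/
theorem positivity_of_clopen {P Q p q : Pol k} (hP : P ≠ 0) (hQ : Q ≠ 0) (hp : p ≠ 0)
    (hq : q ≠ 0) (hE : q * P - p * Q ≠ 0) {v : Fin k → ℝ} (hv : v ∈ LL p q)
    (h : q * ini v P = p * ini v Q) : ord v (p * Q) < ord v (q * P - p * Q) := by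
  have hup : ini v p = p := (ini_eq_self_iff hp).mpr hv.1
  have huq : ini v q = q := (ini_eq_self_iff hq).mpr hv.2
  have h1 : ini v (q * P) = ini v (p * Q) := by
    rw [ini_mul v hq hP, ini_mul v hp hQ, hup, huq, h]
  have hqP := mul_ne_zero hq hP
  have hpQ := mul_ne_zero hp hQ
  have h2 : ord v (q * P) = ord v (p * Q) := by
    rw [← ord_ini v hqP, ← ord_ini v hpQ, h1]
  apply lt_ord hE
  intro j hj
  have hj' := MvPolynomial.mem_support_iff.mp hj
  rw [coeff_sub] at hj'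
  rcases lt_trichotomy (ord v (p * Q)) (wt v j) with h3 | h3 | h3
  · exact h3
  · exfalso
    apply hj'
    have h4 := congrArg (coeff j) h1
    rw [coeff_ini, coeff_ini, if_pos (by rw [h2, h3]), if_pos h3.symm] at h4
    rw [h4, sub_self]
  · exfalso
    apply hj'
    rw [coeff_eq_zero_of_lt h3, coeff_eq_zero_of_lt (by rw [h2]; exact h3), sub_self]

/-- **Main bound for coprime pairs.** -/
theorem pair_bound {H0 S : ℝ} (hS1 : 1 ≤ S)
    (hS2 : (2 * H0 + Real.log 3) * Real.exp (2 * (2 * H0 + Real.log 3)) ≤ S) :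
    ∀ (n : ℕ) (P Q : Pol k), P ≠ 0 → Q ≠ 0 → IsRelPrime P Q → k ≤ finrank ℝ (LL P Q) + n →
      H P Q ≤ H0 → ((k : ℝ) - finrank ℝ (LL P Q)) * Real.exp (-2 * H0) ≤ S * H P Q := by
  intro n
  induction n with
  | zero =>
    intro P Q hP hQ _ hk _
    have h1 : (k : ℝ) - finrank ℝ (LL P Q) ≤ 0 := by
      have : (k : ℝ) ≤ finrank ℝ (LL P Q) := by exact_mod_cast hk
      linarith
    have h2 := H_nonneg hP Q
    have h3 := Real.exp_pos (-2 * H0)
    have h4 : 0 ≤ S * H P Q := by positivity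
    nlinarith
  | succ n ih =>
    intro P Q hP hQ hrel hk h0
    by_cases htop : LL P Q = ⊤
    · have h1 : finrank ℝ (LL P Q) = k := by rw [htop, finrank_top]; simp
      rw [h1, sub_self, zero_mul]
      have h2 := H_nonneg hP Q
      positivity
    -- a good direction
    have hex : ∃ m : ℕ, ∃ y, y ∉ LL P Q ∧ ∃ G p q, Red P Q y G p q ∧ finrank ℝ (LL p q) = m := by
      have : ∃ y, y ∉ LL P Q := by
        by_contra hcon
        push Not at hcon
        exact htop (eq_top_iff.mpr fun y _ => hcon y)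
      obtain ⟨y, hy⟩ := this
      obtain ⟨G, p, q, r⟩ := exists_red hP hQ y
      exact ⟨_, y, hy, G, p, q, r, rfl⟩
    classical
    obtain ⟨y, hy, G, p, q, r, hm⟩ := Nat.find_spec hex
    have hmin : ∀ v, v ∉ LL P Q → ∀ G' p' q', Red P Q v G' p' q' →
        finrank ℝ (LL p q) ≤ finrank ℝ (LL p' q') := by
      intro v hv G' p' q' r'
      rw [hm]
      exact Nat.find_min' hex ⟨v, hv, G', p', q', r', rfl⟩
    have hle := r.le
    have hlt : finrank ℝ (LL P Q) < finrank ℝ (LL p q) := by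
      apply Submodule.finrank_lt_finrank_of_lt
      refine lt_of_le_of_ne hle ?_
      intro h
      apply hy
      rw [h]; exact r.mem
    obtain ⟨hH1, hH2⟩ := r.height hP hQ hrel hy h0
    have hIH := ih p q r.hp r.hq r.rel (by omega) hH1
    -- the cost of one step
    have hstep : (finrank ℝ (LL p q) : ℝ) - finrank ℝ (LL P Q) ≤ S := by
      by_cases hcod : finrank ℝ (LL P Q) + 2 ≤ finrank ℝ (LL p q)
      swap
      · have h1 : finrank ℝ (LL p q) ≤ finrank ℝ (LL P Q) + 1 := by omega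
        have h2 : (finrank ℝ (LL p q) : ℝ) ≤ finrank ℝ (LL P Q) + 1 := by exact_mod_cast h1
        linarith
      have hy' : q * ini y P = p * ini y Q := by rw [r.eP, r.eQ]; ring
      have hcl := clopen hP hQ r.hp r.hq r.rel hmin hle hcod hy r.mem hy'
      have hE : q * P - p * Q ≠ 0 := by
        have := r.ne hP hQ hrel hy
        rwa [mul_comm q P, mul_comm p Q]
      have hB : p * Q ≠ 0 := mul_ne_zero r.hp hQ
      obtain ⟨C, hC⟩ := Submodule.exists_isCompl (LL P Q)
      have hdim : finrank ℝ (LL p q) - finrank ℝ (LL P Q) ≤ finrank ℝ ↥(LL p q ⊓ C) := by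
        have h1 := finrank_inf_ge (LL p q) C
        have h2 := Submodule.finrank_add_eq_of_isCompl hC
        have h3 : finrank ℝ (Fin k → ℝ) = k := by simp
        omega
      have hpos : ∀ v ∈ LL p q ⊓ C, v ≠ 0 → ord v (p * Q) < ord v (q * P - p * Q) := by
        intro v hv hv0
        have hv' : v ∉ LL P Q := by
          intro h
          have h1 : v ∈ LL P Q ⊓ C := ⟨h, hv.2⟩
          rw [hC.inf_eq_bot] at h1
          exact hv0 h1
        exact positivity_of_clopen hP hQ r.hp r.hq hE hv.1 (hcl v hv.1 hv')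
      have hcombo := H_combo hP hQ r.hp r.hq
      have hH : H (q * P - p * Q) (p * Q) ≤ 2 * H0 + Real.log 3 := by linarith
      have h1 := chain1 (2 * H0 + Real.log 3) _ _ hdim _ _ hE hB hpos hH
      have h2 : ((finrank ℝ (LL p q) - finrank ℝ (LL P Q) : ℕ) : ℝ) =
          (finrank ℝ (LL p q) : ℝ) - finrank ℝ (LL P Q) := by
        rw [Nat.cast_sub hlt.le]
      rw [h2] at h1
      refine le_trans ?_ hS2
      have h3 : ((finrank ℝ (LL p q) : ℝ) - finrank ℝ (LL P Q)) *
          Real.exp (-2 * (2 * H0 + Real.log 3)) ≤ 2 * H0 + Real.log 3 := h1.trans hH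
      have h4 := Real.exp_pos (2 * (2 * H0 + Real.log 3))
      have h5 : Real.exp (-2 * (2 * H0 + Real.log 3)) * Real.exp (2 * (2 * H0 + Real.log 3)) = 1 := by
        rw [← Real.exp_add]; simp
      calc (finrank ℝ (LL p q) : ℝ) - finrank ℝ (LL P Q)
          = (((finrank ℝ (LL p q) : ℝ) - finrank ℝ (LL P Q)) *
            Real.exp (-2 * (2 * H0 + Real.log 3))) * Real.exp (2 * (2 * H0 + Real.log 3)) := by
            rw [mul_assoc, h5, mul_one]
        _ ≤ (2 * H0 + Real.log 3) * Real.exp (2 * (2 * H0 + Real.log 3)) :=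
            mul_le_mul_of_nonneg_right h3 h4.le
    have hexp := Real.exp_pos (-2 * H0)
    have h6 : ((k : ℝ) - finrank ℝ (LL P Q)) ≤ ((k : ℝ) - finrank ℝ (LL p q)) + S := by linarith
    calc ((k : ℝ) - finrank ℝ (LL P Q)) * Real.exp (-2 * H0)
        ≤ (((k : ℝ) - finrank ℝ (LL p q)) + S) * Real.exp (-2 * H0) :=
          mul_le_mul_of_nonneg_right h6 hexp.le
      _ = ((k : ℝ) - finrank ℝ (LL p q)) * Real.exp (-2 * H0) + S * Real.exp (-2 * H0) := by ring
      _ ≤ S * H p q + S * Real.exp (-2 * H0) := by linarith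
      _ = S * (H p q + Real.exp (-2 * H0)) := by ring
      _ ≤ S * H P Q := mul_le_mul_of_nonneg_left hH2 (by linarith)

/-- The number of independent directions of a coprime pair is bounded in terms of its height. -/
theorem pair_dim_bound {P Q : Pol k} (hP : P ≠ 0) (hQ : Q ≠ 0) (hrel : IsRelPrime P Q)
    {H0 : ℝ} (h0 : H P Q ≤ H0) :
    (k : ℝ) - finrank ℝ (LL P Q) ≤
      max 1 ((2 * H0 + Real.log 3) * Real.exp (2 * (2 * H0 + Real.log 3))) * H0 *
        Real.exp (2 * H0) := by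
  set S := max 1 ((2 * H0 + Real.log 3) * Real.exp (2 * (2 * H0 + Real.log 3))) with hS
  have h1 := pair_bound (k := k) (H0 := H0) (S := S) (le_max_left _ _) (le_max_right _ _) k P Q
    hP hQ hrel (by omega) h0
  have hS0 : 0 ≤ S := zero_le_one.trans (le_max_left _ _)
  have h2 : ((k : ℝ) - finrank ℝ (LL P Q)) * Real.exp (-2 * H0) ≤ S * H0 :=
    h1.trans (mul_le_mul_of_nonneg_left h0 hS0)
  have h5 : Real.exp (-2 * H0) * Real.exp (2 * H0) = 1 := by
    rw [← Real.exp_add]; simp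
  calc (k : ℝ) - finrank ℝ (LL P Q)
      = (((k : ℝ) - finrank ℝ (LL P Q)) * Real.exp (-2 * H0)) * Real.exp (2 * H0) := by
        rw [mul_assoc, h5, mul_one]
    _ ≤ S * H0 * Real.exp (2 * H0) := mul_le_mul_of_nonneg_right h2 (Real.exp_pos _).le

end Pool.Agent.MP_44c6d5_nt
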