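import Mathlib
import Pool.Agent.MP_44c6d5_nt.Pairs

namespace Pool.Agent.MP_44c6d5_nt

open MeasureTheory Real MvPolynomial Module

variable {k : ℕ}

theorem dg_apply (P : Pol k) (i : Fin k) : dg P i = degreeOf i P := rfl

theorem le_dg {P : Pol k} {j : Fin k →₀ ℕ} (hj : j ∈ P.support) : j ≤ dg P := fun i => by
  rw [dg_apply]; exact monomial_le_degreeOf i hj

theorem coeff_rev (P : Pol k) {j : Fin k →₀ ℕ} (hj : j ∈ P.support) :
    coeff (dg P - j) (rev P) = coeff j P := by
  classical
  unfold rev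
  rw [coeff_sum]
  simp only [coeff_monomial]
  rw [Finset.sum_eq_single j]
  · simp
  · intro i hi hij
    rw [if_neg]
    intro h
    apply hij
    have h1 : dg P - (dg P - i) = dg P - (dg P - j) := by rw [h]
    rwa [tsub_tsub_cancel_of_le (le_dg hi), tsub_tsub_cancel_of_le (le_dg hj)] at h1
  · intro h; exact absurd hj h

theorem mem_support_rev {P : Pol k} {j : Fin k →₀ ℕ} (hj : j ∈ (rev P).support) :
    ∃ i ∈ P.support, j = dg P - i := by
  classical
  by_contra hcon
  push Not at hcon
  apply MvPolynomial.mem_support_iff.mp hj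
  unfold rev
  rw [coeff_sum]
  apply Finset.sum_eq_zero
  intro i hi
  rw [coeff_monomial, if_neg]
  exact fun h => hcon i hi h.symm

theorem support_rev (P : Pol k) :
    (rev P).support = P.support.image (fun j => dg P - j) := by
  classical
  ext j
  rw [Finset.mem_image]
  constructor
  · intro h
    obtain ⟨i, hi, rfl⟩ := mem_support_rev h
    exact ⟨i, hi, rfl⟩
  · rintro ⟨i, hi, rfl⟩
    rw [MvPolynomial.mem_support_iff, coeff_rev P hi]
    exact MvPolynomial.mem_support_iff.mp hi

theorem rev_ne_zero {P : Pol k} (hP : P ≠ 0) : rev P ≠ 0 := by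
  obtain ⟨j, hj⟩ := supp_nonempty hP
  intro h
  have := coeff_rev P hj
  rw [h, coeff_zero] at this
  exact MvPolynomial.mem_support_iff.mp hj this.symm

theorem len_rev (P : Pol k) : len (rev P) = len P := by
  classical
  unfold len
  rw [support_rev, Finset.sum_image]
  · apply Finset.sum_congr rfl
    intro j hj
    rw [coeff_rev P hj]
  · intro i hi j hj h
    simp only at h
    have h1 : dg P - (dg P - i) = dg P - (dg P - j) := by rw [h]
    rwa [tsub_tsub_cancel_of_le (le_dg hi), tsub_tsub_cancel_of_le (le_dg hj)] at h1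

theorem mon_add (x : Tor k) (i j : Fin k →₀ ℕ) : mon x (i + j) = mon x i * mon x j := by
  unfold mon
  rw [← Finset.prod_mul_distrib]
  apply Finset.prod_congr rfl
  intro a _
  rw [Finsupp.add_apply, pow_add]

theorem norm_ev_rev (P : Pol k) (x : Tor k) : ‖ev (rev P) x‖ = ‖ev P x‖ := by
  classical
  have h1 : ev (rev P) x = mon x (dg P) * (starRingEnd ℂ) (ev P x) := by
    rw [ev_eq_sum, support_rev, Finset.sum_image, ev_eq_sum, map_sum, Finset.mul_sum]
    · apply Finset.sum_congr rfl
      intro j hj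
      rw [coeff_rev P hj, map_mul]
      have h2 : mon x (dg P) = mon x (dg P - j) * mon x j := by
        rw [← mon_add, tsub_add_cancel_of_le (le_dg hj)]
      have h3 : mon x j * (starRingEnd ℂ) (mon x j) = 1 := by
        rw [Complex.mul_conj, Complex.normSq_eq_norm_sq, norm_mon]; simp
      have h4 : (starRingEnd ℂ) ((coeff j P : ℤ) : ℂ) = ((coeff j P : ℤ) : ℂ) := by simp
      rw [h4, h2]
      calc ((coeff j P : ℤ) : ℂ) * mon x (dg P - j)
          = ((coeff j P : ℤ) : ℂ) * mon x (dg P - j) * (mon x j * (starRingEnd ℂ) (mon x j)) := by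
            rw [h3, mul_one]
        _ = _ := by ring
    · intro i hi j hj h
      simp only at h
      have h1 : dg P - (dg P - i) = dg P - (dg P - j) := by rw [h]
      rwa [tsub_tsub_cancel_of_le (le_dg hi), tsub_tsub_cancel_of_le (le_dg hj)] at h1
  rw [h1, norm_mul, norm_mon, one_mul]
  exact Complex.norm_conj _

theorem H_rev {P : Pol k} (hP : P ≠ 0) : H P (rev P) = 2 * mm P + log 2 := by
  unfold H mm
  have h1 : (fun x : Tor k => log (N P (rev P) x)) =ᵐ[volume]
      fun x => 2 * log ‖ev P x‖ + log 2 := by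
    filter_upwards [ae_ev_ne_zero hP] with x hx
    have h2 := norm_pos_iff.mpr hx
    have h3 : N P (rev P) x = ‖ev P x‖ ^ 2 * 2 := by
      unfold N; rw [norm_ev_rev]; ring
    rw [h3, Real.log_mul (by positivity) (by norm_num), Real.log_pow]
    norm_num
  rw [integral_congr_ae h1, integral_add ((integrable_log_ev hP).const_mul 2)
    (integrable_const _), integral_const_mul]
  simp

theorem Lam_le_rev (P : Pol k) : Lam P ≤ Lam (rev P) := by
  intro u hu j hj j' hj'
  obtain ⟨i, hi, rfl⟩ := mem_support_rev hj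
  obtain ⟨i', hi', rfl⟩ := mem_support_rev hj'
  have h1 : wt u (dg P - i) + wt u i = wt u (dg P) := by
    rw [← wt_add, tsub_add_cancel_of_le (le_dg hi)]
  have h2 : wt u (dg P - i') + wt u i' = wt u (dg P) := by
    rw [← wt_add, tsub_add_cancel_of_le (le_dg hi')]
  have h3 := hu i hi i' hi'
  linarith

theorem not_dvd_rev {P : Pol k} (hP : P ≠ 0) (h1 : rev P ≠ P) (h2 : rev P ≠ -P) : ¬ P ∣ rev P := by
  rintro ⟨R, hR⟩
  have hrev := rev_ne_zero hP
  have hR0 : R ≠ 0 := by
    rintro rfl
    rw [mul_zero] at hR; exact hrev hR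
  have hdeg : ∀ i, degreeOf i R = 0 := by
    intro i
    have h3 := degreeOf_mul_eq (n := i) hP hR0
    rw [← hR] at h3
    have h4 : degreeOf i (rev P) ≤ degreeOf i P := by
      rw [degreeOf_eq_sup]
      apply Finset.sup_le
      intro j hj
      obtain ⟨a, _, rfl⟩ := mem_support_rev hj
      rw [Finsupp.tsub_apply, dg_apply]
      exact Nat.sub_le _ _
    omega
  have hRC : R = C (coeff 0 R) := by
    ext j
    rw [coeff_C]
    split_ifs with h
    · rw [h]
    · by_contra hne
      apply h
      have hj := MvPolynomial.mem_support_iff.mpr hne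
      ext i
      have := monomial_le_degreeOf i hj
      rw [hdeg i] at this
      simp only [Finsupp.coe_zero, Pi.zero_apply]
      omega
  set c := coeff 0 R with hc
  have hc0 : c ≠ 0 := by
    intro h; rw [h, C_0] at hRC; exact hR0 hRC
  have hrevc : rev P = C c * P := by rw [hR, hRC]; ring
  have hlen : len (rev P) = |(c : ℝ)| * len P := by
    rw [hrevc]
    unfold len
    have hs : (C c * P).support = P.support := by
      ext j
      rw [MvPolynomial.mem_support_iff, MvPolynomial.mem_support_iff, coeff_C_mul]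
      constructor
      · intro h; exact right_ne_zero_of_mul h
      · intro h; exact mul_ne_zero hc0 h
    rw [hs, Finset.mul_sum]
    apply Finset.sum_congr rfl
    intro j _
    rw [coeff_C_mul]
    push_cast
    rw [abs_mul]
  rw [len_rev] at hlen
  have hl := one_le_len hP
  have hc1 : |(c : ℝ)| = 1 := by
    have : |(c : ℝ)| * len P = 1 * len P := by rw [← hlen, one_mul]
    exact mul_right_cancel₀ (by linarith) this
  have hc2 : |c| = 1 := by exact_mod_cast hc1
  rcases (abs_eq (by norm_num : (0 : ℤ) ≤ 1)).mp hc2 with h | h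
  · apply h1; rw [hrevc, h]; simp
  · apply h2; rw [hrevc, h]; simp

theorem ndim_add_le (P : Pol k) : ndim P + finrank ℝ (Lam P) ≤ k := by
  unfold ndim newton
  have h0 : vectorSpan ℝ (convexHull ℝ ((fun j : Fin k →₀ ℕ => fun i => (j i : ℝ)) ''
      (P.support : Set (Fin k →₀ ℕ)))) = vectorSpan ℝ ((fun j : Fin k →₀ ℕ => fun i => (j i : ℝ)) ''
      (P.support : Set (Fin k →₀ ℕ))) := by
    rw [← direction_affineSpan, affineSpan_convexHull, direction_affineSpan]
  rw [h0]
  set E : Set (Fin k → ℝ) := (fun j : Fin k →₀ ℕ => fun i => (j i : ℝ)) ''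
      (P.support : Set (Fin k →₀ ℕ)) with hE
  have hperp : ∀ v ∈ vectorSpan ℝ E, ∀ u ∈ Lam P, dot u v = 0 := by
    intro v hv u hu
    have hle : vectorSpan ℝ E ≤ LinearMap.ker (dot u) := by
      unfold vectorSpan
      rw [Submodule.span_le]
      intro w hw
      obtain ⟨a, ⟨j, hj, rfl⟩, b, ⟨j', hj', rfl⟩, rfl⟩ := hw
      rw [SetLike.mem_coe, LinearMap.mem_ker]
      have h1 : dot u (fun i => (j i : ℝ)) = wt u j := by rw [dot_apply]; rfl
      have h2 : dot u (fun i => (j' i : ℝ)) = wt u j' := by rw [dot_apply]; rfl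
      simp only [vsub_eq_sub, map_sub]
      rw [h1, h2, hu j hj j' hj', sub_self]
    exact hle hv
  have hdisj : vectorSpan ℝ E ⊓ Lam P = ⊥ := by
    rw [eq_bot_iff]
    intro v hv
    have h1 := hperp v hv.1 v hv.2
    rw [Submodule.mem_bot]
    by_contra h2
    exact absurd h1 (dot_self_pos h2).ne'
  have h1 := finrank_inf_ge (vectorSpan ℝ E) (Lam P)
  rw [hdisj, finrank_bot] at h1
  omega

theorem mm_mul {P Q : Pol k} (hP : P ≠ 0) (hQ : Q ≠ 0) : mm (P * Q) = mm P + mm Q := by
  unfold mm
  rw [← integral_add (integrable_log_ev hP) (integrable_log_ev hQ)]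
  apply integral_congr_ae
  filter_upwards [ae_ev_ne_zero hP, ae_ev_ne_zero hQ] with x h1 h2
  rw [ev_mul, norm_mul, Real.log_mul (norm_pos_iff.mpr h1).ne' (norm_pos_iff.mpr h2).ne']

theorem mm_ini_le (y : Fin k → ℝ) {P : Pol k} (hP : P ≠ 0) : mm (ini y P) ≤ mm P := by
  obtain ⟨l, h1, _⟩ := exists_int_ini y hP hP
  rw [← h1]
  have h2 := integrable_log_ev (ini_ne_zero (rl l) hP)
  unfold mm
  rw [integral_line l (integrable_log_ev hP)]
  apply integral_mono_ae h2 (integrable_integral_line l (integrable_log_ev hP))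
  filter_upwards [ae_ev_ne_zero (ini_ne_zero (rl l) hP)] with x hx
  rw [← coeff_zero_up l hP x] at hx ⊢
  have h3 := log_coeff_zero_le _ hx
  simp only [norm_ev_line]
  exact h3

theorem mm_dvd_le {P F : Pol k} (hF : F ≠ 0) (h : P ∣ F) : mm P ≤ mm F := by
  obtain ⟨R, rfl⟩ := h
  rw [mm_mul (left_ne_zero_of_mul hF) (right_ne_zero_of_mul hF)]
  have := mm_nonneg (right_ne_zero_of_mul hF)
  linarith

/-- the bound function -/
noncomputable def Phi (h : ℝ) : ℝ := 9 * h * (2 * h + log 3) * exp (6 * h)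

/-- **General bound.** -/
theorem ndim_le {P Q : Pol k} (hP : Irreducible P) (hQ : Q ≠ 0) (hPQ : ¬ P ∣ Q) {h : ℝ}
    (hH : H P Q ≤ h) : (ndim P : ℝ) ≤ Phi h := by
  have hrel : IsRelPrime P Q := (hP.isRelPrime_iff_not_dvd).mpr hPQ
  have h1 := pair_dim_bound hP.ne_zero hQ hrel hH
  have h0 : 0 ≤ h := (H_nonneg hP.ne_zero Q).trans hH
  have h2 : finrank ℝ (LL P Q) ≤ finrank ℝ (Lam P) := Submodule.finrank_mono inf_le_left
  have h3 := ndim_add_le P
  have h4 : (ndim P : ℝ) + finrank ℝ (LL P Q) ≤ k := by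
    have : ndim P + finrank ℝ (LL P Q) ≤ k := by omega
    exact_mod_cast this
  have h5 : exp (2 * (2 * h + log 3)) = 9 * exp (4 * h) := by
    have : 2 * (2 * h + log 3) = log 3 + log 3 + 4 * h := by ring
    rw [this, Real.exp_add, Real.exp_add, Real.exp_log (by norm_num)]
    norm_num
  have h6 : 1 ≤ (2 * h + log 3) * exp (2 * (2 * h + log 3)) := by
    rw [h5]
    have h7 : 1 ≤ exp (4 * h) := Real.one_le_exp (by positivity)
    have h8 : 1 ≤ log 3 := by
      rw [Real.le_log_iff_exp_le (by norm_num)]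
      exact Real.exp_one_lt_three.le
    nlinarith
  rw [max_eq_right h6, h5] at h1
  have h9 : (2 * h + log 3) * (9 * exp (4 * h)) * h * exp (2 * h) = Phi h := by
    unfold Phi
    have : exp (6 * h) = exp (4 * h) * exp (2 * h) := by rw [← Real.exp_add]; congr 1; ring
    rw [this]; ring
  rw [h9] at h1
  linarith

end Pool.Agent.MP_44c6d5_nt
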