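import Mathlib
import Pool.Agent.MP_44c6d5_nt.Ent

namespace Pool.Agent.MP_44c6d5_nt

open MeasureTheory Real

/-- distance from a point of the unit circle to a non negative real -/
theorem two_abs_le (s : ℝ) (hs : |s| ≤ 1 / 2) (r : ℝ) :
    2 * |s| ≤ ‖e (s : UnitAddCircle) - (|r| : ℝ)‖ := by
  have hr : 0 ≤ |r| := abs_nonneg r
  generalize |r| = ρ at hr
  have h1 : e (s : UnitAddCircle) = (cos (2 * π * s) : ℂ) + (sin (2 * π * s) : ℂ) * Complex.I := by
    rw [e_coe, circleMap]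
    simp only [Complex.ofReal_one, one_mul, zero_add]
    rw [Complex.exp_mul_I]
    push_cast; rfl
  have h2 : ‖e (s : UnitAddCircle) - (ρ : ℝ)‖ ^ 2 =
      (cos (2 * π * s) - ρ) ^ 2 + sin (2 * π * s) ^ 2 := by
    rw [h1, Complex.sq_norm, Complex.normSq_apply]
    simp only [Complex.sub_re, Complex.add_re, Complex.mul_re, Complex.sub_im, Complex.add_im,
      Complex.mul_im, Complex.I_re, Complex.I_im, Complex.ofReal_re, Complex.ofReal_im]
    ring
  have h3 : (2 * |s|) ^ 2 ≤ ‖e (s : UnitAddCircle) - (ρ : ℝ)‖ ^ 2 := by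
    rw [h2]
    have hcs := Real.sin_sq_add_cos_sq (2 * π * s)
    rcases le_or_gt (cos (2 * π * s)) 0 with hc | hc
    · have : (2 * |s|) ^ 2 ≤ 1 := by
        have := abs_nonneg s
        nlinarith
      nlinarith
    · have h4 : |s| ≤ 1 / 4 := by
        by_contra hcon
        push Not at hcon
        have h5 : cos (2 * π * s) = cos (2 * π * |s|) := by
          rcases abs_cases s with ⟨h, _⟩ | ⟨h, _⟩
          · rw [h]
          · rw [h, mul_neg, Real.cos_neg]
        rw [h5] at hc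
        have := Real.cos_nonpos_of_pi_div_two_le_of_le (x := 2 * π * |s|)
          (by nlinarith [Real.pi_pos]) (by nlinarith [Real.pi_pos])
        linarith
      have h6 : 2 / π * (2 * π * |s|) ≤ sin (2 * π * |s|) :=
        Real.mul_le_sin (by positivity) (by nlinarith [Real.pi_pos])
      have h7 : 2 / π * (2 * π * |s|) = 4 * |s| := by
        field_simp; ring
      rw [h7] at h6
      have h8 : sin (2 * π * s) ^ 2 = sin (2 * π * |s|) ^ 2 := by
        rcases abs_cases s with ⟨h, _⟩ | ⟨h, _⟩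
        · rw [h]
        · rw [h, mul_neg, Real.sin_neg]; ring
      rw [h8]
      have h9 := abs_nonneg s
      nlinarith [sq_nonneg (cos (2 * π * s) - ρ)]
  exact (pow_le_pow_iff_left₀ (by positivity) (norm_nonneg _) (by norm_num)).mp h3

theorem exists_rep (t : UnitAddCircle) : ∃ s : ℝ, |s| ≤ 1 / 2 ∧ (s : UnitAddCircle) = t ∧ ‖t‖ = |s| := by
  obtain ⟨s, hs, hst⟩ : ∃ s ∈ Set.Ico (-(1 / 2) : ℝ) (-(1 / 2) + 1), (s : UnitAddCircle) = t := by
    have h := (AddCircle.coe_image_Ico_eq (1 : ℝ) (-(1 / 2)))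
    have h2 : t ∈ (fun x : ℝ => (x : AddCircle (1 : ℝ))) '' Set.Ico (-(1 / 2) : ℝ) (-(1 / 2) + 1) := by
      rw [h]; trivial
    obtain ⟨s, hs, hst⟩ := h2
    exact ⟨s, hs, hst⟩
  have h1 : |s| ≤ 1 / 2 := by
    rw [abs_le]
    constructor
    · exact hs.1
    · have := hs.2; linarith
  refine ⟨s, h1, hst, ?_⟩
  rw [← hst]
  exact (AddCircle.norm_coe_eq_abs_iff _ one_ne_zero).mpr (by rw [abs_one]; exact h1)

theorem two_norm_le (t : UnitAddCircle) (r : ℝ) : 2 * ‖t‖ ≤ ‖e t - (|r| : ℝ)‖ := by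
  obtain ⟨s, h1, h2, h3⟩ := exists_rep t
  rw [h3, ← h2]
  exact two_abs_le s h1 r

/-- every complex number is a non negative multiple of a point on the circle -/
theorem exists_phase (w : ℂ) : ∃ φ : UnitAddCircle, w = e φ * (|‖w‖| : ℝ) := by
  rcases eq_or_ne w 0 with rfl | hw
  · exact ⟨0, by simp⟩
  · have h1 : 0 < ‖w‖ := norm_pos_iff.mpr hw
    refine ⟨((Complex.arg w / (2 * π) : ℝ) : UnitAddCircle), ?_⟩
    rw [e_coe, circleMap]
    have h2 : (2 * π * (Complex.arg w / (2 * π))) = Complex.arg w := by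
      field_simp
    rw [h2, abs_of_pos h1]
    have h3 := Complex.norm_mul_exp_arg_mul_I w
    simp only [zero_add, Complex.ofReal_one, one_mul]
    rw [mul_comm]; exact h3.symm

theorem norm_e_sub_ge (w : ℂ) :
    ∃ φ : UnitAddCircle, ∀ t : UnitAddCircle, 2 * ‖t - φ‖ ≤ ‖e t - w‖ := by
  obtain ⟨φ, hφ⟩ := exists_phase w
  refine ⟨φ, fun t => ?_⟩
  have h1 : e t - w = e φ * (e (t - φ) - (|‖w‖| : ℝ)) := by
    have h2 : e t = e φ * e (t - φ) := by rw [← e_add]; congr 1; abel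
    rw [mul_sub, ← h2, ← hφ]
  rw [h1, norm_mul, norm_e, one_mul]
  exact two_norm_le _ _

/-- the dominating function -/
theorem dom_integrable :
    Integrable (fun t : UnitAddCircle => (2 * ‖t‖) ^ (-(1 / 2) : ℝ)) ∧
      ∫ t : UnitAddCircle, (2 * ‖t‖) ^ (-(1 / 2) : ℝ) = 2 := by
  have hmeas : Measurable (fun t : UnitAddCircle => (2 * ‖t‖) ^ (-(1 / 2) : ℝ)) :=
    (measurable_norm.const_mul 2).pow_const _
  have hii : ∀ a b : ℝ, IntervalIntegrable (fun s : ℝ => (2 * s) ^ (-(1 / 2) : ℝ)) volume a b := by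
    intro a b
    have := (intervalIntegral.intervalIntegrable_rpow' (a := 2 * a) (b := 2 * b)
      (r := (-(1 / 2) : ℝ)) (by norm_num)).comp_mul_left (c := 2)
    simpa using this
  have hpos : IntervalIntegrable (fun s : ℝ => (2 * |s|) ^ (-(1 / 2) : ℝ)) volume 0 (1 / 2) := by
    refine (hii 0 (1 / 2)).congr ?_
    intro s hs
    rw [Set.uIoc_of_le (by norm_num)] at hs
    simp only
    rw [abs_of_pos hs.1]
  have hneg : IntervalIntegrable (fun s : ℝ => (2 * |s|) ^ (-(1 / 2) : ℝ)) volume (-(1 / 2)) 0 := by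
    have h := hpos.comp_mul_left (c := -1)
    simp only [neg_mul, one_mul, abs_neg, div_neg, div_one] at h
    rw [neg_zero] at h
    exact h.symm
  have hval : ∫ s in (0 : ℝ)..(1 / 2), (2 * |s|) ^ (-(1 / 2) : ℝ) = 1 := by
    have h1 : ∫ s in (0 : ℝ)..(1 / 2), (2 * |s|) ^ (-(1 / 2) : ℝ) =
        ∫ s in (0 : ℝ)..(1 / 2), (2 * s) ^ (-(1 / 2) : ℝ) := by
      apply intervalIntegral.integral_congr
      intro s hs
      rw [Set.uIcc_of_le (by norm_num)] at hs
      simp only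
      rw [abs_of_nonneg hs.1]
    rw [h1, intervalIntegral.integral_comp_mul_left (fun s => s ^ (-(1 / 2) : ℝ)) (by norm_num),
      integral_rpow (Or.inl (by norm_num))]
    norm_num
  have hval' : ∫ s in (-(1 / 2) : ℝ)..0, (2 * |s|) ^ (-(1 / 2) : ℝ) = 1 := by
    have h1 := intervalIntegral.integral_comp_neg (a := 0) (b := 1 / 2)
      (fun s : ℝ => (2 * |s|) ^ (-(1 / 2) : ℝ))
    simp only [abs_neg, neg_zero] at h1
    rw [← h1]; exact hval
  have hcoe : ∀ s ∈ Set.Ioc (-(1 / 2) : ℝ) (-(1 / 2) + 1),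
      (2 * ‖(s : UnitAddCircle)‖) ^ (-(1 / 2) : ℝ) = (2 * |s|) ^ (-(1 / 2) : ℝ) := by
    intro s hs
    have h1 : |s| ≤ 1 / 2 := by
      rw [abs_le]
      constructor
      · exact hs.1.le
      · have := hs.2; linarith
    rw [(AddCircle.norm_coe_eq_abs_iff _ one_ne_zero).mpr (by rw [abs_one]; exact h1)]
  have hall : IntervalIntegrable (fun s : ℝ => (2 * |s|) ^ (-(1 / 2) : ℝ)) volume
      (-(1 / 2)) (1 / 2) := hneg.trans hpos
  constructor
  · rw [← (AddCircle.measurePreserving_mk 1 (-(1 / 2))).integrable_comp hmeas.aestronglyMeasurable]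
    have h1 := hall
    rw [intervalIntegrable_iff_integrableOn_Ioc_of_le (by norm_num)] at h1
    have h2 : (-(1 / 2) + 1 : ℝ) = 1 / 2 := by norm_num
    have h3 : IntegrableOn (fun s : ℝ => (2 * ‖(s : UnitAddCircle)‖) ^ (-(1 / 2) : ℝ))
        (Set.Ioc (-(1 / 2)) (-(1 / 2) + 1)) := by
      rw [integrableOn_congr_fun hcoe measurableSet_Ioc, h2]
      exact h1
    exact h3
  · rw [← AddCircle.intervalIntegral_preimage 1 (-(1 / 2))
      (fun t : UnitAddCircle => (2 * ‖t‖) ^ (-(1 / 2) : ℝ))]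
    rw [intervalIntegral.integral_of_le (by norm_num), setIntegral_congr_fun measurableSet_Ioc hcoe,
      ← intervalIntegral.integral_of_le (by norm_num)]
    have h2 : (-(1 / 2) + 1 : ℝ) = 1 / 2 := by norm_num
    rw [h2, ← intervalIntegral.integral_add_adjacent_intervals hneg hpos, hval, hval']
    norm_num

theorem integral_inv_sqrt (w : ℂ) :
    Integrable (fun t : UnitAddCircle => ‖e t - w‖ ^ (-(1 / 2) : ℝ)) ∧
      ∫ t : UnitAddCircle, ‖e t - w‖ ^ (-(1 / 2) : ℝ) ≤ 2 := by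
  obtain ⟨φ, hφ⟩ := norm_e_sub_ge w
  obtain ⟨h1, h2⟩ := dom_integrable
  have h3 : Integrable (fun t : UnitAddCircle => (2 * ‖t - φ‖) ^ (-(1 / 2) : ℝ)) :=
    h1.comp_sub_right φ
  have h4 : ∫ t : UnitAddCircle, (2 * ‖t - φ‖) ^ (-(1 / 2) : ℝ) = 2 := by
    have := integral_sub_right_eq_self (μ := (volume : Measure UnitAddCircle))
      (fun t : UnitAddCircle => (2 * ‖t‖) ^ (-(1 / 2) : ℝ)) φ
    rw [this, h2]
  have hmeas : Measurable (fun t : UnitAddCircle => ‖e t - w‖ ^ (-(1 / 2) : ℝ)) :=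
    ((continuous_e.sub continuous_const).norm.measurable).pow_const _
  have hle : ∀ᵐ t : UnitAddCircle, ‖e t - w‖ ^ (-(1 / 2) : ℝ) ≤ (2 * ‖t - φ‖) ^ (-(1 / 2) : ℝ) := by
    have hne : ∀ᵐ t : UnitAddCircle, t ≠ φ := by
      rw [ae_iff]; simp
    filter_upwards [hne] with t ht
    have h5 : 0 < 2 * ‖t - φ‖ := by
      have := norm_pos_iff.mpr (sub_ne_zero.mpr ht)
      positivity
    exact Real.rpow_le_rpow_of_nonpos h5 (hφ t) (by norm_num)
  have hint : Integrable (fun t : UnitAddCircle => ‖e t - w‖ ^ (-(1 / 2) : ℝ)) := by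
    refine Integrable.mono' h3 hmeas.aestronglyMeasurable ?_
    filter_upwards [hle] with t ht
    rw [Real.norm_eq_abs, abs_of_nonneg (Real.rpow_nonneg (norm_nonneg _) _)]
    exact ht
  refine ⟨hint, ?_⟩
  have := integral_mono_ae hint h3 hle
  rw [h4] at this
  exact this

end Pool.Agent.MP_44c6d5_nt
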