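import Mathlib
import Pool.Agent.MP_44c6d5_nt.Deriv

namespace Pool.Agent.MP_44c6d5_nt

open MeasureTheory Real MvPolynomial

variable {k : ℕ}

theorem multiset_sq_le (m : Multiset ℂ) (f : ℂ → ℝ) (hf : ∀ w, 0 ≤ f w) :
    0 ≤ (m.map f).sum ∧ (m.map (fun w => f w ^ 2)).sum ≤ ((m.map f).sum) ^ 2 := by
  induction m using Multiset.induction_on with
  | empty => simp
  | cons a s ih =>
    obtain ⟨h1, h2⟩ := ih
    simp only [Multiset.map_cons, Multiset.sum_cons]
    have h3 := hf a
    constructor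
    · linarith
    · nlinarith [mul_nonneg h3 h1]

theorem multiset_norm_sum_le (m : Multiset ℂ) (f : ℂ → ℂ) :
    ‖(m.map f).sum‖ ≤ (m.map (fun w => ‖f w‖)).sum := by
  induction m using Multiset.induction_on with
  | empty => simp
  | cons a s ih =>
    simp only [Multiset.map_cons, Multiset.sum_cons]
    exact (norm_add_le _ _).trans (by linarith)

/-- pointwise bound for the pair `(g, g')`. -/
theorem log_pair_le {g : Polynomial ℂ} {z : ℂ} (hg : g.eval z ≠ 0) :
    log (‖g.eval z‖ ^ 2 + ‖g.derivative.eval z‖ ^ 2) ≤ 2 * log ‖g.eval z‖ +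
      4 * log (1 + (g.roots.map (fun w => ‖z - w‖ ^ (-(1 / 2) : ℝ))).sum) := by
  have hsp : g.Splits := IsAlgClosed.splits g
  have h1 := hsp.eval_derivative_eq_eval_mul_sum hg
  set R : ℝ := (g.roots.map (fun w => ‖z - w‖⁻¹)).sum with hR
  set Y : ℝ := (g.roots.map (fun w => ‖z - w‖ ^ (-(1 / 2) : ℝ))).sum with hY
  have h2 : ‖g.derivative.eval z‖ ≤ ‖g.eval z‖ * R := by
    rw [h1, norm_mul]
    apply mul_le_mul_of_nonneg_left _ (norm_nonneg _)
    refine (multiset_norm_sum_le _ _).trans (le_of_eq ?_)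
    rw [hR]; simp
  have hYY := multiset_sq_le g.roots (fun w => ‖z - w‖ ^ (-(1 / 2) : ℝ))
    (fun w => Real.rpow_nonneg (norm_nonneg _) _)
  have hsq : ∀ w : ℂ, (‖z - w‖ ^ (-(1 / 2) : ℝ)) ^ 2 = ‖z - w‖⁻¹ := by
    intro w
    rw [← Real.rpow_natCast, ← Real.rpow_mul (norm_nonneg _)]
    norm_num
    rw [Real.rpow_neg_one]
  simp only [hsq] at hYY
  rw [← hR, ← hY] at hYY
  obtain ⟨hY0, hRY⟩ := hYY
  have hR0 : 0 ≤ R := by
    rw [hR]
    apply Multiset.sum_nonneg
    intro x hx
    obtain ⟨w, _, rfl⟩ := Multiset.mem_map.mp hx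
    positivity
  have hgp := norm_pos_iff.mpr hg
  have h3 : ‖g.eval z‖ ^ 2 + ‖g.derivative.eval z‖ ^ 2 ≤ ‖g.eval z‖ ^ 2 * (1 + Y) ^ 4 := by
    have h4 : ‖g.derivative.eval z‖ ^ 2 ≤ (‖g.eval z‖ * R) ^ 2 :=
      pow_le_pow_left₀ (norm_nonneg _) h2 2
    have h5 : 1 + R ^ 2 ≤ (1 + Y) ^ 4 := by
      have h6 : 1 + R ≤ (1 + Y) ^ 2 := by nlinarith
      have h7 : (1 + R) ^ 2 ≤ ((1 + Y) ^ 2) ^ 2 := pow_le_pow_left₀ (by linarith) h6 2
      nlinarith
    calc ‖g.eval z‖ ^ 2 + ‖g.derivative.eval z‖ ^ 2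
        ≤ ‖g.eval z‖ ^ 2 * (1 + R ^ 2) := by rw [mul_add, mul_one, ← mul_pow]; linarith
      _ ≤ ‖g.eval z‖ ^ 2 * (1 + Y) ^ 4 := mul_le_mul_of_nonneg_left h5 (by positivity)
  calc log (‖g.eval z‖ ^ 2 + ‖g.derivative.eval z‖ ^ 2)
      ≤ log (‖g.eval z‖ ^ 2 * (1 + Y) ^ 4) := Real.log_le_log (by positivity) h3
    _ = 2 * log ‖g.eval z‖ + 4 * log (1 + Y) := by
        rw [Real.log_mul (by positivity) (by positivity), Real.log_pow, Real.log_pow]
        push_cast; ring

theorem integral_sum_inv_sqrt (m : Multiset ℂ) :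
    Integrable (fun t : UnitAddCircle => (m.map (fun w => ‖e t - w‖ ^ (-(1 / 2) : ℝ))).sum) ∧
      ∫ t : UnitAddCircle, (m.map (fun w => ‖e t - w‖ ^ (-(1 / 2) : ℝ))).sum ≤
        2 * Multiset.card m := by
  induction m using Multiset.induction_on with
  | empty => simp
  | cons a s ih =>
    obtain ⟨h1, h2⟩ := ih
    obtain ⟨h3, h4⟩ := integral_inv_sqrt a
    simp only [Multiset.map_cons, Multiset.sum_cons, Multiset.card_cons]
    refine ⟨h3.add h1, ?_⟩
    rw [integral_add h3 h1]
    push_cast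
    linarith

theorem mp_zsmul {M : ℕ} (hM : 0 < M) :
    MeasurePreserving (fun t : UnitAddCircle => (M : ℤ) • t) volume volume :=
  Measure.measurePreserving_zsmul volume (by exact_mod_cast hM.ne')

theorem integrable_comp_zsmul {M : ℕ} (hM : 0 < M) {Y : UnitAddCircle → ℝ} (hY : Integrable Y) :
    Integrable (fun t => Y ((M : ℤ) • t)) :=
  (mp_zsmul hM).integrable_comp_of_integrable hY

theorem integral_comp_zsmul {M : ℕ} (hM : 0 < M) {Y : UnitAddCircle → ℝ} (hY : Integrable Y) :
    ∫ t, Y ((M : ℤ) • t) = ∫ t, Y t := by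
  have h6 := integral_map (μ := (volume : Measure UnitAddCircle))
    (mp_zsmul hM).measurable.aemeasurable (f := Y)
    (by rw [(mp_zsmul hM).map_eq]; exact hY.aestronglyMeasurable)
  rw [(mp_zsmul hM).map_eq] at h6
  exact h6.symm

/-- the weighted derivative with multipliers `n`. -/
noncomputable def wd (n : (Fin k →₀ ℕ) → ℕ) (P : Pol k) : Pol k :=
  ∑ j ∈ P.support, monomial j ((n j : ℤ) * coeff j P)

theorem coeff_wd (n : (Fin k →₀ ℕ) → ℕ) (P : Pol k) (j : Fin k →₀ ℕ) :
    coeff j (wd n P) = (n j : ℤ) * coeff j P := by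
  classical
  unfold wd
  rw [coeff_sum]
  simp only [coeff_monomial]
  rw [Finset.sum_ite_eq']
  split_ifs with h
  · rfl
  · have : coeff j P = 0 := by simpa using h
    rw [this, mul_zero]

theorem ev_wd (n : (Fin k →₀ ℕ) → ℕ) (P : Pol k) (x : Tor k) :
    ev (wd n P) x = ∑ j ∈ P.support, ((n j : ℕ) : ℂ) * ((coeff j P : ℤ) : ℂ) * mon x j := by
  rw [ev_eq_sum]
  have hsub : (wd n P).support ⊆ P.support := by
    intro j hj
    rw [MvPolynomial.mem_support_iff, coeff_wd] at hj
    rw [MvPolynomial.mem_support_iff]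
    exact right_ne_zero_of_mul hj
  rw [Finset.sum_subset hsub]
  · apply Finset.sum_congr rfl
    intro j _
    rw [coeff_wd]; push_cast; ring
  · intro j _ hj
    have : coeff j (wd n P) = 0 := by simpa using hj
    rw [this]; simp

/-- **Height of the pair `(F, wd n F)`.** -/
theorem H_wd_le {F : Pol k} (hF : F ≠ 0) (n : (Fin k →₀ ℕ) → ℕ) {D M : ℕ} (hM : 0 < M)
    (l : Fin k → ℤ) (hn : ∀ j ∈ F.support, wtZ l j = ordZ l F + M * n j)
    (hD : ∀ j ∈ F.support, n j ≤ D) :
    H F (wd n F) ≤ 2 * mm F + 4 * log (1 + 2 * D) := by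
  have i1 := integrable_logN hF (wd n F)
  have i0 := integrable_log_ev hF
  have hA : (0 : ℝ) < 1 + 2 * D := by positivity
  have hini : ini (rl l) F ≠ 0 := ini_ne_zero _ hF
  have key : ∀ᵐ x : Tor k, ∫ t, log (N F (wd n F) (line l x t)) ≤
      (∫ t, (2 * log ‖ev F (line l x t)‖)) + 4 * log (1 + 2 * D) := by
    filter_upwards [ae_ev_ne_zero hini, ae_integrable_line l i1, ae_integrable_line l i0]
      with x hx h1 h2
    set g : Polynomial ℂ := ∑ j ∈ F.support, Polynomial.C (((coeff j F : ℤ) : ℂ) * mon x j) *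
      Polynomial.X ^ (n j) with hg
    have hdeg : g.natDegree ≤ D := by
      rw [hg]
      apply Polynomial.natDegree_sum_le_of_forall_le
      intro j hj
      exact (Polynomial.natDegree_C_mul_X_pow_le _ _).trans (hD j hj)
    -- values on the line
    have hzp : ∀ (t : UnitAddCircle) (j : Fin k →₀ ℕ), j ∈ F.support →
        e t ^ (wtZ l j) = e t ^ (ordZ l F) * (e ((M : ℤ) • t)) ^ (n j) := by
      intro t j hj
      rw [hn j hj, zpow_add₀ (e_ne_zero t), e_zsmul, ← zpow_natCast, ← zpow_mul]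
    have hF1 : ∀ t, ev F (line l x t) = e t ^ (ordZ l F) * g.eval (e ((M : ℤ) • t)) := by
      intro t
      rw [ev_eq_sum, hg, Polynomial.eval_finsetSum, Finset.mul_sum]
      apply Finset.sum_congr rfl
      intro j hj
      rw [mon_line, hzp t j hj, Polynomial.eval_mul, Polynomial.eval_C, Polynomial.eval_pow,
        Polynomial.eval_X]
      ring
    have hg' : ∀ z : ℂ, z * g.derivative.eval z = ∑ j ∈ F.support,
        ((n j : ℕ) : ℂ) * (((coeff j F : ℤ) : ℂ) * mon x j) * z ^ (n j) := by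
      intro z
      rw [hg, Polynomial.derivative_sum, Polynomial.eval_finsetSum, Finset.mul_sum]
      apply Finset.sum_congr rfl
      intro j _
      rw [Polynomial.derivative_C_mul, Polynomial.derivative_X_pow, Polynomial.eval_mul,
        Polynomial.eval_C]
      simp only [Polynomial.eval_mul, Polynomial.eval_pow, Polynomial.eval_X,
        map_natCast, Polynomial.eval_natCast]
      rcases Nat.eq_zero_or_pos (n j) with h0 | h0
      · rw [h0]; simp
      · have : z ^ (n j) = z * z ^ (n j - 1) := by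
          rw [← pow_succ']; congr 1; omega
        rw [this]; ring
    have hF2 : ∀ t, ‖ev (wd n F) (line l x t)‖ = ‖g.derivative.eval (e ((M : ℤ) • t))‖ := by
      intro t
      have h3 : ev (wd n F) (line l x t) =
          e t ^ (ordZ l F) * (e ((M : ℤ) • t) * g.derivative.eval (e ((M : ℤ) • t))) := by
        rw [ev_wd, hg', Finset.mul_sum]
        apply Finset.sum_congr rfl
        intro j hj
        rw [mon_line, hzp t j hj]; ring
      rw [h3, norm_mul, norm_mul, norm_zpow, norm_e, norm_e]; simp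
    have hF1' : ∀ t, ‖ev F (line l x t)‖ = ‖g.eval (e ((M : ℤ) • t))‖ := by
      intro t
      rw [hF1 t, norm_mul, norm_zpow, norm_e]; simp
    have hup : up l F x ≠ 0 := by
      intro h
      apply hx
      rw [← coeff_zero_up l hF x, h, Polynomial.coeff_zero]
    -- the comparison function
    set Y : UnitAddCircle → ℝ := fun s =>
      (g.roots.map (fun w => ‖e s - w‖ ^ (-(1 / 2) : ℝ))).sum with hY
    obtain ⟨hYi, hYle⟩ := integral_sum_inv_sqrt g.roots
    have hYi0 : Integrable Y := hYi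
    have hYi' : Integrable fun t => Y ((M : ℤ) • t) := integrable_comp_zsmul hM hYi0
    have hYint : ∫ t, Y ((M : ℤ) • t) ≤ 2 * D := by
      rw [integral_comp_zsmul hM hYi0]
      refine hYle.trans ?_
      have h7 : Multiset.card g.roots ≤ D := (Polynomial.card_roots' g).trans hdeg
      have h8 : (Multiset.card g.roots : ℝ) ≤ D := by exact_mod_cast h7
      linarith
    have hpt : ∀ᵐ t : UnitAddCircle, log (N F (wd n F) (line l x t)) ≤
        2 * log ‖ev F (line l x t)‖ + (4 * (log (1 + 2 * D) - 1 + 1 / (1 + 2 * D)) +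
          (4 / (1 + 2 * D)) * Y ((M : ℤ) • t)) := by
      filter_upwards [ae_eval_ne_zero hup] with t ht
      have hgne : g.eval (e ((M : ℤ) • t)) ≠ 0 := by
        rw [← norm_pos_iff, ← hF1' t, norm_ev_line]
        exact norm_pos_iff.mpr ht
      have h3 := log_pair_le hgne
      unfold N
      rw [hF1' t, hF2 t]
      have hY0 : 0 ≤ Y ((M : ℤ) • t) :=
        (multiset_sq_le g.roots (fun w => ‖e ((M : ℤ) • t) - w‖ ^ (-(1 / 2) : ℝ))
          (fun w => Real.rpow_nonneg (norm_nonneg _) _)).1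
      have h4 : log (1 + Y ((M : ℤ) • t)) ≤ log (1 + 2 * D) - 1 +
          (1 + Y ((M : ℤ) • t)) / (1 + 2 * D) := by
        have h5 := Real.log_le_sub_one_of_pos (x := (1 + Y ((M : ℤ) • t)) / (1 + 2 * D))
          (by positivity)
        rw [Real.log_div (by positivity) (by positivity)] at h5
        linarith
      have h6 : (1 + Y ((M : ℤ) • t)) / (1 + 2 * (D : ℝ)) =
          1 / (1 + 2 * D) + Y ((M : ℤ) • t) / (1 + 2 * D) := by ring
      rw [h6] at h4
      have h7 : 4 / (1 + 2 * (D : ℝ)) * Y ((M : ℤ) • t) =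
          4 * (Y ((M : ℤ) • t) / (1 + 2 * D)) := by ring
      rw [h7]
      linarith
    have hI2 : Integrable fun t => 2 * log ‖ev F (line l x t)‖ := h2.const_mul 2
    have hI3 : Integrable fun t : UnitAddCircle => (4 * (log (1 + 2 * D) - 1 + 1 / (1 + 2 * D)) +
          (4 / (1 + 2 * (D : ℝ))) * Y ((M : ℤ) • t)) :=
      (integrable_const _).add (hYi'.const_mul _)
    have h9 := integral_mono_ae h1 (hI2.add hI3) hpt
    simp only [Pi.add_apply] at h9
    rw [integral_add hI2 hI3, integral_add (integrable_const _) (hYi'.const_mul _),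
      integral_const_mul (4 / (1 + 2 * (D : ℝ)))] at h9
    refine h9.trans ?_
    have h10 : (∫ _t : UnitAddCircle, 4 * (log (1 + 2 * (D : ℝ)) - 1 + 1 / (1 + 2 * (D : ℝ)))) =
        4 * (log (1 + 2 * (D : ℝ)) - 1 + 1 / (1 + 2 * (D : ℝ))) := by simp
    rw [h10]
    have h11 : 4 / (1 + 2 * (D : ℝ)) * ∫ t, Y ((M : ℤ) • t) ≤ 4 / (1 + 2 * (D : ℝ)) * (2 * D) :=
      mul_le_mul_of_nonneg_left hYint (by positivity)
    have h12 : 4 * (1 / (1 + 2 * (D : ℝ))) + 4 / (1 + 2 * (D : ℝ)) * (2 * D) = 4 := by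
      field_simp
    linarith
  have e1 : H F (wd n F) = ∫ x, ∫ t, log (N F (wd n F) (line l x t)) := by
    unfold H; exact integral_line l i1
  have e2 : 2 * mm F = ∫ x, ∫ t, (2 * log ‖ev F (line l x t)‖) := by
    unfold mm
    rw [← integral_const_mul]
    exact integral_line l (i0.const_mul 2)
  rw [e1, e2]
  have i2 : Integrable fun x => ∫ t, (2 * log ‖ev F (line l x t)‖) :=
    integrable_integral_line l (i0.const_mul 2)
  have h13 := integral_mono_ae (integrable_integral_line l i1) (i2.add (integrable_const _)) key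
  simp only [Pi.add_apply] at h13
  rw [integral_add i2 (integrable_const _)] at h13
  simpa using h13

end Pool.Agent.MP_44c6d5_nt
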