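import Mathlib
import Pool.Agent.MP_44c6d5_nt.Recip
import Pool.Agent.MP_44c6d5_nt.Width

namespace Pool.Agent.MP_44c6d5_nt

open MeasureTheory Real MvPolynomial Module Filter Topology

variable {k : ℕ}

theorem integral_torus {h : Tor k → ℝ} (hm : Measurable h) :
    ∫ x, h x = ∫ t in Set.Icc (0 : Fin k → ℝ) 1, h (fun i => (t i : UnitAddCircle)) := by
  have h1 : MeasurePreserving (fun (t : Fin k → ℝ) (i : Fin k) => ((t i : ℝ) : UnitAddCircle))
      (Measure.pi fun _ : Fin k => (volume : Measure ℝ).restrict (Set.Ioc 0 (0 + 1)))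
      (Measure.pi fun _ : Fin k => (volume : Measure UnitAddCircle)) :=
    measurePreserving_pi _ _ (fun _ => AddCircle.measurePreserving_mk 1 0)
  have h2 : ∫ x, h x = ∫ t, h (fun i => ((t i : ℝ) : UnitAddCircle))
      ∂(Measure.pi fun _ : Fin k => (volume : Measure ℝ).restrict (Set.Ioc 0 (0 + 1))) := by
    have h3 := integral_map h1.measurable.aemeasurable (f := h)
      (by rw [h1.map_eq]; exact hm.aestronglyMeasurable)
    rw [h1.map_eq] at h3
    exact h3
  rw [h2, ← Measure.restrict_pi_pi]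
  have h4 : (Set.univ.pi fun _ : Fin k => Set.Ioc (0 : ℝ) (0 + 1)) =ᵐ[volume]
      Set.Icc (0 : Fin k → ℝ) 1 := by
    have := Measure.univ_pi_Ioc_ae_eq_Icc (μ := fun _ : Fin k => (volume : Measure ℝ))
      (f := fun _ => 0) (g := fun _ => 0 + 1)
    simp only [zero_add] at this ⊢
    exact this
  exact setIntegral_congr_set h4

theorem mahler_eq (F : Pol k) : mahler F = mm F := by
  unfold mahler mm
  rw [integral_torus (measurable_log_ev F)]
  congr 1
  ext t
  have h1 : (fun i => Complex.exp (2 * π * Complex.I * t i)) =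
      fun i => e ((t i : ℝ) : UnitAddCircle) := by
    funext i
    rw [e_coe, circleMap]
    simp only [zero_add, Complex.ofReal_one, one_mul]
    congr 1
    push_cast
    ring
  unfold ev
  rw [h1]

theorem norm_evalA_le {l : ℕ} (A : Matrix (Fin l) (Fin k) ℤ) (F : Pol k) (t : Fin l → ℝ) :
    ‖evalA A F t‖ ≤ len F := by
  unfold evalA len
  rw [aeval_def, eval₂_eq']
  refine (norm_sum_le _ _).trans ?_
  apply Finset.sum_le_sum
  intro j _
  rw [norm_mul, norm_prod]
  have h1 : ∀ i, ‖(∏ a, Complex.exp (2 * π * Complex.I * t a) ^ (A a i)) ^ (j i)‖ = 1 := by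
    intro i
    rw [norm_pow, norm_prod]
    have h2 : ∀ a, ‖Complex.exp (2 * π * Complex.I * t a) ^ (A a i)‖ = 1 := by
      intro a
      rw [norm_zpow]
      have h3 : ‖Complex.exp (2 * π * Complex.I * t a)‖ = 1 := by
        have : (2 * π * Complex.I * t a : ℂ) = ((2 * π * t a : ℝ) : ℂ) * Complex.I := by
          push_cast; ring
        rw [this, Complex.norm_exp_ofReal_mul_I]
      rw [h3, one_zpow]
    rw [Finset.prod_congr rfl (fun a _ => h2 a)]
    simp
  rw [Finset.prod_congr rfl (fun i _ => h1 i)]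
  simp

theorem MSet_bdd {F : Pol k} (hF : F ≠ 0) {r : ℝ} (hr : r ∈ MSet F) : r ≤ log (len F) := by
  obtain ⟨l, A, _, rfl⟩ := hr
  have hlog : 0 ≤ log (len F) := Real.log_nonneg (one_le_len hF)
  by_cases hi : IntegrableOn (fun t => log ‖evalA A F t‖) (Set.Icc (0 : Fin l → ℝ) 1)
  swap
  · rw [integral_undef hi]; exact hlog
  have hvol : volume (Set.Icc (0 : Fin l → ℝ) 1) = 1 := by
    rw [Real.volume_Icc_pi]; simp
  have h1 : ∫ t in Set.Icc (0 : Fin l → ℝ) 1, log ‖evalA A F t‖ ≤
      ∫ _t in Set.Icc (0 : Fin l → ℝ) 1, log (len F) := by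
    apply setIntegral_mono_on hi _ measurableSet_Icc
    · intro t _
      rcases eq_or_ne (evalA A F t) 0 with h | h
      · rw [h, norm_zero, Real.log_zero]; exact hlog
      · exact Real.log_le_log (norm_pos_iff.mpr h) (norm_evalA_le A F t)
    · exact integrableOn_const (by rw [hvol]; exact ENNReal.one_ne_top)
  rw [setIntegral_const] at h1
  simpa [Measure.real, hvol] using h1

/-- if `m(F_n) → ∞` then only finitely many `m(F_n)` lie in `M(G)`. -/
theorem finite_of_tendsto {κ : ℕ → ℕ} {F : ∀ n, Pol (κ n)}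
    (h : Tendsto (fun n => mahler (F n)) atTop atTop) {q : ℕ} (G : Pol q) (hG : G ≠ 0) :
    {n | mahler (F n) ∈ MSet G}.Finite := by
  have h1 := h.eventually_gt_atTop (log (len G))
  rw [← Nat.cofinite_eq_atTop] at h1
  apply Set.Finite.subset h1
  intro n hn hcon
  have h2 : log (len G) < mahler (F n) := hcon
  have h3 := MSet_bdd hG hn
  linarith

theorem Phi_mono {a b : ℝ} (ha : 0 ≤ a) (hab : a ≤ b) : Phi a ≤ Phi b := by
  unfold Phi
  have h1 : 0 ≤ log 3 := Real.log_nonneg (by norm_num)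
  have h2 : exp (6 * a) ≤ exp (6 * b) := Real.exp_le_exp.mpr (by linarith)
  have h3 := Real.exp_pos (6 * a)
  have h5 : 9 * a ≤ 9 * b := by linarith
  have h4 : 9 * a * (2 * a + log 3) ≤ 9 * b * (2 * b + log 3) :=
    mul_le_mul h5 (by linarith) (by positivity) (by linarith)
  have h6 : 0 ≤ b := ha.trans hab
  exact mul_le_mul h4 h2 h3.le (by positivity)

/-- dimension bound for non reciprocal factors of face polynomials. -/
theorem ndim_le_rev {F P : Pol k} (hF : F ≠ 0) (y : Fin k → ℝ) (hP : Irreducible P)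
    (hPF : P ∣ ini y F) (h1 : rev P ≠ P) (h2 : rev P ≠ -P) :
    (ndim P : ℝ) ≤ Phi (2 * mahler F + log 2) := by
  have hlog : 0 ≤ log 2 := Real.log_nonneg (by norm_num)
  have h3 := ndim_le hP (rev_ne_zero hP.ne_zero) (not_dvd_rev hP.ne_zero h1 h2)
    (H_rev hP.ne_zero).le
  refine h3.trans (Phi_mono ?_ ?_)
  · have := mm_nonneg hP.ne_zero; linarith
  · rw [mahler_eq]
    have h4 := mm_dvd_le (ini_ne_zero y hF) hPF
    have h5 := mm_ini_le y hF
    linarith

theorem exists_dir {u : Fin k → ℝ} {P : Pol k} (hP : P ≠ 0) {n : (Fin k →₀ ℕ) → ℕ}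
    (hn : ∀ j ∈ P.support, wt u j = ord u P + n j) :
    ∃ M : ℕ, 0 < M ∧ ∃ l : Fin k → ℤ, ∀ j ∈ P.support, wtZ l j = ordZ l P + M * n j := by
  classical
  set T : ℝ := ∑ j ∈ P.support, ∑ i, (j i : ℝ) with hT
  have hT0 : 0 ≤ T := Finset.sum_nonneg fun j _ => Finset.sum_nonneg fun i _ => by positivity
  have hTle : ∀ j ∈ P.support, ∑ i, (j i : ℝ) ≤ T := fun j hj =>
    Finset.single_le_sum (f := fun j : Fin k →₀ ℕ => ∑ i, (j i : ℝ))
      (fun j _ => Finset.sum_nonneg fun i _ => by positivity) hj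
  obtain ⟨N, hN, l, hl⟩ := dirichlet u (ε := 1 / (2 * T + 1)) (by positivity) 1
  have hest : ∀ j ∈ P.support, ∀ j' ∈ P.support,
      |(N : ℝ) * (wt u j' - wt u j) - ((wtZ l j' : ℝ) - wtZ l j)| < 1 := by
    intro j hj j' hj'
    have e1 : (N : ℝ) * (wt u j' - wt u j) - ((wtZ l j' : ℝ) - wtZ l j) =
        ∑ i, ((N : ℝ) * u i - l i) * ((j' i : ℝ) - j i) := by
      rw [← wt_rl, ← wt_rl]
      unfold wt rl
      rw [← Finset.sum_sub_distrib, ← Finset.sum_sub_distrib, Finset.mul_sum,
        ← Finset.sum_sub_distrib]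
      apply Finset.sum_congr rfl
      intro i _; ring
    rw [e1]
    calc |∑ i, ((N : ℝ) * u i - l i) * ((j' i : ℝ) - j i)|
        ≤ ∑ i, |((N : ℝ) * u i - l i) * ((j' i : ℝ) - j i)| := Finset.abs_sum_le_sum_abs _ _
      _ ≤ ∑ i, (1 / (2 * T + 1)) * ((j' i : ℝ) + j i) := by
          apply Finset.sum_le_sum
          intro i _
          rw [abs_mul]
          apply mul_le_mul (hl i).le _ (abs_nonneg _) (by positivity)
          rw [abs_le]
          constructor <;>
          · have : (0 : ℝ) ≤ j i := by positivity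
            have : (0 : ℝ) ≤ j' i := by positivity
            linarith
      _ = (∑ i, (j' i : ℝ) + ∑ i, (j i : ℝ)) / (2 * T + 1) := by
          rw [← Finset.mul_sum, Finset.sum_add_distrib]; ring
      _ < 1 := by
          rw [div_lt_one (by positivity)]
          have := hTle j hj
          have := hTle j' hj'
          linarith
  obtain ⟨j0, hj0, hj0'⟩ := exists_ord u hP
  have hkey : ∀ j ∈ P.support, wtZ l j = wtZ l j0 + N * n j := by
    intro j hj
    have h1 := hest j0 hj0 j hj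
    rw [hn j hj, hj0', add_sub_cancel_left] at h1
    have h2 : |((N : ℤ) * n j - (wtZ l j - wtZ l j0) : ℤ)| < 1 := by
      have : |(((N : ℤ) * n j - (wtZ l j - wtZ l j0) : ℤ) : ℝ)| < 1 := by
        push_cast; exact h1
      exact_mod_cast this
    rw [Int.abs_lt_one_iff] at h2
    omega
  have hord : ordZ l P = wtZ l j0 := by
    obtain ⟨i, hi, hi'⟩ := exists_ordZ l hP
    apply le_antisymm
    · exact ordZ_le hj0
    · rw [← hi', hkey i hi]
      have : 0 ≤ (N : ℤ) * n i := by positivity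
      omega
  exact ⟨N, by omega, l, fun j hj => by rw [hord]; exact hkey j hj⟩

/-- dimension bound for factors of small width. -/
theorem ndim_le_width {F P : Pol k} (hF : F ≠ 0) (y : Fin k → ℝ) (hP : Irreducible P)
    (hPF : P ∣ ini y F) {D : ℕ} {u : Fin k → ℝ} {a : ℝ}
    (h1 : ∀ j ∈ P.support, ∃ n : ℕ, n ≤ D ∧ wt u j = a + n)
    (h2 : ∃ j ∈ P.support, ∃ j' ∈ P.support, wt u j ≠ wt u j') :
    (ndim P : ℝ) ≤ Phi (2 * mahler F + 4 * log (1 + 2 * D)) := by
  classical
  have hP0 := hP.ne_zero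
  obtain ⟨j0, hj0, hj0'⟩ := exists_ord u hP0
  obtain ⟨n0, hn0, hn0'⟩ := h1 j0 hj0
  have h3 : ∀ j ∈ P.support, ∃ n : ℕ, n ≤ D ∧ wt u j = ord u P + n := by
    intro j hj
    obtain ⟨m, hm, hm'⟩ := h1 j hj
    have h4 := ord_le u hj
    rw [hm', ← hj0', hn0'] at h4
    have h5 : n0 ≤ m := by
      have : (n0 : ℝ) ≤ m := by linarith
      exact_mod_cast this
    refine ⟨m - n0, by omega, ?_⟩
    rw [hm', ← hj0', hn0', Nat.cast_sub h5]; ring
  choose! n hnD hn using h3
  obtain ⟨M, hM, l, hl⟩ := exists_dir hP0 hn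
  have hH := H_wd_le hP0 n hM l hl hnD
  have hsupp : (wd n P).support ⊆ P.support := by
    intro j hj
    rw [MvPolynomial.mem_support_iff, coeff_wd] at hj
    rw [MvPolynomial.mem_support_iff]
    exact right_ne_zero_of_mul hj
  have hQ : wd n P ≠ 0 := by
    obtain ⟨j, hj, j', hj', hne⟩ := h2
    have : ∃ i ∈ P.support, n i ≠ 0 := by
      by_contra hcon
      push Not at hcon
      apply hne
      rw [hn j hj, hn j' hj', hcon j hj, hcon j' hj']
    obtain ⟨i, hi, hi'⟩ := this
    intro h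
    have h5 := coeff_wd n P i
    rw [h, coeff_zero] at h5
    have h6 : coeff i P ≠ 0 := MvPolynomial.mem_support_iff.mp hi
    have h7 : ((n i : ℕ) : ℤ) ≠ 0 := by exact_mod_cast hi'
    exact (mul_ne_zero h7 h6) h5.symm
  have hnd : ¬ P ∣ wd n P := by
    rintro ⟨R, hR⟩
    have hR0 : R ≠ 0 := by
      rintro rfl
      rw [mul_zero] at hR; exact hQ hR
    have h5 : ord u P < ord u (wd n P) := by
      apply lt_ord hQ
      intro j hj
      have hj1 := hsupp hj
      rw [MvPolynomial.mem_support_iff, coeff_wd] at hj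
      have h6 : n j ≠ 0 := by
        intro h; rw [h] at hj; simp at hj
      rw [hn j hj1]
      have : (0 : ℝ) < n j := by exact_mod_cast Nat.pos_of_ne_zero h6
      linarith
    have h7 : ord (-u) P ≤ ord (-u) (wd n P) := le_ord hQ fun j hj => ord_le _ (hsupp hj)
    rw [hR, ord_mul _ hP0 hR0] at h5 h7
    have := ord_add_ord_neg_le hR0 u
    linarith
  have h4 := ndim_le hP hQ hnd hH
  have hlog : 0 ≤ log (1 + 2 * (D : ℝ)) := by
    apply Real.log_nonneg
    have : (0 : ℝ) ≤ D := by positivity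
    linarith
  refine h4.trans (Phi_mono ?_ ?_)
  · have := mm_nonneg hP0; linarith
  · rw [mahler_eq]
    have h5 := mm_dvd_le (ini_ne_zero y hF) hPF
    have h6 := mm_ini_le y hF
    linarith

end Pool.Agent.MP_44c6d5_nt
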