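import Mathlib
import Pool.Agent.MP_44c6d5_nt.Conv

namespace Pool.Agent.MP_44c6d5_nt

open MeasureTheory Real MvPolynomial Module Filter Topology

variable {k : ℕ}

/-- exposed vertices of the Newton polytope -/
def IsVert (F : Pol k) (j : Fin k →₀ ℕ) : Prop :=
  j ∈ F.support ∧ ∃ y : Fin k → ℝ, ∀ i ∈ F.support, i ≠ j → wt y j < wt y i

open Classical in
/-- the finite set of vertices -/
noncomputable def vert (F : Pol k) : Finset (Fin k →₀ ℕ) := F.support.filter (IsVert F)

theorem mem_vert {F : Pol k} {j : Fin k →₀ ℕ} : j ∈ vert F ↔ IsVert F j := by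
  classical
  unfold vert
  rw [Finset.mem_filter]
  exact ⟨fun h => h.2, fun h => ⟨h.1, h⟩⟩

/-- `j` is a vertex exposed by `y` iff the initial form is supported at `j`. -/
theorem isVert_iff {F : Pol k} {j : Fin k →₀ ℕ} :
    IsVert F j ↔ ∃ y : Fin k → ℝ, (ini y F).support = {j} := by
  constructor
  · rintro ⟨hj, y, hy⟩
    refine ⟨y, ?_⟩
    have hF : F ≠ 0 := by rintro rfl; simp at hj
    have hord : ord y F = wt y j := by
      apply le_antisymm (ord_le y hj)
      apply le_ord hF
      intro i hi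
      rcases eq_or_ne i j with h | h
      · rw [h]
      · exact (hy i hi h).le
    ext i
    rw [mem_support_ini, Finset.mem_singleton, hord]
    constructor
    · rintro ⟨h1, h2⟩
      by_contra h
      exact absurd h2 (hy i h1 h).ne'
    · rintro rfl; exact ⟨hj, rfl⟩
  · rintro ⟨y, hy⟩
    have hj : j ∈ (ini y F).support := by rw [hy]; simp
    have hj' := mem_support_ini.mp hj
    refine ⟨hj'.1, y, fun i hi hij => ?_⟩
    rw [hj'.2]
    apply lt_of_le_of_ne (ord_le y hi)
    intro h
    have : i ∈ (ini y F).support := mem_support_ini.mpr ⟨hi, h.symm⟩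
    rw [hy, Finset.mem_singleton] at this
    exact hij this

/-- for every `y` there is a small perturbation making the initial form a monomial -/
theorem exists_perturb_monomial (y : Fin k → ℝ) {P : Pol k} (hP : P ≠ 0) {U : Set (Fin k → ℝ)}
    (hU : U ∈ 𝓝 (0 : Fin k → ℝ)) : ∃ u ∈ U, ∃ j, (ini (y + u) P).support = {j} := by
  -- a generic direction
  obtain ⟨l, hl⟩ := exists_sep P.support
  have h1 := perturb y hP
  have hc : Tendsto (fun s : ℝ => s • rl l) (𝓝[>] 0) (𝓝 0) := by
    have : Tendsto (fun s : ℝ => s • rl l) (𝓝 0) (𝓝 ((0 : ℝ) • rl l)) :=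
      (continuous_id.smul continuous_const).tendsto 0
    rw [zero_smul] at this
    exact this.mono_left nhdsWithin_le_nhds
  obtain ⟨s, ⟨hs1, hs2⟩, hs0⟩ := ((hc.eventually (h1.and hU)).and self_mem_nhdsWithin).exists
  have hs0 : 0 < s := hs0
  refine ⟨s • rl l, hs2, ?_⟩
  rw [hs1.1]
  obtain ⟨j, hj, hj'⟩ := exists_ord (s • rl l) (ini_ne_zero y hP)
  refine ⟨j, ?_⟩
  ext i
  rw [mem_support_ini, Finset.mem_singleton]
  constructor
  · rintro ⟨h3, h4⟩
    rw [← hj', wt_smul, wt_smul, wt_rl, wt_rl] at h4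
    have h5 : (wtZ l i : ℝ) = wtZ l j := mul_left_cancel₀ hs0.ne' h4
    exact hl i (mem_support_ini.mp h3).1 j (mem_support_ini.mp hj).1 (by exact_mod_cast h5)
  · rintro rfl; exact ⟨hj, hj'⟩

theorem vert_nonempty {F : Pol k} (hF : F ≠ 0) : 1 ≤ (vert F).card := by
  obtain ⟨u, _, j, hj⟩ := exists_perturb_monomial 0 hF Filter.univ_mem
  rw [Nat.one_le_iff_ne_zero, Ne, Finset.card_eq_zero]
  intro h
  have : j ∈ vert F := mem_vert.mpr (isVert_iff.mpr ⟨_, hj⟩)
  rw [h] at this; simp at this

/-- vertices of a face are vertices -/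
theorem vert_ini_subset (y : Fin k → ℝ) {F : Pol k} (hF : F ≠ 0) : vert (ini y F) ⊆ vert F := by
  intro j hj
  rw [mem_vert, isVert_iff] at hj
  obtain ⟨u, hu⟩ := hj
  rw [mem_vert, isVert_iff]
  have hc : Tendsto (fun s : ℝ => s • u) (𝓝[>] 0) (𝓝 0) := by
    have : Tendsto (fun s : ℝ => s • u) (𝓝 0) (𝓝 ((0 : ℝ) • u)) :=
      (continuous_id.smul continuous_const).tendsto 0
    rw [zero_smul] at this
    exact this.mono_left nhdsWithin_le_nhds
  obtain ⟨s, hs1, hs0⟩ := ((hc.eventually (perturb y hF)).and self_mem_nhdsWithin).exists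
  have hs0 : 0 < s := hs0
  refine ⟨y + s • u, ?_⟩
  rw [hs1.1, ← hu]
  ext i
  constructor
  · intro h
    obtain ⟨h1, h2⟩ := mem_support_ini.mp h
    rw [ord_smul hs0, wt_smul] at h2
    exact mem_support_ini.mpr ⟨h1, mul_left_cancel₀ hs0.ne' h2⟩
  · intro h
    obtain ⟨h1, h2⟩ := mem_support_ini.mp h
    exact mem_support_ini.mpr ⟨h1, by rw [ord_smul hs0, wt_smul, h2]⟩

/-- opposite faces have disjoint supports -/
theorem disjoint_faces {y : Fin k → ℝ} {F : Pol k} (hF : F ≠ 0) (hy : y ∉ Lam F) :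
    Disjoint (vert (ini y F)) (vert (ini (-y) F)) := by
  rw [Finset.disjoint_left]
  intro j h1 h2
  have h3 := mem_support_ini.mp (mem_vert.mp h1).1
  have h4 := mem_support_ini.mp (mem_vert.mp h2).1
  apply hy
  rw [← ord_add_ord_neg_eq_iff hF, ← h3.2, ← h4.2, wt_neg]
  ring

theorem vert_card_add_le {y : Fin k → ℝ} {F : Pol k} (hF : F ≠ 0) (hy : y ∉ Lam F) :
    (vert (ini y F)).card + (vert (ini (-y) F)).card ≤ (vert F).card := by
  rw [← Finset.card_union_of_disjoint (disjoint_faces hF hy)]
  exact Finset.card_le_card (Finset.union_subset (vert_ini_subset y hF) (vert_ini_subset (-y) hF))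

/-- the number of vertices does not decrease under multiplication -/
theorem vert_card_le_mul {G p : Pol k} (hG : G ≠ 0) (hp : p ≠ 0) :
    (vert G).card ≤ (vert (G * p)).card := by
  classical
  have h1 : ∀ j ∈ vert G, ∃ i, ∃ y : Fin k → ℝ, (ini y G).support = {j} ∧
      (ini y p).support = {i} := by
    intro j hj
    rw [mem_vert, isVert_iff] at hj
    obtain ⟨y, hy⟩ := hj
    obtain ⟨u, hu, i, hi⟩ := exists_perturb_monomial y hp (perturb y hG)
    refine ⟨i, y + u, ?_, hi⟩
    rw [hu.1]
    have h2 : j ∈ (ini y G).support := by rw [hy]; simp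
    ext a
    rw [mem_support_ini, hy, Finset.mem_singleton]
    constructor
    · rintro ⟨h3, _⟩; exact h3
    · rintro rfl
      refine ⟨rfl, ?_⟩
      obtain ⟨b, hb, hb'⟩ := exists_ord u (ini_ne_zero y hG)
      rw [hy, Finset.mem_singleton] at hb
      rw [← hb', hb]
  choose! f Y hY1 hY2 using h1
  apply Finset.card_le_card_of_injOn (fun j => j + f j)
  · intro j hj
    have hj : j ∈ vert G := hj
    rw [Finset.mem_coe, mem_vert, isVert_iff]
    refine ⟨Y j, ?_⟩
    rw [ini_mul (Y j) hG hp]
    have hg : ini (Y j) G = monomial j (coeff j (ini (Y j) G)) := by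
      ext a
      rw [coeff_monomial]
      split_ifs with h
      · rw [h]
      · by_contra h3
        have := MvPolynomial.mem_support_iff.mpr h3
        rw [hY1 j hj, Finset.mem_singleton] at this
        exact h this.symm
    have hq : ini (Y j) p = monomial (f j) (coeff (f j) (ini (Y j) p)) := by
      ext a
      rw [coeff_monomial]
      split_ifs with h
      · rw [h]
      · by_contra h3
        have := MvPolynomial.mem_support_iff.mpr h3
        rw [hY2 j hj, Finset.mem_singleton] at this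
        exact h this.symm
    have c1 : coeff j (ini (Y j) G) ≠ 0 := by
      rw [← MvPolynomial.mem_support_iff, hY1 j hj]; simp
    have c2 : coeff (f j) (ini (Y j) p) ≠ 0 := by
      rw [← MvPolynomial.mem_support_iff, hY2 j hj]; simp
    rw [hg, hq, monomial_mul, support_monomial, if_neg (mul_ne_zero c1 c2)]
  · intro j hj j' hj' h
    have hj : j ∈ vert G := hj
    have hj' : j' ∈ vert G := hj'
    simp only at h
    by_contra hne
    -- weights with respect to Y j
    have e1 : j ∈ (ini (Y j) G).support := by rw [hY1 j hj]; simp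
    have e2 : f j ∈ (ini (Y j) p).support := by rw [hY2 j hj]; simp
    have e3 := mem_support_ini.mp e1
    have e4 := mem_support_ini.mp e2
    have e5 : j' ∈ G.support := (mem_vert.mp hj').1
    have e6 : f j' ∈ p.support := by
      have : f j' ∈ (ini (Y j') p).support := by rw [hY2 j' hj']; simp
      exact (mem_support_ini.mp this).1
    have e7 : ord (Y j) G < wt (Y j) j' := by
      apply lt_of_le_of_ne (ord_le _ e5)
      intro h3
      have : j' ∈ (ini (Y j) G).support := mem_support_ini.mpr ⟨e5, h3.symm⟩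
      rw [hY1 j hj, Finset.mem_singleton] at this
      exact hne this.symm
    have e8 := ord_le (Y j) e6
    have e9 : wt (Y j) (j + f j) = wt (Y j) (j' + f j') := by rw [h]
    rw [wt_add, wt_add, e3.2, e4.2] at e9
    linarith

/-- existence of a facet direction -/
theorem exists_facet {F : Pol k} (hF : F ≠ 0) (htop : Lam F ≠ ⊤) :
    ∃ y, y ∉ Lam F ∧ finrank ℝ (Lam (ini y F)) = finrank ℝ (Lam F) + 1 := by
  classical
  have hex : ∃ m : ℕ, ∃ y, y ∉ Lam F ∧ finrank ℝ (Lam (ini y F)) = m := by
    have : ∃ y, y ∉ Lam F := by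
      by_contra hcon
      push Not at hcon
      exact htop (eq_top_iff.mpr fun y _ => hcon y)
    obtain ⟨y, hy⟩ := this
    exact ⟨_, y, hy, rfl⟩
  obtain ⟨y, hy, hm⟩ := Nat.find_spec hex
  have hmin : ∀ v, v ∉ Lam F → finrank ℝ (Lam (ini y F)) ≤ finrank ℝ (Lam (ini v F)) := by
    intro v hv
    rw [hm]
    exact Nat.find_min' hex ⟨v, hv, rfl⟩
  refine ⟨y, hy, ?_⟩
  have hle := Lam_le_Lam_ini y F
  have hlt : finrank ℝ (Lam F) < finrank ℝ (Lam (ini y F)) := by
    apply Submodule.finrank_lt_finrank_of_lt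
    refine lt_of_le_of_ne hle ?_
    intro h
    apply hy
    rw [h]; exact mem_Lam_ini y F
  by_contra hcon
  have hcod : finrank ℝ (Lam F) + 2 ≤ finrank ℝ (Lam (ini y F)) := by omega
  set V := Lam (ini y F) with hV
  set E : Submodule ℝ V := (Lam F).comap V.subtype with hE
  have hEf : finrank ℝ E = finrank ℝ (Lam F) :=
    (Submodule.comapSubtypeEquivOfLe hle).finrank_eq
  have hcodim : 1 < Module.rank ℝ (V ⧸ E) := by
    have h1 := Submodule.finrank_quotient_add_finrank E
    have h2 : 1 < finrank ℝ (V ⧸ E) := by omega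
    rw [← Module.finrank_eq_rank]
    exact_mod_cast h2
  have hconn := (isConnected_compl_of_one_lt_codim hcodim).isPreconnected
  let f : V → Bool := fun w => decide (ini (w : Fin k → ℝ) F = ini y F)
  have hstep : ∀ v : Fin k → ℝ, v ∉ Lam F → ∀ᶠ u in 𝓝 (0 : Fin k → ℝ), u ∈ V →
      (ini (v + u) F = ini y F ↔ ini v F = ini y F) := by
    intro v hv
    filter_upwards [perturb v hF] with u h1 hu
    rw [h1.1]
    constructor
    · intro h
      have h2 : Lam (ini v F) ≤ V := by
        rw [hV, ← h]; exact Lam_le_Lam_ini u _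
      have h3 : Lam (ini v F) = V := Submodule.eq_of_le_of_finrank_le h2 (hmin v hv)
      have h4 : ini u (ini v F) = ini v F :=
        (ini_eq_self_iff (ini_ne_zero v hF)).mpr (by rw [h3]; exact hu)
      rw [← h4]; exact h
    · intro h
      rw [h]
      exact (ini_eq_self_iff (ini_ne_zero y hF)).mpr hu
  have hf : ContinuousOn f ((E : Set V)ᶜ) := by
    intro w hw
    have hw' : (w : Fin k → ℝ) ∉ Lam F := hw
    apply ContinuousAt.continuousWithinAt
    have hev := hstep w hw'
    have hc : Tendsto (fun w' : V => (w' : Fin k → ℝ) - (w : Fin k → ℝ)) (𝓝 w) (𝓝 0) := by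
      have h1 : Continuous fun w' : V => (w' : Fin k → ℝ) - (w : Fin k → ℝ) :=
        continuous_subtype_val.sub continuous_const
      have h2 := h1.tendsto w
      rw [sub_self] at h2
      exact h2
    have h3 : ∀ᶠ w' : V in 𝓝 w, f w' = f w := by
      filter_upwards [hc.eventually hev] with w' h4
      have h5 := h4 (V.sub_mem w'.2 w.2)
      rw [add_sub_cancel] at h5
      simp only [f, decide_eq_decide]
      exact h5
    have h6 : f =ᶠ[𝓝 w] fun _ => f w := h3
    exact (continuousAt_const.congr h6.symm)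
  have hyV : y ∈ V := mem_Lam_ini y F
  have hyV' : -y ∈ V := V.neg_mem hyV
  have hyE : (⟨y, hyV⟩ : V) ∈ ((E : Set V)ᶜ) := hy
  have hyE' : (⟨-y, hyV'⟩ : V) ∈ ((E : Set V)ᶜ) := fun h => hy (by
    have : -y ∈ Lam F := h
    simpa using (Lam F).neg_mem this)
  have h7 := hconn.constant hf hyE hyE'
  simp only [f, decide_eq_decide] at h7
  have h8 : ini (-y) F = ini y F := h7.mp trivial
  obtain ⟨j, hj, hj'⟩ := exists_ord y hF
  have h9 : j ∈ (ini (-y) F).support := by
    rw [h8]; exact mem_support_ini.mpr ⟨hj, hj'⟩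
  have h10 := (mem_support_ini.mp h9).2
  apply hy
  rw [← ord_add_ord_neg_eq_iff hF, ← h10, wt_neg, hj']
  ring

end Pool.Agent.MP_44c6d5_nt
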