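import Mathlib
import Pool.Agent.MP_44c6d5_nt.Vertex

namespace Pool.Agent.MP_44c6d5_nt

open MeasureTheory Real MvPolynomial Module Filter Topology

variable {k : ℕ}

theorem line_neg (l : Fin k → ℤ) (x : Tor k) (t : UnitAddCircle) :
    line (-l) x t = line l x (-t) := by
  funext i
  simp [line]

theorem integral_line_neg (l : Fin k → ℤ) (F : Pol k) (x : Tor k) :
    ∫ t, log ‖ev F (line (-l) x t)‖ = ∫ t, log ‖ev F (line l x t)‖ := by
  simp only [line_neg]
  exact integral_neg_eq_self (fun t => log ‖ev F (line l x t)‖) volume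

/-- the height of the pair of opposite faces. -/
theorem H_faces_le (y : Fin k → ℝ) {F : Pol k} (hF : F ≠ 0) :
    H (ini y F) (ini (-y) F) ≤ 2 * mm F + log 2 := by
  obtain ⟨l, hl⟩ := exists_int_weight y F.support
  have h1 : ini (rl l) F = ini y F := ini_eq_of_weight hl hF (Finset.Subset.refl _)
  have hl' : ∀ j ∈ F.support, ∀ j' ∈ F.support,
      (wt (-y) j < wt (-y) j' → wtZ (-l) j < wtZ (-l) j') ∧
      (wt (-y) j = wt (-y) j' → wtZ (-l) j = wtZ (-l) j') := by
    intro j hj j' hj'
    have e1 : ∀ i, wtZ (-l) i = - wtZ l i := by intro i; simp [wtZ]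
    rw [wt_neg, wt_neg, e1, e1]
    constructor
    · intro h
      have := (hl j' hj' j hj).1 (by linarith)
      omega
    · intro h
      have := (hl j hj j' hj').2 (by linarith)
      omega
  have h2 : ini (rl (-l)) F = ini (-y) F := ini_eq_of_weight hl' hF (Finset.Subset.refl _)
  rw [← h1, ← h2]
  have i0 := integrable_log_ev hF
  have n1 := ini_ne_zero (rl l) hF
  have n2 := ini_ne_zero (rl (-l)) hF
  have i1 := integrable_logN n1 (ini (rl (-l)) F)
  have i2 := integrable_integral_line l i0
  have e1 : 2 * mm F + log 2 = ∫ x, (2 * (∫ t, log ‖ev F (line l x t)‖) + log 2) := by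
    rw [integral_add (i2.const_mul 2) (integrable_const _), integral_const_mul]
    unfold mm
    rw [← integral_line l i0]
    simp
  rw [e1]
  unfold H
  apply integral_mono_ae i1 ((i2.const_mul 2).add (integrable_const _))
  filter_upwards [ae_ev_ne_zero n1, ae_ev_ne_zero n2] with x hx1 hx2
  have h3 : log ‖ev (ini (rl l) F) x‖ ≤ ∫ t, log ‖ev F (line l x t)‖ := by
    rw [← coeff_zero_up l hF x] at hx1 ⊢
    simp only [norm_ev_line]
    exact log_coeff_zero_le _ hx1
  have h4 : log ‖ev (ini (rl (-l)) F) x‖ ≤ ∫ t, log ‖ev F (line l x t)‖ := by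
    rw [← integral_line_neg, ← coeff_zero_up (-l) hF x] at *
    simp only [norm_ev_line]
    exact log_coeff_zero_le _ hx2
  set I := ∫ t, log ‖ev F (line l x t)‖ with hI
  have p1 := norm_pos_iff.mpr hx1
  have p2 := norm_pos_iff.mpr hx2
  have h5 : ‖ev (ini (rl l) F) x‖ ≤ exp I := by rwa [← Real.log_le_iff_le_exp p1]
  have h6 : ‖ev (ini (rl (-l)) F) x‖ ≤ exp I := by rwa [← Real.log_le_iff_le_exp p2]
  have h7 : N (ini (rl l) F) (ini (rl (-l)) F) x ≤ exp I ^ 2 * 2 := by
    unfold N
    have := pow_le_pow_left₀ p1.le h5 2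
    have := pow_le_pow_left₀ p2.le h6 2
    linarith
  have h8 := Real.log_le_log (N_pos _ hx1) h7
  rw [Real.log_mul (by positivity) (by norm_num), Real.log_pow, Real.log_exp] at h8
  push_cast at h8
  exact h8

theorem H_ge_log_two {P Q : Pol k} (hP : P ≠ 0) (hQ : Q ≠ 0) :
    log 2 + mm P + mm Q ≤ H P Q := by
  have e1 : log 2 + mm P + mm Q = ∫ x : Tor k, ((log 2 + log ‖ev P x‖) + log ‖ev Q x‖) := by
    have i1 : Integrable fun x : Tor k => log 2 + log ‖ev P x‖ :=
      (integrable_const _).add (integrable_log_ev hP)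
    rw [integral_add i1 (integrable_log_ev hQ), integral_add (integrable_const _)
      (integrable_log_ev hP)]
    simp [mm]
  rw [e1]
  unfold H
  apply integral_mono_ae (((integrable_const _).add (integrable_log_ev hP)).add
    (integrable_log_ev hQ)) (integrable_logN hP Q)
  filter_upwards [ae_ev_ne_zero hP, ae_ev_ne_zero hQ] with x h1 h2
  have p1 := norm_pos_iff.mpr h1
  have p2 := norm_pos_iff.mpr h2
  simp only [Pi.add_apply]
  rw [← Real.log_mul (by norm_num) p1.ne', ← Real.log_mul (by positivity) p2.ne']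
  apply Real.log_le_log (by positivity)
  unfold N
  nlinarith [sq_nonneg (‖ev P x‖ - ‖ev Q x‖)]

/-- codimension bound for coprime pairs, in terms of `Phi`. -/
theorem codim_le_Phi {P Q : Pol k} (hP : P ≠ 0) (hQ : Q ≠ 0) (hrel : IsRelPrime P Q) {h : ℝ}
    (hH : H P Q ≤ h) : (k : ℝ) - finrank ℝ (LL P Q) ≤ Phi h := by
  have h1 := pair_dim_bound hP hQ hrel hH
  have h0 : 0 ≤ h := (H_nonneg hP Q).trans hH
  have h5 : exp (2 * (2 * h + log 3)) = 9 * exp (4 * h) := by
    have : 2 * (2 * h + log 3) = log 3 + log 3 + 4 * h := by ring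
    rw [this, Real.exp_add, Real.exp_add, Real.exp_log (by norm_num)]
    norm_num
  have h6 : 1 ≤ (2 * h + log 3) * exp (2 * (2 * h + log 3)) := by
    rw [h5]
    have h7 : 1 ≤ exp (4 * h) := Real.one_le_exp (by positivity)
    have h8 : 1 ≤ log 3 := by
      rw [Real.le_log_iff_exp_le (by norm_num)]
      exact Real.exp_one_lt_three.le
    nlinarith
  rw [max_eq_right h6, h5] at h1
  have h9 : (2 * h + log 3) * (9 * exp (4 * h)) * h * exp (2 * h) = Phi h := by
    unfold Phi
    have : exp (6 * h) = exp (4 * h) * exp (2 * h) := by rw [← Real.exp_add]; congr 1; ring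
    rw [this]; ring
  rw [h9] at h1
  exact h1

theorem Phi_nonneg {h : ℝ} (hh : 0 ≤ h) : 0 ≤ Phi h := by
  unfold Phi
  have : 0 ≤ log 3 := Real.log_nonneg (by norm_num)
  positivity

theorem pair_gap {p q : Pol k} (hp : p ≠ 0) (hq : q ≠ 0) (hrel : IsRelPrime p q)
    (htop : LL p q ≠ ⊤) {h : ℝ} (hH : H p q ≤ h) : log 2 + exp (-2 * h) ≤ H p q := by
  have : ∃ u, u ∉ LL p q := by
    by_contra hcon
    push Not at hcon
    exact htop (eq_top_iff.mpr fun y _ => hcon y)
  obtain ⟨u, hu⟩ := this
  have hW : p * ini u q - q * ini u p ≠ 0 := by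
    intro h
    obtain ⟨r, h1, h2⟩ := cancel_aux hp hq hrel (sub_eq_zero.mp h)
    have hr : r ≠ 0 := by
      rintro rfl
      exact ini_ne_zero u hp (by rw [h1, mul_zero])
    have h3 := mem_Lam_ini u p
    have h4 := mem_Lam_ini u q
    rw [h1, Lam_mul hp hr] at h3
    rw [h2, Lam_mul hq hr] at h4
    exact hu ⟨h3.1, h4.1⟩
  have h1 := (lemmaA_real u hp hq hW hH).2
  have h2 := H_ge_log_two (ini_ne_zero u hp) (ini_ne_zero u hq)
  have h3 := mm_nonneg (ini_ne_zero u hp)
  have h4 := mm_nonneg (ini_ne_zero u hq)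
  linarith

theorem vert_bound {B : ℝ} : ∀ (n : ℕ) (F : Pol k), F ≠ 0 → k ≤ finrank ℝ (Lam F) + n → mm F ≤ B →
    (k : ℝ) - finrank ℝ (Lam F) ≤ Real.logb 2 (vert F).card +
      (2 * exp (2 * (2 * B + log 2)) * Phi (2 * B + log 2)) * mm F := by
  intro n
  have hl2 : 0 ≤ log 2 := Real.log_nonneg (by norm_num)
  induction n with
  | zero =>
    intro F hF hk hB
    have h0 := mm_nonneg hF
    have hPhi := Phi_nonneg (h := 2 * B + log 2) (by linarith)
    have h1 : (k : ℝ) - finrank ℝ (Lam F) ≤ 0 := by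
      have : (k : ℝ) ≤ finrank ℝ (Lam F) := by exact_mod_cast hk
      linarith
    have h2 : 0 ≤ Real.logb 2 (vert F).card :=
      Real.logb_nonneg (by norm_num) (by exact_mod_cast vert_nonempty hF)
    have h3 : 0 ≤ (2 * exp (2 * (2 * B + log 2)) * Phi (2 * B + log 2)) * mm F := by positivity
    linarith
  | succ n ih =>
    intro F hF hk hB
    have h0 := mm_nonneg hF
    have hh0 : 0 ≤ 2 * B + log 2 := by linarith
    have hPhi := Phi_nonneg hh0
    by_cases htop : Lam F = ⊤
    · have h1 : finrank ℝ (Lam F) = k := by rw [htop, finrank_top]; simp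
      rw [h1, sub_self]
      have h2 : 0 ≤ Real.logb 2 (vert F).card :=
        Real.logb_nonneg (by norm_num) (by exact_mod_cast vert_nonempty hF)
      have h3 : 0 ≤ (2 * exp (2 * (2 * B + log 2)) * Phi (2 * B + log 2)) * mm F := by positivity
      linarith
    obtain ⟨y, hy, hfac⟩ := exists_facet hF htop
    obtain ⟨p, q, G, hrel, e1, e2⟩ :=
      UniqueFactorizationMonoid.exists_reduced_factors (ini y F) (ini_ne_zero y hF) (ini (-y) F)
    have n1 := ini_ne_zero y hF
    have n2 := ini_ne_zero (-y) hF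
    rw [← e1] at n1
    rw [← e2] at n2
    have hG := left_ne_zero_of_mul n1
    have hp := right_ne_zero_of_mul n1
    have hq := right_ne_zero_of_mul n2
    have hH := H_faces_le y hF
    rw [← e1, ← e2, H_mul hG hp] at hH
    have hGm := mm_nonneg hG
    have hpq := H_ge_log_two hp hq
    have hpm := mm_nonneg hp
    have hqm := mm_nonneg hq
    have hGF : mm G ≤ mm F := by linarith
    have hHpq : H p q ≤ 2 * B + log 2 := by linarith
    -- vertices
    have hv1 := vert_card_add_le hF hy
    have hv2 := vert_card_le_mul hG hp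
    have hv3 := vert_card_le_mul hG hq
    rw [← e1, ← e2] at hv1
    have hv4 : 2 * (vert G).card ≤ (vert F).card := by omega
    have hGpos : (0 : ℝ) < (vert G).card := by
      have := vert_nonempty hG
      exact_mod_cast this
    have hv5 : 1 + Real.logb 2 (vert G).card ≤ Real.logb 2 (vert F).card := by
      have h1 : Real.logb 2 (2 * (vert G).card) ≤ Real.logb 2 (vert F).card := by
        apply Real.logb_le_logb_of_le (by norm_num) (by positivity)
        exact_mod_cast hv4
      rw [Real.logb_mul (by norm_num) hGpos.ne', Real.logb_self_eq_one (by norm_num)] at h1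
      exact h1
    have hLamG : Lam (ini y F) ≤ Lam G := by
      rw [← e1, Lam_mul hG hp]; exact inf_le_left
    have hfG : finrank ℝ (Lam F) + 1 ≤ finrank ℝ (Lam G) := by
      rw [← hfac]; exact Submodule.finrank_mono hLamG
    have hIH := ih G hG (by omega) (hGF.trans hB)
    have hC : 0 ≤ 2 * exp (2 * (2 * B + log 2)) * Phi (2 * B + log 2) := by positivity
    by_cases hLL : LL p q = ⊤
    · -- good step
      have hLp : Lam p = ⊤ := by
        rw [eq_top_iff, ← hLL]; exact inf_le_left
      have h1 : finrank ℝ (Lam G) = finrank ℝ (Lam F) + 1 := by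
        rw [← hfac, ← e1, Lam_mul hG hp, hLp, inf_top_eq]
      have h2 : (finrank ℝ (Lam G) : ℝ) = finrank ℝ (Lam F) + 1 := by exact_mod_cast h1
      rw [h2] at hIH
      have h3 := mul_le_mul_of_nonneg_left hGF hC
      linarith
    · -- bad step
      have h1 := pair_gap hp hq hrel hLL hHpq
      have h2 := codim_le_Phi hp hq hrel hHpq
      have h3 := finrank_inf_ge (Lam G) (LL p q)
      have h4 : finrank ℝ ↥(Lam G ⊓ LL p q) ≤ finrank ℝ (Lam F) + 1 := by
        rw [← hfac, ← e1, Lam_mul hG hp]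
        exact Submodule.finrank_mono (inf_le_inf_left _ inf_le_left)
      have h5 : (finrank ℝ (Lam G) : ℝ) + finrank ℝ (LL p q) ≤ finrank ℝ (Lam F) + 1 + k := by
        have : finrank ℝ (Lam G) + finrank ℝ (LL p q) ≤ finrank ℝ (Lam F) + 1 + k := by omega
        exact_mod_cast this
      have h6 : mm G ≤ mm F - exp (-2 * (2 * B + log 2)) / 2 := by linarith
      have h7 := mul_le_mul_of_nonneg_left h6 hC
      have h8 : (2 * exp (2 * (2 * B + log 2)) * Phi (2 * B + log 2)) *
          (exp (-2 * (2 * B + log 2)) / 2) = Phi (2 * B + log 2) := by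
        have : exp (2 * (2 * B + log 2)) * exp (-2 * (2 * B + log 2)) = 1 := by
          rw [← Real.exp_add]; simp
        calc (2 * exp (2 * (2 * B + log 2)) * Phi (2 * B + log 2)) *
            (exp (-2 * (2 * B + log 2)) / 2)
            = (exp (2 * (2 * B + log 2)) * exp (-2 * (2 * B + log 2))) *
              Phi (2 * B + log 2) := by ring
          _ = _ := by rw [this, one_mul]
      rw [mul_sub, h8] at h7
      linarith

end Pool.Agent.MP_44c6d5_nt
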