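import Mathlib
import Pool.Agent.MP_44c6d5_nt.VertBound

namespace Pool.Agent.MP_44c6d5_nt

open MeasureTheory Real MvPolynomial Module Filter Topology

/-- if a quantity tends to infinity and is bounded by a monotone function of the Mahler measure,
then the Mahler measures tend to infinity. -/
theorem tendsto_of_bound {m d : ℕ → ℝ} {Ψ : ℝ → ℝ} (hd : Tendsto d atTop atTop)
    (h : ∀ B : ℝ, ∀ᶠ n in atTop, m n ≤ B → d n ≤ Ψ B) : Tendsto m atTop atTop := by
  rw [tendsto_atTop]
  intro B
  filter_upwards [h B, hd.eventually_gt_atTop (Ψ B)] with n h1 h2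
  by_contra hcon
  push Not at hcon
  have := h1 hcon.le
  linarith

theorem mahler_nonneg {k : ℕ} {F : Pol k} (hF : F ≠ 0) : 0 ≤ mahler F := by
  rw [mahler_eq]; exact mm_nonneg hF

/-- growth lemma -/
theorem growth (B : ℝ) (hB : 0 ≤ B) : ∃ d0 : ℝ, 1 ≤ d0 ∧ ∀ (d : ℝ) (D : ℕ), d0 < d →
    (D : ℝ) ^ 25 ≤ d → Phi (2 * B + 4 * log (1 + 2 * D)) < d := by
  set α : ℝ := 2 * B + 4 * log 3 with hα
  have hl3 : 0 ≤ log 3 := Real.log_nonneg (by norm_num)
  have hα0 : 0 ≤ α := by positivity
  set K : ℝ := 9 * (α + 4) * (2 * (α + 4) + log 3) * exp (6 * α) with hK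
  have hK0 : 0 < K := by positivity
  have ht : Tendsto (fun y : ℝ => exp y / y ^ 2) atTop atTop := Real.tendsto_exp_div_pow_atTop 2
  obtain ⟨y0, hy0⟩ := Filter.eventually_atTop.mp (ht.eventually_gt_atTop K)
  refine ⟨exp (25 * (max y0 1)), Real.one_le_exp (by positivity), ?_⟩
  intro d D hd hD
  have hdpos : 0 < d := lt_trans (Real.exp_pos _) hd
  set y : ℝ := log d / 25 with hy
  have hyd : d = exp (25 * y) := by
    rw [hy, mul_div_cancel₀ _ (by norm_num : (25 : ℝ) ≠ 0), Real.exp_log hdpos]
  have hy1 : max y0 1 < y := by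
    rw [hyd, Real.exp_lt_exp] at hd
    linarith
  have hyy0 : y0 ≤ y := (le_max_left _ _).trans hy1.le
  have hy1' : 1 < y := lt_of_le_of_lt (le_max_right _ _) hy1
  have hexp := hy0 y hyy0
  rw [lt_div_iff₀ (by positivity)] at hexp
  -- bound for D
  have hDe : (D : ℝ) ≤ exp y := by
    have h1 : (D : ℝ) ^ 25 ≤ (exp y) ^ 25 := by
      rw [← Real.exp_nat_mul]
      push_cast
      rw [← hyd]; exact hD
    exact (pow_le_pow_iff_left₀ (by positivity) (Real.exp_pos _).le (by norm_num)).mp h1
  have he1 : 1 ≤ exp y := Real.one_le_exp (by linarith)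
  have hlog : log (1 + 2 * (D : ℝ)) ≤ log 3 + y := by
    have h1 : 1 + 2 * (D : ℝ) ≤ 3 * exp y := by linarith
    have h2 := Real.log_le_log (by positivity) h1
    rwa [Real.log_mul (by norm_num) (Real.exp_pos _).ne', Real.log_exp] at h2
  have hlog0 : 0 ≤ log (1 + 2 * (D : ℝ)) := by
    apply Real.log_nonneg
    have : (0 : ℝ) ≤ D := by positivity
    linarith
  have h1 : 2 * B + 4 * log (1 + 2 * (D : ℝ)) ≤ α + 4 * y := by rw [hα]; linarith
  have h2 := Phi_mono (by linarith) h1
  refine lt_of_le_of_lt h2 ?_
  unfold Phi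
  have h3 : α + 4 * y ≤ (α + 4) * y := by nlinarith
  have h4 : 2 * (α + 4 * y) + log 3 ≤ (2 * (α + 4) + log 3) * y := by nlinarith
  have h5 : 9 * (α + 4 * y) * (2 * (α + 4 * y) + log 3) ≤
      9 * (α + 4) * (2 * (α + 4) + log 3) * y ^ 2 := by
    calc 9 * (α + 4 * y) * (2 * (α + 4 * y) + log 3)
        ≤ 9 * ((α + 4) * y) * ((2 * (α + 4) + log 3) * y) := by
          apply mul_le_mul (by linarith) h4 (by positivity) (by positivity)
      _ = _ := by ring
  have h6 : exp (6 * (α + 4 * y)) = exp (6 * α) * exp (24 * y) := by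
    rw [← Real.exp_add]; congr 1; ring
  calc 9 * (α + 4 * y) * (2 * (α + 4 * y) + log 3) * exp (6 * (α + 4 * y))
      ≤ (9 * (α + 4) * (2 * (α + 4) + log 3) * y ^ 2) * exp (6 * (α + 4 * y)) :=
        mul_le_mul_of_nonneg_right h5 (Real.exp_pos _).le
    _ = (K * y ^ 2) * exp (24 * y) := by rw [h6, hK]; ring
    _ < exp y * exp (24 * y) := mul_lt_mul_of_pos_right hexp (Real.exp_pos _)
    _ = d := by rw [← Real.exp_add, hyd]; congr 1; ring

/-- exposed exponents are extreme points of the Newton polytope -/
theorem vert_card_le {k : ℕ} (F : Pol k) :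
    (vert F).card ≤ (Set.extremePoints ℝ (newton F)).ncard := by
  classical
  set f : (Fin k →₀ ℕ) → (Fin k → ℝ) := fun j => fun i => (j i : ℝ) with hf
  have hfinj : Function.Injective f := by
    intro a b hab
    ext i
    have := congrFun hab i
    simp only [hf] at this
    exact_mod_cast this
  have hfin : (Set.extremePoints ℝ (newton F)).Finite := by
    apply Set.Finite.subset ((F.support : Set (Fin k →₀ ℕ)).toFinite.image f)
    exact extremePoints_convexHull_subset
  have hsub : f '' (vert F : Set (Fin k →₀ ℕ)) ⊆ Set.extremePoints ℝ (newton F) := by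
    rintro _ ⟨j, hj, rfl⟩
    have hj : j ∈ vert F := hj
    obtain ⟨hjs, y, hy⟩ := mem_vert.mp hj
    have hdot : ∀ i : Fin k →₀ ℕ, dot y (f i) = wt y i := by
      intro i; rw [dot_apply]; rfl
    -- the polytope lies in `{f j} ∪ {x | wt > }`
    set C : Set (Fin k → ℝ) := {x | x = f j ∨ wt y j < dot y x} with hC
    have hCconv : Convex ℝ C := by
      intro a ha b hb s t hs ht hst
      rcases eq_or_lt_of_le hs with hs0 | hs0
      · rw [← hs0] at hst ⊢
        have : t = 1 := by linarith
        rw [this]; simpa using hb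
      rcases eq_or_lt_of_le ht with ht0 | ht0
      · rw [← ht0] at hst ⊢
        have : s = 1 := by linarith
        rw [this]; simpa using ha
      rcases ha with ha | ha
      · rcases hb with hb | hb
        · left
          rw [ha, hb, ← add_smul, hst, one_smul]
        · right
          rw [map_add, map_smul, map_smul, ha, hdot]
          simp only [smul_eq_mul]
          have : t = 1 - s := by linarith
          subst this
          nlinarith
      · have hb' : wt y j ≤ dot y b := by
          rcases hb with hb | hb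
          · rw [hb, hdot]
          · exact hb.le
        right
        rw [map_add, map_smul, map_smul]
        simp only [smul_eq_mul]
        have : t = 1 - s := by linarith
        subst this
        nlinarith
    have hnC : newton F ⊆ C := by
      apply convexHull_min _ hCconv
      rintro _ ⟨i, hi, rfl⟩
      rcases eq_or_ne i j with h | h
      · left; rw [h]
      · right
        have := hy i hi h
        show wt y j < dot y (f i)
        rw [hdot]; exact this
    rw [mem_extremePoints]
    refine ⟨subset_convexHull ℝ _ ⟨j, hjs, rfl⟩, ?_⟩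
    intro a ha b hb hab
    obtain ⟨s, t, hs, ht, hst, hjab⟩ := hab
    have h1 : wt y j = s * dot y a + t * dot y b := by
      rw [← hdot, ← hjab, map_add, map_smul, map_smul]; rfl
    have ha' : a = f j ∨ wt y j < dot y a := hnC ha
    have hb' : b = f j ∨ wt y j < dot y b := hnC hb
    have ha2 : wt y j ≤ dot y a := by
      rcases ha' with h | h
      · rw [h, hdot]
      · exact h.le
    have hb2 : wt y j ≤ dot y b := by
      rcases hb' with h | h
      · rw [h, hdot]
      · exact h.le
    have ht' : t = 1 - s := by linarith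
    constructor
    · rcases ha' with h | h
      · exact h
      · exfalso
        subst ht'
        nlinarith
    · rcases hb' with h | h
      · exact h
      · exfalso
        subst ht'
        nlinarith
  calc (vert F).card = (f '' (vert F : Set (Fin k →₀ ℕ))).ncard := by
        rw [Set.ncard_image_of_injective _ hfinj, Set.ncard_coe_finset]
    _ ≤ _ := Set.ncard_le_ncard hsub hfin

end Pool.Agent.MP_44c6d5_nt
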