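import Mathlib
import Pool.Agent.MP_44c6d5_nt.Seq
import Pool.Agent.MP_44c6d5_nt.Conv
import Pool.Agent.MP_44c6d5_nt.VertBound

/-!
Domination: if `|A| ^ 2 + |B| ^ 2 ≤ N |P| ^ s` on the torus for coprime `A`, `B`, then the
dimension of `A B` is bounded in terms of `N`, `s` and the Mahler measure of `P`.
-/

namespace Pool.Agent.MP_44c6d5_nt

open Real MvPolynomial MeasureTheory Module

variable {k : ℕ}

/-- The value `P (exp (2 π i t_1), ..., exp (2 π i t_k))`. -/
noncomputable def val (P : Pol k) (t : Fin k → ℝ) : ℂ :=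
  MvPolynomial.aeval (fun i => Complex.exp (2 * Real.pi * Complex.I * t i)) P

theorem exists_arg (z : Tor k) : ∃ t : Fin k → ℝ, ∀ Q : Pol k, ev Q z = val Q t := by
  choose t ht using fun i => QuotientAddGroup.mk_surjective (z i)
  refine ⟨t, fun Q => ?_⟩
  have h1 : (fun i => Complex.exp (2 * π * Complex.I * t i)) = fun i => e (z i) := by
    funext i
    have h3 : z i = ((t i : ℝ) : UnitAddCircle) := (ht i).symm
    rw [h3, e_coe, circleMap]
    simp only [zero_add, Complex.ofReal_one, one_mul]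
    congr 1
    push_cast
    ring
  unfold ev val
  rw [h1]

theorem val_eq (P : Pol k) (t : Fin k → ℝ) :
    val P t = ev P (fun i => ((t i : ℝ) : UnitAddCircle)) := by
  have h1 : (fun i => Complex.exp (2 * π * Complex.I * t i)) =
      fun i => e ((t i : ℝ) : UnitAddCircle) := by
    funext i
    rw [e_coe, circleMap]
    simp only [zero_add, Complex.ofReal_one, one_mul]
    congr 1
    push_cast
    ring
  unfold ev val
  rw [h1]

theorem H_eq_val (A B : Pol k) : H A B =
    ∫ t in Set.Icc (0 : Fin k → ℝ) 1, log (‖val A t‖ ^ 2 + ‖val B t‖ ^ 2) := by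
  have hm : Measurable fun x : Tor k => log (N A B x) := by
    unfold N
    exact Real.measurable_log.comp (((continuous_ev A).norm.pow 2).add
      ((continuous_ev B).norm.pow 2)).measurable
  unfold H
  rw [integral_torus hm]
  simp only [N, val_eq]

/-- The integral of `max 0 (log |P|)` over the torus is the sum of the Mahler measure and of the
integral of `max 0 (- log |P|)`; and `H 1 P` is at most twice it plus `log 2`. -/
theorem H_one_le {P : Pol k} (hP : P ≠ 0) {θ K : ℝ} (hθ : θ < 1)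
    (hK : ∫ t in Set.Icc (0 : Fin k → ℝ) 1, max 0 (-log ‖val P t‖) ≤
      θ * (∫ t in Set.Icc (0 : Fin k → ℝ) 1, max 0 (log ‖val P t‖)) + K) :
    H 1 P ≤ 2 * ((mm P + K) / (1 - θ)) + log 2 := by
  have i0 := integrable_log_ev hP
  have i1 : Integrable fun x : Tor k => max 0 (log ‖ev P x‖) := by
    have := i0.pos_part
    simpa only [max_comm] using this
  have i2 : Integrable fun x : Tor k => max 0 (-log ‖ev P x‖) := by
    have := i0.neg_part
    simpa only [max_comm] using this
  have m0 := measurable_log_ev P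
  have q1 : ∫ t in Set.Icc (0 : Fin k → ℝ) 1, max 0 (log ‖val P t‖) =
      ∫ x : Tor k, max 0 (log ‖ev P x‖) := by
    rw [integral_torus (measurable_const.max m0)]
    simp only [val_eq]
  have q2 : ∫ t in Set.Icc (0 : Fin k → ℝ) 1, max 0 (-log ‖val P t‖) =
      ∫ x : Tor k, max 0 (-log ‖ev P x‖) := by
    have m1 : Measurable fun x : Tor k => max 0 (-log ‖ev P x‖) := measurable_const.max m0.neg
    rw [integral_torus m1]
    simp only [val_eq]
  rw [q1, q2] at hK
  have e1 : mm P = (∫ x : Tor k, max 0 (log ‖ev P x‖)) - ∫ x : Tor k, max 0 (-log ‖ev P x‖) := by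
    rw [← integral_sub i1 i2]
    unfold mm
    congr 1
    ext x
    rcases le_total 0 (log ‖ev P x‖) with h | h
    · rw [max_eq_right h, max_eq_left (by linarith)]; ring
    · rw [max_eq_left h, max_eq_right (by linarith)]; ring
  have e2 : (∫ x : Tor k, max 0 (log ‖ev P x‖)) ≤ (mm P + K) / (1 - θ) := by
    rw [le_div_iff₀ (by linarith)]
    linarith
  have e3 : H 1 P ≤ ∫ x : Tor k, (2 * max 0 (log ‖ev P x‖) + log 2) := by
    unfold H
    apply integral_mono_ae (integrable_logN one_ne_zero P)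
      ((i1.const_mul 2).add (integrable_const _))
    filter_upwards [ae_ev_ne_zero hP] with z hz
    have p2 : 0 < ‖ev P z‖ := norm_pos_iff.mpr hz
    have p3 : N 1 P z = 1 + ‖ev P z‖ ^ 2 := by
      unfold N
      have : ev (1 : Pol k) z = 1 := by simp [ev]
      rw [this]; simp
    show log (N 1 P z) ≤ 2 * max 0 (log ‖ev P z‖) + log 2
    rw [p3]
    have p4 : (0 : ℝ) < 1 + ‖ev P z‖ ^ 2 := by positivity
    rcases le_total 1 ‖ev P z‖ with h | h
    · have h1 : 0 ≤ log ‖ev P z‖ := Real.log_nonneg h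
      rw [max_eq_right h1]
      have h2 : 2 * log ‖ev P z‖ + log 2 = log (‖ev P z‖ ^ 2 * 2) := by
        rw [Real.log_mul (by positivity) (by norm_num), Real.log_pow]
        norm_num
      rw [h2]
      apply Real.log_le_log p4
      nlinarith
    · have h1 : log ‖ev P z‖ ≤ 0 := Real.log_nonpos p2.le h
      rw [max_eq_left h1, mul_zero, zero_add]
      apply Real.log_le_log p4
      nlinarith
  rw [integral_add (i1.const_mul 2) (integrable_const _), integral_const_mul] at e3
  simp only [integral_const, probReal_univ, smul_eq_mul, one_mul] at e3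
  linarith

theorem mm_face_dvd_le {F P : Pol k} (y : Fin k → ℝ) (hF : F ≠ 0) (hPF : P ∣ ini y F) :
    P ≠ 0 ∧ mm P ≤ mahler F := by
  have hini := ini_ne_zero y hF
  have hP : P ≠ 0 := by
    rintro rfl
    exact hini (zero_dvd_iff.mp hPF)
  have h1 := mm_dvd_le hini hPF
  have h2 := mm_ini_le y hF
  refine ⟨hP, ?_⟩
  rw [mahler_eq]
  linarith

theorem ndim_mul_le {A B : Pol k} (hA : A ≠ 0) (hB : B ≠ 0) (hAB : IsRelPrime A B) {h : ℝ}
    (hH : H A B ≤ h) : (k : ℝ) - finrank ℝ (LL A B) ≤ Phi h := by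
  have h3 := codim_le_Phi hA hB hAB hH
  linarith

theorem H_le_of_dom {A B P : Pol k} (hA : A ≠ 0) (hP : P ≠ 0) {N' s : ℝ} (hN : 0 < N')
    (hdom : ∀ z : Tor k, ‖ev A z‖ ^ 2 + ‖ev B z‖ ^ 2 ≤ N' * ‖ev P z‖ ^ s) :
    H A B ≤ log N' + s * mm P := by
  have e1 : H A B ≤ ∫ z : Tor k, (log N' + s * log ‖ev P z‖) := by
    unfold H
    apply integral_mono_ae (integrable_logN hA B)
      ((integrable_const _).add ((integrable_log_ev hP).const_mul s))
    filter_upwards [ae_ev_ne_zero hA, ae_ev_ne_zero hP] with z hz1 hz2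
    have p1 := N_pos B hz1
    have p2 : 0 < ‖ev P z‖ := norm_pos_iff.mpr hz2
    show log (N A B z) ≤ log N' + s * log ‖ev P z‖
    rw [← Real.log_rpow p2, ← Real.log_mul hN.ne' (Real.rpow_pos_of_pos p2 s).ne']
    exact Real.log_le_log p1 (hdom z)
  have e2 : ∫ z : Tor k, (log N' + s * log ‖ev P z‖) = log N' + s * mm P := by
    rw [integral_add (integrable_const _) ((integrable_log_ev hP).const_mul s),
      integral_const_mul]
    simp [mm]
  linarith

theorem ev_monomial_one (x : Tor k) (j : Fin k →₀ ℕ) :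
    ev (monomial j (1 : ℤ)) x = mon x j := by
  unfold ev mon
  rw [aeval_monomial]
  simp [Finsupp.prod_fintype]

theorem ev_rev (P : Pol k) (x : Tor k) :
    ev (rev P) x = mon x (dg P) * (starRingEnd ℂ) (ev P x) := by
  classical
  rw [ev_eq_sum, support_rev, Finset.sum_image, ev_eq_sum, map_sum, Finset.mul_sum]
  · apply Finset.sum_congr rfl
    intro j hj
    rw [coeff_rev P hj, map_mul]
    have h2 : mon x (dg P) = mon x (dg P - j) * mon x j := by
      rw [← mon_add, tsub_add_cancel_of_le (le_dg hj)]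
    have h3 : mon x j * (starRingEnd ℂ) (mon x j) = 1 := by
      rw [Complex.mul_conj, Complex.normSq_eq_norm_sq, norm_mon]; simp
    have h4 : (starRingEnd ℂ) ((coeff j P : ℤ) : ℂ) = ((coeff j P : ℤ) : ℂ) := by simp
    rw [h4, h2]
    calc ((coeff j P : ℤ) : ℂ) * mon x (dg P - j)
        = ((coeff j P : ℤ) : ℂ) * mon x (dg P - j) * (mon x j * (starRingEnd ℂ) (mon x j)) := by
          rw [h3, mul_one]
      _ = _ := by ring
  · intro i hi j hj h
    simp only at h
    have h1 : dg P - (dg P - i) = dg P - (dg P - j) := by rw [h]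
    rwa [tsub_tsub_cancel_of_le (le_dg hi), tsub_tsub_cancel_of_le (le_dg hj)] at h1

theorem ev_mul_rev (P : Pol k) (x : Tor k) :
    ev (P * rev P) x = mon x (dg P) * ((‖ev P x‖ ^ 2 : ℝ) : ℂ) := by
  rw [ev_mul, ev_rev]
  calc ev P x * (mon x (dg P) * (starRingEnd ℂ) (ev P x))
      = mon x (dg P) * (ev P x * (starRingEnd ℂ) (ev P x)) := by ring
    _ = _ := by rw [Complex.mul_conj, Complex.normSq_eq_norm_sq]

theorem wt_mul_rev {u : Fin k → ℝ} {A : Pol k} (hu : u ∈ Lam A) {m j : Fin k →₀ ℕ}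
    (hj : j ∈ (monomial m (1 : ℤ) * (A * rev A)).support) :
    wt u j = wt u m + wt u (dg A) := by
  classical
  obtain ⟨a, ha, b, hb, rfl⟩ := Finset.mem_add.mp (support_mul _ _ hj)
  obtain ⟨c, hc, d, hd, rfl⟩ := Finset.mem_add.mp (support_mul _ _ hb)
  obtain ⟨i, hi, rfl⟩ := mem_support_rev hd
  have h0 : a = m := by
    have := support_monomial_subset ha
    simpa using this
  have h1 : wt u (dg A - i) + wt u i = wt u (dg A) := by
    rw [← wt_add, tsub_add_cancel_of_le (le_dg hi)]
  have h2 := hu c hc i hi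
  rw [wt_add, wt_add, h0]
  linarith

theorem sos_Lam {P A B : Pol k} (hP : P ≠ 0)
    (h : ∀ x : Tor k, ‖ev P x‖ = ‖ev A x‖ ^ 2 + ‖ev B x‖ ^ 2) : LL A B ≤ Lam P := by
  classical
  set R : Pol k := monomial (dg B) 1 * (A * rev A) + monomial (dg A) 1 * (B * rev B) with hR
  have e1 : ∀ x, ev R x = mon x (dg A) * mon x (dg B) * ((‖ev P x‖ : ℝ) : ℂ) := by
    intro x
    rw [hR, ev_add, ev_mul (monomial _ _), ev_mul (monomial _ _), ev_mul_rev, ev_mul_rev,
      ev_monomial_one, ev_monomial_one, h x]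
    push_cast
    ring
  have hmon : ∀ j : Fin k →₀ ℕ, (monomial j (1 : ℤ) : Pol k) ≠ 0 := by
    intro j h0
    rw [monomial_eq_zero] at h0
    exact one_ne_zero h0
  have e2 : P * rev P * monomial (dg A + dg B + (dg A + dg B)) 1 = R * R * monomial (dg P) 1 := by
    by_contra hne
    have h1 := sub_ne_zero.mpr hne
    obtain ⟨x, hx⟩ := (ae_ev_ne_zero h1).exists
    apply hx
    rw [ev_sub, ev_mul (P * rev P), ev_mul_rev, ev_mul (R * R), ev_mul R R, e1, ev_monomial_one,
      ev_monomial_one, mon_add, mon_add]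
    push_cast
    ring
  have hPr := mul_ne_zero hP (rev_ne_zero hP)
  have hR0 : R ≠ 0 := by
    intro h0
    rw [h0, zero_mul, zero_mul] at e2
    exact mul_ne_zero hPr (hmon _) e2
  have e3 : Lam R ≤ Lam P := by
    intro u hu
    have h1 : u ∈ Lam (R * R * monomial (dg P) 1) := by
      rw [Lam_mul (mul_ne_zero hR0 hR0) (hmon _), Lam_mul hR0 hR0]
      refine ⟨⟨hu, hu⟩, ?_⟩
      intro j hj j' hj'
      have a1 := support_monomial_subset hj
      have a2 := support_monomial_subset hj'
      rw [Finset.mem_singleton] at a1 a2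
      rw [a1, a2]
    rw [← e2, Lam_mul hPr (hmon _), Lam_mul hP (rev_ne_zero hP)] at h1
    exact h1.1.1
  refine le_trans ?_ e3
  rintro u ⟨huA, huB⟩
  have key : ∀ j ∈ R.support, wt u j = wt u (dg A) + wt u (dg B) := by
    intro j hj
    rcases Finset.mem_union.mp (support_add hj) with h1 | h1
    · rw [wt_mul_rev huA h1, add_comm]
    · rw [wt_mul_rev huB h1]
  intro j hj j' hj'
  rw [key j hj, key j' hj']

end Pool.Agent.MP_44c6d5_nt
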