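import Mathlib
import Pool.Agent.MP_44c6d5_nt.Dom

/-!
Approximate products: an irreducible polynomial whose logarithm is, up to a bounded error in the
mean, a sum of `r` functions each constant in a direction in which the polynomial is not, has
bounded dimension.
-/

namespace Pool.Agent.MP_44c6d5_nt

open Real MvPolynomial MeasureTheory Module

variable {k : ℕ}

theorem integral_torus_ae {h : Tor k → ℝ} (hm : AEStronglyMeasurable h) :
    ∫ x, h x = ∫ t in Set.Icc (0 : Fin k → ℝ) 1, h (fun i => (t i : UnitAddCircle)) := by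
  have h1 : MeasurePreserving (fun (t : Fin k → ℝ) (i : Fin k) => ((t i : ℝ) : UnitAddCircle))
      (Measure.pi fun _ : Fin k => (volume : Measure ℝ).restrict (Set.Ioc 0 (0 + 1)))
      (Measure.pi fun _ : Fin k => (volume : Measure UnitAddCircle)) :=
    measurePreserving_pi _ _ (fun _ => AddCircle.measurePreserving_mk 1 0)
  have h2 : ∫ x, h x = ∫ t, h (fun i => ((t i : ℝ) : UnitAddCircle))
      ∂(Measure.pi fun _ : Fin k => (volume : Measure ℝ).restrict (Set.Ioc 0 (0 + 1))) := by
    have h3 := integral_map h1.measurable.aemeasurable (f := h)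
      (by rw [h1.map_eq]; exact hm)
    rw [h1.map_eq] at h3
    exact h3
  rw [h2, ← Measure.restrict_pi_pi]
  have h4 : (Set.univ.pi fun _ : Fin k => Set.Ioc (0 : ℝ) (0 + 1)) =ᵐ[volume]
      Set.Icc (0 : Fin k → ℝ) 1 := by
    have := Measure.univ_pi_Ioc_ae_eq_Icc (μ := fun _ : Fin k => (volume : Measure ℝ))
      (f := fun _ => 0) (g := fun _ => 0 + 1)
    simp only [zero_add] at this ⊢
    exact this
  exact setIntegral_congr_set h4

/-- mean value along the lines in direction `l` -/
noncomputable def Av (l : Fin k → ℤ) (φ : Tor k → ℝ) (x : Tor k) : ℝ := ∫ t, φ (line l x t)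

theorem line_line (l v : Fin k → ℤ) (x : Tor k) (s t : UnitAddCircle) :
    line l (line v x t) s = line v (line l x s) t := by
  funext i
  unfold line
  abel

theorem Av_of_inv {l : Fin k → ℤ} {g : Tor k → ℝ} (h : ∀ x t, g (line l x t) = g x)
    (x : Tor k) : Av l g x = g x := by
  unfold Av
  simp [h]

theorem Av_inv {l v : Fin k → ℤ} {g : Tor k → ℝ} (h : ∀ x t, g (line v x t) = g x)
    (x : Tor k) (t : UnitAddCircle) : Av l g (line v x t) = Av l g x := by
  unfold Av
  congr 1
  ext s
  rw [line_line, h]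

theorem Av_integrable (l : Fin k → ℤ) {φ : Tor k → ℝ} (h : Integrable φ) :
    Integrable (Av l φ) := integrable_integral_line l h

theorem integral_abs_Av_le (l : Fin k → ℤ) {φ : Tor k → ℝ} (h : Integrable φ) :
    ∫ x, |Av l φ x| ≤ ∫ x, |φ x| := by
  rw [integral_line l h.abs]
  apply integral_mono (Av_integrable l h).abs (Av_integrable l h.abs)
  intro x
  exact abs_integral_le_integral_abs

/-- the defect in Jensen's inequality along the lines in direction `l` -/
noncomputable def defect (l : Fin k → ℤ) (A : Pol k) (x : Tor k) : ℝ :=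
  Av l (fun x => log ‖ev A x‖) x - log ‖ev (ini (rl l) A) x‖

theorem defect_integrable (l : Fin k → ℤ) {A : Pol k} (hA : A ≠ 0) : Integrable (defect l A) :=
  (Av_integrable l (integrable_log_ev hA)).sub (integrable_log_ev (ini_ne_zero (rl l) hA))

theorem integral_abs_defect_le (l : Fin k → ℤ) {A : Pol k} (hA : A ≠ 0) :
    ∫ x, |defect l A x| ≤ mm A := by
  have h0 : ∀ᵐ x : Tor k, |defect l A x| = defect l A x := by
    filter_upwards [ae_ev_ne_zero (ini_ne_zero (rl l) hA)] with x hx
    apply abs_of_nonneg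
    unfold defect Av
    have h1 := hx
    rw [← coeff_zero_up l hA x] at h1
    have h3 := log_coeff_zero_le _ h1
    rw [coeff_zero_up l hA x] at h3
    simp only [norm_ev_line]
    linarith
  rw [integral_congr_ae h0]
  have h1 : ∫ x, defect l A x = mm A - mm (ini (rl l) A) := by
    unfold defect
    rw [integral_sub (Av_integrable l (integrable_log_ev hA))
      (integrable_log_ev (ini_ne_zero (rl l) hA))]
    unfold Av mm
    rw [← integral_line l (integrable_log_ev hA)]
  rw [h1]
  have := mm_nonneg (ini_ne_zero (rl l) hA)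
  linarith

theorem not_dvd_ini_of {P A : Pol k} (hP : P ≠ 0) (hA : A ≠ 0) {v : Fin k → ℝ}
    (h : ini v P ≠ P) : ¬ P ∣ ini v A := by
  rintro ⟨R, hR⟩
  have h1 := ini_ne_zero v hA
  have hR0 : R ≠ 0 := by
    rintro rfl
    rw [mul_zero] at hR
    exact h1 hR
  have h2 := mem_Lam_ini v A
  rw [hR, Lam_mul hP hR0] at h2
  exact h ((ini_eq_self_iff hP).mpr h2.1)

theorem mm_ini_le' (l : Fin k → ℤ) {A : Pol k} (hA : A ≠ 0) : mm (ini (rl l) A) ≤ mm A :=
  mm_ini_le (rl l) hA

/-- **The chain.** -/
theorem chain_prod {P : Pol k} :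
    ∀ (n : ℕ) (A B : Pol k) (v : Fin n → Fin k → ℤ) (g : Fin n → Tor k → ℝ) (K S : ℝ),
      A ≠ 0 → B ≠ 0 → P ∣ A → (∀ q, Irreducible q → q ∣ P → ¬ q ∣ B) →
      (∀ q, Irreducible q → q ∣ P → ∀ i, ini (rl (v i)) q ≠ q) →
      (∀ i, Integrable (g i)) → (∀ i x t, g i (line (v i) x t) = g i x) → mm A + mm B ≤ S →
      ∫ x, |log ‖ev A x‖ - log ‖ev B x‖ - ∑ i, g i x| ≤ K →
      ∃ A' B' : Pol k, A' ≠ 0 ∧ B' ≠ 0 ∧ P ∣ A' ∧ (∀ q, Irreducible q → q ∣ P → ¬ q ∣ B') ∧
        mm A' + mm B' ≤ 2 ^ n * S ∧
        ∫ x, |log ‖ev A' x‖ - log ‖ev B' x‖| ≤ 2 ^ n * K + n * 2 ^ n * S / 2 := by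
  intro n
  induction n with
  | zero =>
    intro A B v g K S hA hB hPA hPB _ _ _ hS hK
    refine ⟨A, B, hA, hB, hPA, hPB, by simpa using hS, ?_⟩
    simpa using hK
  | succ n ih =>
    intro A B v g K S hA hB hPA hPB hv hg hgv hS hK
    set l := v 0 with hl
    set a : Tor k → ℝ := fun x => log ‖ev A x‖ with ha
    set b : Tor k → ℝ := fun x => log ‖ev B x‖ with hb
    have ia : Integrable a := integrable_log_ev hA
    have ib : Integrable b := integrable_log_ev hB
    have hAi := ini_ne_zero (rl l) hA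
    have hBi := ini_ne_zero (rl l) hB
    -- the error
    set er : Tor k → ℝ := fun x => a x - b x - ∑ i, g i x with her
    have ig : Integrable fun x => ∑ i, g i x := integrable_finsetSum _ fun i _ => hg i
    have ier : Integrable er := (ia.sub ib).sub ig
    have hdiv : ∀ q, Irreducible q → q ∣ P → ¬ q ∣ B * ini (rl l) A := by
      intro q hq hqP h
      rcases hq.prime.dvd_or_dvd h with h | h
      · exact hPB q hq hqP h
      · exact not_dvd_ini_of hq.ne_zero hA (hv q hq hqP 0) h
    have hdA := integral_abs_defect_le l hA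
    have hdB := integral_abs_defect_le l hB
    -- new functions
    let g' : Fin n → Tor k → ℝ := fun i x => g i.succ x - Av l (g i.succ) x
    have hg' : ∀ i, Integrable (g' i) := fun i => (hg i.succ).sub (Av_integrable l (hg i.succ))
    have hgv' : ∀ i x t, g' i (line (v i.succ) x t) = g' i x := by
      intro i x t
      show g i.succ (line (v i.succ) x t) - Av l (g i.succ) (line (v i.succ) x t) = _
      rw [hgv i.succ, Av_inv (hgv i.succ)]
    have hm : mm (A * ini (rl l) B) + mm (B * ini (rl l) A) ≤ 2 * S := by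
      rw [mm_mul hA hBi, mm_mul hB hAi]
      have := mm_ini_le' l hA
      have := mm_ini_le' l hB
      linarith
    have hnew : ∀ᵐ x : Tor k,
        log ‖ev (A * ini (rl l) B) x‖ - log ‖ev (B * ini (rl l) A) x‖ - ∑ i, g' i x =
          er x - Av l er x + defect l A x - defect l B x := by
      have hgl : ∀ᵐ x : Tor k, ∀ i, Integrable fun t => g i (line l x t) :=
        ae_all_iff.mpr fun i => ae_integrable_line l (hg i)
      filter_upwards [ae_ev_ne_zero hA, ae_ev_ne_zero hB, ae_ev_ne_zero hAi, ae_ev_ne_zero hBi,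
        ae_integrable_line l ia, ae_integrable_line l ib, hgl] with x h1 h2 h3 h4 h5 h6 h7
      have e1 : Av l er x = Av l a x - Av l b x - ∑ i, Av l (g i) x := by
        unfold Av
        have e2 : ∫ t, er (line l x t) = (∫ t, (a (line l x t) - b (line l x t))) -
            ∫ t, ∑ i, g i (line l x t) :=
          integral_sub (h5.sub h6) (integrable_finsetSum _ fun i _ => h7 i)
        rw [e2, integral_sub h5 h6, integral_finsetSum _ fun i _ => h7 i]
      have e3 : Av l (g 0) x = g 0 x := Av_of_inv (hgv 0) x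
      have e4 : ∑ i, Av l (g i) x = g 0 x + ∑ i : Fin n, Av l (g i.succ) x := by
        rw [Fin.sum_univ_succ, e3]
      have e5 : ∑ i, g i x = g 0 x + ∑ i : Fin n, g i.succ x := by
        rw [Fin.sum_univ_succ]
      have e6 : ∑ i, g' i x = (∑ i : Fin n, g i.succ x) - ∑ i : Fin n, Av l (g i.succ) x := by
        rw [← Finset.sum_sub_distrib]
      have e7 : log ‖ev (A * ini (rl l) B) x‖ = a x + log ‖ev (ini (rl l) B) x‖ := by
        rw [ev_mul, norm_mul, Real.log_mul (norm_pos_iff.mpr h1).ne' (norm_pos_iff.mpr h4).ne']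
      have e8 : log ‖ev (B * ini (rl l) A) x‖ = b x + log ‖ev (ini (rl l) A) x‖ := by
        rw [ev_mul, norm_mul, Real.log_mul (norm_pos_iff.mpr h2).ne' (norm_pos_iff.mpr h3).ne']
      have e9 : er x = a x - b x - ∑ i, g i x := rfl
      have e10 : defect l A x = Av l a x - log ‖ev (ini (rl l) A) x‖ := rfl
      have e11 : defect l B x = Av l b x - log ‖ev (ini (rl l) B) x‖ := rfl
      rw [e7, e8, e6, e9, e1, e10, e11, e4, e5]
      ring
    have hK' : ∫ x, |log ‖ev (A * ini (rl l) B) x‖ - log ‖ev (B * ini (rl l) A) x‖ -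
        ∑ i, g' i x| ≤ 2 * K + S := by
      have iAv := Av_integrable l ier
      have idA := defect_integrable l hA
      have idB := defect_integrable l hB
      have e1 : ∫ x, |log ‖ev (A * ini (rl l) B) x‖ - log ‖ev (B * ini (rl l) A) x‖ -
          ∑ i, g' i x| = ∫ x, |er x - Av l er x + defect l A x - defect l B x| := by
        apply integral_congr_ae
        filter_upwards [hnew] with x hx
        rw [hx]
      rw [e1]
      have e2 : ∫ x, |er x - Av l er x + defect l A x - defect l B x| ≤
          ∫ x, (|er x| + |Av l er x| + |defect l A x| + |defect l B x|) := by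
        apply integral_mono (((ier.sub iAv).add idA).sub idB).abs
          (((ier.abs.add iAv.abs).add idA.abs).add idB.abs)
        intro x
        show |er x - Av l er x + defect l A x - defect l B x| ≤
          |er x| + |Av l er x| + |defect l A x| + |defect l B x|
        rw [abs_le]
        have h1 := abs_le.mp (le_refl |er x|)
        have h2 := abs_le.mp (le_refl |Av l er x|)
        have h3 := abs_le.mp (le_refl |defect l A x|)
        have h4 := abs_le.mp (le_refl |defect l B x|)
        constructor <;> linarith [h1.1, h1.2, h2.1, h2.2, h3.1, h3.2, h4.1, h4.2]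
      have e3 : ∫ x, (|er x| + |Av l er x| + |defect l A x| + |defect l B x|) =
          (∫ x, |er x|) + (∫ x, |Av l er x|) + (∫ x, |defect l A x|) + ∫ x, |defect l B x| := by
        have i1 : Integrable fun x => |er x| + |Av l er x| := ier.abs.add iAv.abs
        have i2 : Integrable fun x => |er x| + |Av l er x| + |defect l A x| := i1.add idA.abs
        rw [integral_add i2 idB.abs, integral_add i1 idA.abs, integral_add ier.abs iAv.abs]
      have e4 := integral_abs_Av_le l ier
      have e5 : ∫ x, |er x| ≤ K := hK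
      linarith
    obtain ⟨A', B', r1, r2, r3, r4, r5, r6⟩ := ih (A * ini (rl l) B) (B * ini (rl l) A)
      (fun i => v i.succ) g' (2 * K + S) (2 * S) (mul_ne_zero hA hBi) (mul_ne_zero hB hAi)
      (hPA.mul_right _) hdiv (fun q hq hqP i => hv q hq hqP i.succ) hg' hgv' hm hK'
    refine ⟨A', B', r1, r2, r3, r4, ?_, ?_⟩
    · calc mm A' + mm B' ≤ 2 ^ n * (2 * S) := r5
        _ = 2 ^ (n + 1) * S := by ring
    · refine r6.trans (le_of_eq ?_)
      push_cast
      ring

theorem H_le_L1 {A B : Pol k} (hA : A ≠ 0) (hB : B ≠ 0) :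
    H A B ≤ mm A + mm B + (∫ x, |log ‖ev A x‖ - log ‖ev B x‖|) + log 2 := by
  have iA := integrable_log_ev hA
  have iB := integrable_log_ev hB
  have e3 : H A B ≤ ∫ x : Tor k,
      (log ‖ev A x‖ + log ‖ev B x‖ + |log ‖ev A x‖ - log ‖ev B x‖| + log 2) := by
    unfold H
    apply integral_mono_ae (integrable_logN hA B)
      (((iA.add iB).add (iA.sub iB).abs).add (integrable_const _))
    filter_upwards [ae_ev_ne_zero hA, ae_ev_ne_zero hB] with z hz hz'
    have p1 : 0 < ‖ev A z‖ := norm_pos_iff.mpr hz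
    have p2 : 0 < ‖ev B z‖ := norm_pos_iff.mpr hz'
    show log (N A B z) ≤ log ‖ev A z‖ + log ‖ev B z‖ + |log ‖ev A z‖ - log ‖ev B z‖| + log 2
    have p3 : 0 < N A B z := N_pos B hz
    unfold N at p3 ⊢
    rcases le_total ‖ev B z‖ ‖ev A z‖ with h | h
    · have h1 := Real.log_le_log p2 h
      rw [abs_of_nonneg (by linarith)]
      have h2 : log ‖ev A z‖ + log ‖ev B z‖ + (log ‖ev A z‖ - log ‖ev B z‖) + log 2 =
          log (‖ev A z‖ ^ 2 * 2) := by
        rw [Real.log_mul (by positivity) (by norm_num), Real.log_pow]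
        push_cast
        ring
      rw [h2]
      apply Real.log_le_log p3
      nlinarith
    · have h1 := Real.log_le_log p1 h
      rw [abs_of_nonpos (by linarith)]
      have h2 : log ‖ev A z‖ + log ‖ev B z‖ + -(log ‖ev A z‖ - log ‖ev B z‖) + log 2 =
          log (‖ev B z‖ ^ 2 * 2) := by
        rw [Real.log_mul (by positivity) (by norm_num), Real.log_pow]
        push_cast
        ring
      rw [h2]
      apply Real.log_le_log p3
      nlinarith
  have i1 : Integrable fun x : Tor k => log ‖ev A x‖ + log ‖ev B x‖ := iA.add iB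
  have i3 : Integrable fun x : Tor k => |log ‖ev A x‖ - log ‖ev B x‖| := (iA.sub iB).abs
  have i2 : Integrable fun x : Tor k =>
      log ‖ev A x‖ + log ‖ev B x‖ + |log ‖ev A x‖ - log ‖ev B x‖| := i1.add i3
  have e4 : ∫ x : Tor k,
      (log ‖ev A x‖ + log ‖ev B x‖ + |log ‖ev A x‖ - log ‖ev B x‖| + log 2) =
      mm A + mm B + (∫ x, |log ‖ev A x‖ - log ‖ev B x‖|) + log 2 := by
    rw [integral_add i2 (integrable_const _), integral_add i1 i3, integral_add iA iB]
    simp [mm]
  linarith

/-- **Approximate products**, core: if `log |F|` is dominated on average by a sum of functions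
constant along `v_i`, then a divisor of `F` without irreducible factors constant along some `v_i`
has bounded dimension. -/
theorem ndim_le_core {F P : Pol k} (hF : F ≠ 0) (hPF : P ∣ F) {n : ℕ} (v : Fin n → Fin k → ℤ)
    (g : Fin n → Tor k → ℝ) {K R M : ℝ}
    (hv : ∀ q, Irreducible q → q ∣ P → ∀ i, ini (rl (v i)) q ≠ q)
    (hg : ∀ i, Integrable (g i)) (hgv : ∀ i x t, g i (line (v i) x t) = g i x)
    (hM : mm F ≤ M) (hK : ∫ x, max 0 (log ‖ev F x‖ - ∑ i, g i x) ≤ K)
    (hR : ∫ x, ∑ i, g i x ≤ R) :
    (ndim P : ℝ) ≤ Phi (2 ^ n * (2 * K + R) + n * 2 ^ n / 2 * M + log 2) := by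
  have hP : P ≠ 0 := by
    rintro rfl
    exact hF (zero_dvd_iff.mp hPF)
  have h1 : ∀ x : Tor k, ev (1 : Pol k) x = 1 := by intro x; simp [ev]
  have iF := integrable_log_ev hF
  have ig : Integrable fun x => ∑ i, g i x := integrable_finsetSum _ fun i _ => hg i
  have iφ : Integrable fun x : Tor k => log ‖ev F x‖ - ∑ i, g i x := iF.sub ig
  have iφp : Integrable fun x : Tor k => max 0 (log ‖ev F x‖ - ∑ i, g i x) := by
    have := iφ.pos_part
    simpa only [max_comm] using this
  have hL1 : ∫ x, |log ‖ev F x‖ - ∑ i, g i x| ≤ 2 * K + R - mm F := by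
    have e1 : ∫ x, |log ‖ev F x‖ - ∑ i, g i x| =
        2 * (∫ x, max 0 (log ‖ev F x‖ - ∑ i, g i x)) - (mm F - ∫ x, ∑ i, g i x) := by
      unfold mm
      rw [← integral_sub iF ig, ← integral_const_mul, ← integral_sub (iφp.const_mul 2) iφ]
      congr 1
      ext x
      rcases le_total 0 (log ‖ev F x‖ - ∑ i, g i x) with h | h
      · rw [abs_of_nonneg h, max_eq_right h]; ring
      · rw [abs_of_nonpos h, max_eq_left h]; ring
    rw [e1]
    linarith
  obtain ⟨A, B, hA, hB, hPA, hPB, hm, hL⟩ := chain_prod (P := P) n F 1 v g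
    (2 * K + R - mm F) (mm F) hF one_ne_zero hPF
    (fun q hq _ h => hq.not_isUnit (isUnit_of_dvd_one h)) hv hg hgv
    (by
      have : mm (1 : Pol k) = 0 := by unfold mm; simp [h1]
      linarith)
    (by simpa [h1] using hL1)
  have hH := H_le_L1 hA hB
  have hH' : H A B ≤ 2 ^ n * (2 * K + R) + n * 2 ^ n / 2 * M + log 2 := by
    have e : (n : ℝ) * 2 ^ n / 2 * mm F ≤ n * 2 ^ n / 2 * M :=
      mul_le_mul_of_nonneg_left hM (by positivity)
    have e2 : (2 : ℝ) ^ n * (2 * K + R - mm F) + n * 2 ^ n * mm F / 2 + 2 ^ n * mm F =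
        2 ^ n * (2 * K + R) + n * 2 ^ n / 2 * mm F := by ring
    linarith
  obtain ⟨A', B', D, hrel, hA', hB'⟩ := UniqueFactorizationMonoid.exists_reduced_factors A hA B
  have hD : D ≠ 0 := by
    rintro rfl
    rw [zero_mul] at hA'
    exact hA hA'.symm
  have hA0 : A' ≠ 0 := by
    rintro rfl
    rw [mul_zero] at hA'
    exact hA hA'.symm
  have hB0 : B' ≠ 0 := by
    rintro rfl
    rw [mul_zero] at hB'
    exact hB hB'.symm
  have hPD : IsRelPrime P D := by
    apply WfDvdMonoid.isRelPrime_of_no_irreducible_factors (fun h => hP h.1)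
    intro q hq hqP hqD
    exact hPB q hq hqP (hB' ▸ hqD.mul_right B')
  have hPA' : P ∣ A' := by
    rw [← hA'] at hPA
    exact hPD.dvd_of_dvd_mul_left hPA
  have hH2 : H A' B' ≤ 2 ^ n * (2 * K + R) + n * 2 ^ n / 2 * M + log 2 := by
    have h2 := H_mul hD hA0 B'
    rw [hA', hB'] at h2
    have h3 := mm_nonneg hD
    linarith
  have h3 := codim_le_Phi hA0 hB0 hrel hH2
  have h4 := ndim_add_le P
  have h5 : LL A' B' ≤ Lam P := by
    obtain ⟨R', hR'⟩ := hPA'
    have hR0 : R' ≠ 0 := by
      rintro rfl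
      rw [mul_zero] at hR'
      exact hA0 hR'
    intro u hu
    have h6 : u ∈ Lam A' := hu.1
    rw [hR', Lam_mul hP hR0] at h6
    exact h6.1
  have h6 : finrank ℝ (LL A' B') ≤ finrank ℝ (Lam P) := Submodule.finrank_mono h5
  have h7 : (ndim P : ℝ) + finrank ℝ (LL A' B') ≤ k := by
    have : ndim P + finrank ℝ (LL A' B') ≤ k := by omega
    exact_mod_cast this
  linarith

theorem Lam_unit {u : Pol k} (hu : IsUnit u) : Lam u = ⊤ := by
  obtain ⟨w, hw⟩ := hu.exists_right_inv
  have hu0 : u ≠ 0 := hu.ne_zero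
  have hw0 : w ≠ 0 := by
    rintro rfl
    rw [mul_zero] at hw
    exact zero_ne_one hw
  have h1 : Lam (1 : Pol k) = ⊤ := by
    rw [eq_top_iff]
    intro y _ j hj j' hj'
    have a1 : j ∈ (1 : Pol k).support := hj
    have a2 : j' ∈ (1 : Pol k).support := hj'
    rw [← C_1, C_apply] at a1 a2
    have b1 := support_monomial_subset a1
    have b2 := support_monomial_subset a2
    rw [Finset.mem_singleton] at b1 b2
    rw [b1, b2]
  rw [← hw, Lam_mul hu0 hw0] at h1
  rw [eq_top_iff, ← h1]
  exact inf_le_left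

/-- splitting off the factors which are constant along one of the `v_i` -/
theorem exists_splitting {n : ℕ} (v : Fin n → Fin k → ℝ) (F : Pol k) : F ≠ 0 →
    ∃ (P : Pol k) (Q : Fin n → Pol k), F = P * ∏ i, Q i ∧ (∀ i, Q i ≠ 0) ∧
      (∀ i, v i ∈ Lam (Q i)) ∧
      (∀ q, Irreducible q → q ∣ P → ∀ i, ini (v i) q ≠ q) := by
  classical
  refine WfDvdMonoid.induction_on_irreducible F ?_ ?_ ?_
  · intro h
    exact absurd rfl h
  · intro u hu _
    refine ⟨u, fun _ => 1, by simp, fun _ => one_ne_zero, fun i => ?_, ?_⟩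
    · rw [Lam_unit isUnit_one]
      exact Submodule.mem_top
    · intro q hq hqu
      exact absurd (isUnit_of_dvd_unit hqu hu) hq.not_isUnit
  · intro a q ha hq ih _
    obtain ⟨P, Q, h1, h2, h3, h4⟩ := ih ha
    have hP0 : P ≠ 0 := by
      rintro rfl
      rw [zero_mul] at h1
      exact ha h1
    by_cases hc : ∃ i, ini (v i) q = q
    · obtain ⟨i, hi⟩ := hc
      refine ⟨P, Function.update Q i (q * Q i), ?_, ?_, ?_, h4⟩
      · rw [Finset.prod_update_of_mem (Finset.mem_univ i), h1,
          ← Finset.mul_prod_erase Finset.univ Q (Finset.mem_univ i), Finset.sdiff_singleton_eq_erase]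
        ring
      · intro j
        by_cases hj : j = i
        · rw [hj, Function.update_self]
          exact mul_ne_zero hq.ne_zero (h2 i)
        · rw [Function.update_of_ne hj]
          exact h2 j
      · intro j
        by_cases hj : j = i
        · rw [hj, Function.update_self, Lam_mul hq.ne_zero (h2 i)]
          exact ⟨(ini_eq_self_iff hq.ne_zero).mp hi, h3 i⟩
        · rw [Function.update_of_ne hj]
          exact h3 j
    · push Not at hc
      refine ⟨q * P, Q, by rw [h1]; ring, h2, h3, ?_⟩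
      intro q' hq' hd i
      rcases hq'.prime.dvd_or_dvd hd with h | h
      · intro heq
        apply hc i
        rw [ini_eq_self_iff hq'.ne_zero] at heq
        rw [ini_eq_self_iff hq.ne_zero]
        have h5 : q ∣ q' := (hq'.associated_of_dvd hq h).symm.dvd
        obtain ⟨w, hw⟩ := h5
        have hw0 : w ≠ 0 := by
          rintro rfl
          rw [mul_zero] at hw
          exact hq'.ne_zero hw
        rw [hw, Lam_mul hq.ne_zero hw0] at heq
        exact heq.1
      · exact h4 q' hq' h i

end Pool.Agent.MP_44c6d5_nt
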