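import Mathlib
import Pool.Agent.MP_44c6d5_nt.Seq

/-!
Isolation of the logarithm of an irreducible polynomial of large dimension.
-/

namespace Pool.Agent.MP_44c6d5_nt.IsolationVariant

open Pool.Agent.MP_44c6d5_nt Filter Real MvPolynomial MeasureTheory Topology

/-- the mean over the torus of the positive part of `log |Q / F|` -/
noncomputable def excess {k : ℕ} (F Q : MvPolynomial (Fin k) ℤ) : ℝ :=
  ∫ t in Set.Icc (0 : Fin k → ℝ) 1,
    max (Real.log ‖MvPolynomial.aeval (fun i => Complex.exp (2 * Real.pi * Complex.I * t i)) Q‖ -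
      Real.log ‖MvPolynomial.aeval (fun i => Complex.exp (2 * Real.pi * Complex.I * t i)) F‖) 0

lemma excess_eq {k : ℕ} (F Q : Pol k) :
    excess F Q = ∫ x : Tor k, max (log ‖ev Q x‖ - log ‖ev F x‖) 0 := by
  unfold excess
  have hm : Measurable (fun x : Tor k => max (log ‖ev Q x‖ - log ‖ev F x‖) 0) :=
    ((measurable_log_ev Q).sub (measurable_log_ev F)).max measurable_const
  rw [integral_torus hm]
  congr 1
  ext t
  have h1 : (fun i => Complex.exp (2 * π * Complex.I * t i)) =
      fun i => e ((t i : ℝ) : UnitAddCircle) := by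
    funext i
    rw [e_coe, circleMap]
    simp only [zero_add, Complex.ofReal_one, one_mul]
    congr 1
    push_cast
    ring
  unfold ev
  rw [h1]

lemma excess_nonneg {k : ℕ} (F Q : Pol k) : 0 ≤ excess F Q := by
  rw [excess_eq]
  exact integral_nonneg (fun _ => le_max_right _ _)

lemma H_le_excess {k : ℕ} {F Q : Pol k} (hF : F ≠ 0) (hQ : Q ≠ 0) :
    H F Q ≤ 2 * mahler F + 2 * excess F Q + log 2 := by
  rw [mahler_eq, excess_eq]
  have hIF := integrable_log_ev hF
  have hIQ := integrable_log_ev hQ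
  have hIm : Integrable (fun x : Tor k => max (log ‖ev Q x‖ - log ‖ev F x‖) 0) :=
    (hIQ.sub hIF).pos_part
  have hI1 : Integrable (fun x : Tor k => 2 * log ‖ev F x‖) := hIF.const_mul 2
  have hI2 : Integrable (fun x : Tor k => 2 * max (log ‖ev Q x‖ - log ‖ev F x‖) 0) :=
    hIm.const_mul 2
  have hI12 : Integrable (fun x : Tor k => 2 * log ‖ev F x‖ +
      2 * max (log ‖ev Q x‖ - log ‖ev F x‖) 0) := hI1.add hI2
  have h1 : ∫ x : Tor k, (2 * log ‖ev F x‖ + 2 * max (log ‖ev Q x‖ - log ‖ev F x‖) 0 + log 2) =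
      2 * mm F + 2 * (∫ x : Tor k, max (log ‖ev Q x‖ - log ‖ev F x‖) 0) + log 2 := by
    rw [integral_add hI12 (integrable_const _), integral_add hI1 hI2, integral_const_mul,
      integral_const_mul]
    simp [mm]
  rw [← h1]
  unfold H
  apply integral_mono_ae (integrable_logN hF Q) (hI12.add (integrable_const _))
  filter_upwards [ae_ev_ne_zero hF, ae_ev_ne_zero hQ] with x h2 h3
  have h4 : 0 < ‖ev F x‖ := norm_pos_iff.mpr h2
  have h5 : 0 < ‖ev Q x‖ := norm_pos_iff.mpr h3
  show log (N F Q x) ≤ 2 * log ‖ev F x‖ + 2 * max (log ‖ev Q x‖ - log ‖ev F x‖) 0 + log 2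
  unfold N
  rcases le_total ‖ev Q x‖ ‖ev F x‖ with h | h
  · have h6 : ‖ev F x‖ ^ 2 + ‖ev Q x‖ ^ 2 ≤ 2 * ‖ev F x‖ ^ 2 := by
      have := pow_le_pow_left₀ h5.le h 2
      linarith
    have h7 := Real.log_le_log (by positivity) h6
    rw [Real.log_mul (by norm_num) (by positivity), Real.log_pow] at h7
    push_cast at h7
    have h8 := le_max_right (log ‖ev Q x‖ - log ‖ev F x‖) 0
    linarith
  · have h6 : ‖ev F x‖ ^ 2 + ‖ev Q x‖ ^ 2 ≤ 2 * ‖ev Q x‖ ^ 2 := by
      have := pow_le_pow_left₀ h4.le h 2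
      linarith
    have h7 := Real.log_le_log (by positivity) h6
    rw [Real.log_mul (by norm_num) (by positivity), Real.log_pow] at h7
    push_cast at h7
    have h8 := le_max_left (log ‖ev Q x‖ - log ‖ev F x‖) 0
    linarith

lemma growth' (α c : ℝ) (hα : 0 ≤ α) (hc0 : 0 ≤ c) (hc : 12 * c < 1) :
    ∀ᶠ d : ℝ in atTop, Phi (α + 2 * (c * log d)) < d := by
  have hl3 : 0 ≤ log 3 := Real.log_nonneg (by norm_num)
  set ε : ℝ := 1 - 12 * c with hε
  have hε0 : 0 < ε := by rw [hε]; linarith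
  set K : ℝ := 9 * (α + 2 * c) * (2 * (α + 2 * c) + log 3) * exp (6 * α) with hK
  have hK0 : 0 ≤ K := by positivity
  have ht : Tendsto (fun y : ℝ => y ^ 2 * exp (-ε * y)) atTop (𝓝 0) := by
    have h := Real.tendsto_pow_mul_exp_neg_atTop_nhds_zero 2
    have h2 : Tendsto (fun y : ℝ => ε * y) atTop atTop := tendsto_id.const_mul_atTop hε0
    have h3 := (h.comp h2).const_mul (ε ^ 2)⁻¹
    rw [mul_zero] at h3
    refine h3.congr fun y => ?_
    simp only [Function.comp_apply]
    have : (ε ^ 2)⁻¹ * ((ε * y) ^ 2 * exp (-(ε * y))) =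
      ((ε ^ 2)⁻¹ * ε ^ 2) * (y ^ 2 * exp (-(ε * y))) := by ring
    rw [this, inv_mul_cancel₀ (by positivity), one_mul, neg_mul]
  have ht2 : Tendsto (fun y : ℝ => K * (y ^ 2 * exp (-ε * y))) atTop (𝓝 0) := by
    have := ht.const_mul K
    rwa [mul_zero] at this
  have hlog : Tendsto (fun d : ℝ => log d) atTop atTop := Real.tendsto_log_atTop
  filter_upwards [hlog.eventually (ht2.eventually_lt_const one_pos),
    hlog.eventually_ge_atTop 1, eventually_gt_atTop 0] with d h1 h2 h3
  set y := log d with hy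
  have hd : d = exp y := by rw [hy, Real.exp_log h3]
  have h4 : α + 2 * (c * y) ≤ (α + 2 * c) * y := by nlinarith
  have h5 : 2 * (α + 2 * (c * y)) + log 3 ≤ (2 * (α + 2 * c) + log 3) * y := by nlinarith
  have h6 : 0 ≤ α + 2 * (c * y) := by positivity
  have h7 : 9 * (α + 2 * (c * y)) * (2 * (α + 2 * (c * y)) + log 3) ≤
      9 * (α + 2 * c) * (2 * (α + 2 * c) + log 3) * y ^ 2 := by
    calc 9 * (α + 2 * (c * y)) * (2 * (α + 2 * (c * y)) + log 3)
        ≤ 9 * ((α + 2 * c) * y) * ((2 * (α + 2 * c) + log 3) * y) := by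
          apply mul_le_mul (by linarith) h5 (by positivity) (by positivity)
      _ = _ := by ring
  have h8 : exp (6 * (α + 2 * (c * y))) = exp (6 * α) * (exp (-ε * y) * exp y) := by
    rw [← Real.exp_add, ← Real.exp_add]; congr 1; rw [hε]; ring
  calc Phi (α + 2 * (c * y)) = 9 * (α + 2 * (c * y)) * (2 * (α + 2 * (c * y)) + log 3) *
        exp (6 * (α + 2 * (c * y))) := rfl
    _ ≤ (9 * (α + 2 * c) * (2 * (α + 2 * c) + log 3) * y ^ 2) * exp (6 * (α + 2 * (c * y))) :=
        mul_le_mul_of_nonneg_right h7 (Real.exp_pos _).le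
    _ = (K * (y ^ 2 * exp (-ε * y))) * exp y := by rw [h8, hK]; ring
    _ < 1 * exp y := mul_lt_mul_of_pos_right h1 (Real.exp_pos _)
    _ = d := by rw [one_mul, hd]

/-- If irreducible polynomials `F n` whose dimensions tend to infinity admit nonzero integer
polynomials `Q n`, not divisible by `F n`, for which the mean of the positive part of
`log |Q n / F n|` is at most `c log (dim F n)` with a constant `c < 1/12`, then for every nonzero
integer polynomial `G` only finitely many `n` satisfy `m(F n) ≤ x` for some `x` in `M(G)`. -/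
theorem result (κ : ℕ → ℕ) (F Q : ∀ n, MvPolynomial (Fin (κ n)) ℤ) (c : ℝ) (hc : c < 1 / 12)
    (hF : ∀ n, Irreducible (F n)) (hQ : ∀ n, Q n ≠ 0) (hFQ : ∀ n, ¬ F n ∣ Q n)
    (hdim : Tendsto (fun n => ndim (F n)) atTop atTop)
    (hex : ∀ n, excess (F n) (Q n) ≤ c * log (ndim (F n)))
    (q : ℕ) (G : MvPolynomial (Fin q) ℤ) (hG : G ≠ 0) :
    {n | ∃ x ∈ MSet G, mahler (F n) ≤ x}.Finite := by
  have hlen : 0 ≤ log (len G) := Real.log_nonneg (one_le_len hG)
  have hl2 : 0 ≤ log 2 := Real.log_nonneg (by norm_num)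
  set α : ℝ := 2 * log (len G) + log 2 with hα
  have hα0 : 0 ≤ α := by positivity
  have hdim' : Tendsto (fun n => (ndim (F n) : ℝ)) atTop atTop :=
    tendsto_natCast_atTop_atTop.comp hdim
  have hgr := hdim'.eventually (growth' α (max c 0) hα0 (le_max_right _ _)
    (by rcases max_choice c 0 with h | h <;> rw [h] <;> linarith))
  have hone := hdim.eventually_ge_atTop 1
  have key := hgr.and hone
  rw [← Nat.cofinite_eq_atTop] at key
  apply Set.Finite.subset key
  rintro n ⟨x, hx, hmx⟩ ⟨hcon1, hcon2⟩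
  have h1 := MSet_bdd hG hx
  have h2 : (1 : ℝ) ≤ ndim (F n) := by exact_mod_cast hcon2
  have h3 : 0 ≤ log (ndim (F n)) := Real.log_nonneg h2
  have h4 : c * log (ndim (F n)) ≤ max c 0 * log (ndim (F n)) :=
    mul_le_mul_of_nonneg_right (le_max_left _ _) h3
  have h5 := hex n
  have h6 : H (F n) (Q n) ≤ α + 2 * (max c 0 * log (ndim (F n))) := by
    refine (H_le_excess (hF n).ne_zero (hQ n)).trans ?_
    rw [hα]; linarith
  have h7 := ndim_le (hF n) (hQ n) (hFQ n) h6
  linarith

end Pool.Agent.MP_44c6d5_nt.IsolationVariant
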