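import Mathlib
import Pool.Agent.MP_44c6d5_nt.VertBound

/-!
Parallelepipeds spanned by vertices of the exponent polytope.
-/

namespace Pool.Agent.MP_44c6d5_nt

open MeasureTheory Real MvPolynomial Module Filter Topology

variable {k : ℕ}

/-- a proper subspace lies in a hyperplane -/
theorem exists_dot {W : Submodule ℝ (Fin k → ℝ)} (h : W ≠ ⊤) :
    ∃ a : Fin k → ℝ, a ≠ 0 ∧ W ≤ LinearMap.ker (dot a) := by
  obtain ⟨f, hf0, hf⟩ := Submodule.exists_le_ker_of_lt_top W (lt_top_iff_ne_top.mpr h)
  have hfd : f = dot (fun i => f (Pi.single i 1)) := by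
    apply LinearMap.ext
    intro x
    rw [dot_apply, LinearMap.pi_apply_eq_sum_univ f x]
    apply Finset.sum_congr rfl
    intro i _
    have : (fun j => if i = j then (1 : ℝ) else 0) = Pi.single i 1 := by
      ext j
      by_cases hij : i = j
      · subst hij; simp
      · rw [if_neg hij, Pi.single_eq_of_ne (Ne.symm hij)]
    rw [this, smul_eq_mul, mul_comm]
  refine ⟨fun i => f (Pi.single i 1), ?_, ?_⟩
  · intro h0
    apply hf0
    rw [hfd, h0]
    apply LinearMap.ext
    intro x
    rw [dot_apply]; simp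
  · rw [← hfd]; exact hf

theorem vert_of_mem_ini {F : Pol k} {v : Fin k →₀ ℕ} {y : Fin k → ℝ} (hv : v ∈ vert F)
    (h : v ∈ (ini y F).support) : v ∈ vert (ini y F) := by
  obtain ⟨_, y0, hy0⟩ := mem_vert.mp hv
  exact mem_vert.mpr ⟨h, y0, fun i hi hne => hy0 i (mem_support_ini.mp hi).1 hne⟩

/-- a facet through the vertex `v` whose normal avoids a given hyperplane of functionals -/
theorem exists_facet_at {F : Pol k} (hF : F ≠ 0) {v : Fin k →₀ ℕ} (hv : v ∈ vert F)
    {a : Fin k → ℝ} (ha : a ≠ 0) (hY : Lam F ≤ LinearMap.ker (dot a)) :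
    ∃ y, dot a y ≠ 0 ∧ v ∈ (ini y F).support ∧
      finrank ℝ (Lam (ini y F)) = finrank ℝ (Lam F) + 1 := by
  classical
  have hex : ∃ m : ℕ, ∃ y, (dot a y ≠ 0 ∧ v ∈ (ini y F).support) ∧
      finrank ℝ (Lam (ini y F)) = m := by
    have : ∃ y, dot a y ≠ 0 ∧ v ∈ (ini y F).support := by
      obtain ⟨y0, hy0⟩ := isVert_iff.mp (mem_vert.mp hv)
      by_cases h0 : dot a y0 = 0
      · have hc : Tendsto (fun s : ℝ => s • a) (𝓝[>] 0) (𝓝 0) := by
          have : Tendsto (fun s : ℝ => s • a) (𝓝 0) (𝓝 ((0 : ℝ) • a)) :=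
            (continuous_id.smul continuous_const).tendsto 0
          rw [zero_smul] at this
          exact this.mono_left nhdsWithin_le_nhds
        obtain ⟨s, hs1, hs0⟩ := ((hc.eventually (perturb y0 hF)).and self_mem_nhdsWithin).exists
        have hs0 : 0 < s := hs0
        refine ⟨y0 + s • a, ?_, ?_⟩
        · rw [map_add, map_smul, h0, zero_add, smul_eq_mul]
          exact mul_ne_zero hs0.ne' (dot_self_pos ha).ne'
        · rw [hs1.1]
          obtain ⟨j, hj, hj'⟩ := exists_ord (s • a) (ini_ne_zero y0 hF)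
          have hjv : j = v := by rw [hy0, Finset.mem_singleton] at hj; exact hj
          subst hjv
          exact mem_support_ini.mpr ⟨hj, hj'⟩
      · exact ⟨y0, h0, by rw [hy0]; simp⟩
    obtain ⟨y, hy⟩ := this
    exact ⟨_, y, hy, rfl⟩
  obtain ⟨y, ⟨hya, hyv⟩, hm⟩ := Nat.find_spec hex
  have hmin : ∀ w, dot a w ≠ 0 → v ∈ (ini w F).support →
      finrank ℝ (Lam (ini y F)) ≤ finrank ℝ (Lam (ini w F)) := by
    intro w hw hw'
    rw [hm]
    exact Nat.find_min' hex ⟨w, ⟨hw, hw'⟩, rfl⟩
  refine ⟨y, hya, hyv, ?_⟩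
  have hle := Lam_le_Lam_ini y F
  have hlt : finrank ℝ (Lam F) < finrank ℝ (Lam (ini y F)) := by
    apply Submodule.finrank_lt_finrank_of_lt
    refine lt_of_le_of_ne hle ?_
    intro h
    apply hya
    have : y ∈ Lam F := by rw [h]; exact mem_Lam_ini y F
    exact LinearMap.mem_ker.mp (hY this)
  set V := Lam (ini y F) with hV
  have hVY : V ⊓ LinearMap.ker (dot a) ≤ Lam F := by
    rintro w ⟨hwV, hwY⟩
    have hwY : dot a w = 0 := LinearMap.mem_ker.mp hwY
    have hnz : ∀ t : ℝ, dot a (y + t • w) ≠ 0 := by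
      intro t
      rw [map_add, map_smul, hwY, smul_zero, add_zero]; exact hya
    set T : Set ℝ := {t | ini (y + t • w) F = ini y F} with hT
    have hstep : ∀ t : ℝ, ∀ᶠ s in 𝓝 t, (s ∈ T ↔ t ∈ T) := by
      intro t
      have hc : Tendsto (fun s : ℝ => (s - t) • w) (𝓝 t) (𝓝 0) := by
        have h1 : Continuous fun s : ℝ => (s - t) • w :=
          (continuous_id.sub continuous_const).smul continuous_const
        have h2 := h1.tendsto t
        simp only [sub_self, zero_smul] at h2
        exact h2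
      filter_upwards [hc.eventually (perturb (y + t • w) hF)] with s hs
      have e1 : y + t • w + (s - t) • w = y + s • w := by
        rw [add_assoc, ← add_smul]; congr 2; ring
      rw [e1] at hs
      have hwV' : (s - t) • w ∈ V := V.smul_mem _ hwV
      constructor
      · intro h
        have h : ini (y + s • w) F = ini y F := h
        have h0 : ini ((s - t) • w) (ini (y + t • w) F) = ini y F := by rw [← hs.1]; exact h
        have h1 : v ∈ (ini (y + t • w) F).support := by
          have : v ∈ (ini ((s - t) • w) (ini (y + t • w) F)).support := by rw [h0]; exact hyv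
          exact (mem_support_ini.mp this).1
        have h2 : Lam (ini (y + t • w) F) ≤ V := by
          rw [hV, ← h0]; exact Lam_le_Lam_ini _ _
        have h3 : Lam (ini (y + t • w) F) = V :=
          Submodule.eq_of_le_of_finrank_le h2 (hmin _ (hnz t) h1)
        have h4 : ini ((s - t) • w) (ini (y + t • w) F) = ini (y + t • w) F :=
          (ini_eq_self_iff (ini_ne_zero _ hF)).mpr (by rw [h3]; exact hwV')
        show ini (y + t • w) F = ini y F
        rw [← h4]; exact h0
      · intro h
        have h : ini (y + t • w) F = ini y F := h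
        show ini (y + s • w) F = ini y F
        rw [hs.1, h]
        exact (ini_eq_self_iff (ini_ne_zero y hF)).mpr hwV'
    have hopen : IsOpen T := by
      rw [isOpen_iff_mem_nhds]
      intro t ht
      filter_upwards [hstep t] with s hs using hs.mpr ht
    have hopen' : IsOpen Tᶜ := by
      rw [isOpen_iff_mem_nhds]
      intro t ht
      filter_upwards [hstep t] with s hs
      intro hsT
      exact ht (hs.mp hsT)
    have huniv : T = Set.univ := by
      apply IsClopen.eq_univ ⟨⟨hopen'⟩, hopen⟩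
      refine ⟨0, ?_⟩
      show ini (y + (0 : ℝ) • w) F = ini y F
      rw [zero_smul, add_zero]
    have hwt : ∀ j ∈ F.support, wt w j = wt w v := by
      intro j hj
      by_contra hne
      set δ := wt w j - wt w v with hδ
      have hδ0 : δ ≠ 0 := sub_ne_zero.mpr hne
      set t : ℝ := -((wt y j - wt y v) + 1) / δ with ht
      have htT : t ∈ T := by rw [huniv]; trivial
      have htT : ini (y + t • w) F = ini y F := htT
      have h1 : v ∈ (ini (y + t • w) F).support := by rw [htT]; exact hyv
      have h2 := (mem_support_ini.mp h1).2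
      have h3 := ord_le (y + t • w) hj
      rw [← h2, wt_add_left, wt_add_left, wt_smul, wt_smul] at h3
      have h4 : t * δ = -((wt y j - wt y v) + 1) := by
        rw [ht]; field_simp
      have h5 : t * δ = t * wt w j - t * wt w v := by rw [hδ]; ring
      linarith
    intro j hj j' hj'
    rw [hwt j hj, hwt j' hj']
  have h1 := finrank_inf_ge V (LinearMap.ker (dot a))
  have h2 := finrank_ker_dot a
  have h3 := Submodule.finrank_mono hVY
  omega

/-- the Mahler measure of a monomial -/
theorem mm_single {p : Pol k} {t : Fin k →₀ ℕ} (h : p.support = {t}) :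
    mm p = log |((coeff t p : ℤ) : ℝ)| := by
  unfold mm
  have h1 : ∀ x : Tor k, log ‖ev p x‖ = log |((coeff t p : ℤ) : ℝ)| := by
    intro x
    rw [ev_eq_sum, h, Finset.sum_singleton, norm_mul, norm_mon, mul_one, Complex.norm_intCast]
  simp only [h1]
  simp

/-- a non zero polynomial for which all functionals are constant is a monomial -/
theorem supp_of_top {p : Pol k} (hp : p ≠ 0) (h : Lam p = ⊤) : ∃ t, p.support = {t} := by
  obtain ⟨t, ht⟩ := supp_nonempty hp
  refine ⟨t, ?_⟩
  ext i
  rw [Finset.mem_singleton]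
  constructor
  · intro hi
    ext l
    have h1 : (Pi.single l 1 : Fin k → ℝ) ∈ Lam p := by rw [h]; trivial
    have h2 := h1 i hi t ht
    simp only [wt, Pi.single_apply, ite_mul, one_mul, zero_mul, Finset.sum_ite_eq',
      Finset.mem_univ, if_true] at h2
    exact_mod_cast h2
  · rintro rfl; exact ht

theorem Lam_of_single {p : Pol k} {t : Fin k →₀ ℕ} (h : p.support = {t}) : Lam p = ⊤ := by
  rw [eq_top_iff]
  intro u _ j hj j' hj'
  rw [h, Finset.mem_singleton] at hj hj'
  rw [hj, hj']

theorem supp_mul_single {A B : Pol k} {i j : Fin k →₀ ℕ} (hA : A.support = {i})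
    (hB : B.support = {j}) : (A * B).support = {i + j} := by
  have hg : A = monomial i (coeff i A) := by
    ext a
    rw [coeff_monomial]
    split_ifs with h
    · rw [h]
    · by_contra h3
      have := MvPolynomial.mem_support_iff.mpr h3
      rw [hA, Finset.mem_singleton] at this
      exact h this.symm
  have hq : B = monomial j (coeff j B) := by
    ext a
    rw [coeff_monomial]
    split_ifs with h
    · rw [h]
    · by_contra h3
      have := MvPolynomial.mem_support_iff.mpr h3
      rw [hB, Finset.mem_singleton] at this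
      exact h this.symm
  have c1 : coeff i A ≠ 0 := by
    rw [← MvPolynomial.mem_support_iff, hA]; simp
  have c2 : coeff j B ≠ 0 := by
    rw [← MvPolynomial.mem_support_iff, hB]; simp
  rw [hg, hq, monomial_mul, support_monomial, if_neg (mul_ne_zero c1 c2)]

theorem ini_single {p : Pol k} {t : Fin k →₀ ℕ} (hp : p ≠ 0) (h : p.support = {t})
    (y : Fin k → ℝ) : ini y p = p :=
  (ini_eq_self_iff hp).mpr (by rw [Lam_of_single h]; trivial)

/-- the vertices of `G * p`, for a monomial `p` -/
theorem vert_mul_single {G p : Pol k} (hG : G ≠ 0) (hp : p ≠ 0) {t : Fin k →₀ ℕ}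
    (h : p.support = {t}) {j : Fin k →₀ ℕ} (hj : j ∈ vert G) : j + t ∈ vert (G * p) := by
  obtain ⟨y, hy⟩ := isVert_iff.mp (mem_vert.mp hj)
  rw [mem_vert, isVert_iff]
  refine ⟨y, ?_⟩
  rw [ini_mul y hG hp, ini_single hp h]
  exact supp_mul_single hy h

theorem exists_of_vert_mul_single {G p : Pol k} (hG : G ≠ 0) (hp : p ≠ 0) {t : Fin k →₀ ℕ}
    (h : p.support = {t}) {v : Fin k →₀ ℕ} (hv : v ∈ vert (G * p)) :
    ∃ g ∈ vert G, v = g + t := by
  obtain ⟨y, hy⟩ := isVert_iff.mp (mem_vert.mp hv)
  rw [ini_mul y hG hp, ini_single hp h] at hy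
  have h1 : Lam (ini y G * p) = ⊤ := Lam_of_single hy
  rw [Lam_mul (ini_ne_zero y hG) hp] at h1
  have h2 : Lam (ini y G) = ⊤ := by rw [eq_top_iff, ← h1]; exact inf_le_left
  obtain ⟨g, hg⟩ := supp_of_top (ini_ne_zero y hG) h2
  refine ⟨g, mem_vert.mpr (isVert_iff.mpr ⟨y, hg⟩), ?_⟩
  have h3 := supp_mul_single hg h
  rw [hy, Finset.singleton_inj] at h3
  exact h3

theorem eq_monomial_of_supp {p : Pol k} {t : Fin k →₀ ℕ} (h : p.support = {t}) :
    p = monomial t (coeff t p) := by
  ext a
  rw [coeff_monomial]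
  split_ifs with h'
  · rw [h']
  · by_contra h3
    have := MvPolynomial.mem_support_iff.mpr h3
    rw [h, Finset.mem_singleton] at this
    exact h' this.symm

theorem coeff_mul_single {G p : Pol k} {t : Fin k →₀ ℕ} (h : p.support = {t})
    (j : Fin k →₀ ℕ) : coeff (j + t) (G * p) = coeff t p * coeff j G := by
  conv_lhs => rw [eq_monomial_of_supp h]
  rw [coeff_mul_monomial, mul_comm]

theorem coeff_ini_of_mem {y : Fin k → ℝ} {P : Pol k} {j : Fin k →₀ ℕ}
    (h : j ∈ (ini y P).support) : coeff j (ini y P) = coeff j P := by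
  rw [coeff_ini, if_pos (mem_support_ini.mp h).2]

/-- a face through a vertex of `G * p` on which `p` is a monomial -/
theorem exists_trans : ∀ (n : ℕ) (G p : Pol k), G ≠ 0 → p ≠ 0 → k ≤ finrank ℝ (Lam p) + n →
    ∀ v ∈ vert (G * p), ∃ (E : Pol k) (t g : Fin k →₀ ℕ) (c : ℤ), E ≠ 0 ∧ g ∈ vert E ∧ v = g + t ∧
      (∀ j ∈ vert E, j + t ∈ vert (G * p) ∧ coeff (j + t) (G * p) = c * coeff j E) ∧
      mm E ≤ mm G ∧ Lam (G * p) ≤ Lam E ∧
      finrank ℝ (Lam E) ≤ finrank ℝ (Lam (G * p)) + n := by
  intro n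
  induction n with
  | zero =>
    intro G p hG hp hk v hv
    have htop : Lam p = ⊤ := by
      apply Submodule.eq_top_of_finrank_eq
      have h1 : finrank ℝ (Lam p) ≤ finrank ℝ (Fin k → ℝ) := Submodule.finrank_le _
      have h2 : finrank ℝ (Fin k → ℝ) = k := by simp
      omega
    obtain ⟨t, ht⟩ := supp_of_top hp htop
    obtain ⟨g, hg, hvg⟩ := exists_of_vert_mul_single hG hp ht hv
    have hL : Lam (G * p) = Lam G := by rw [Lam_mul hG hp, htop, inf_top_eq]
    exact ⟨G, t, g, coeff t p, hG, hg, hvg,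
      fun j hj => ⟨vert_mul_single hG hp ht hj, coeff_mul_single ht j⟩, le_refl _,
      by rw [hL], by rw [hL]; omega⟩
  | succ n ih =>
    intro G p hG hp hk v hv
    by_cases htop : Lam p = ⊤
    · obtain ⟨t, ht⟩ := supp_of_top hp htop
      obtain ⟨g, hg, hvg⟩ := exists_of_vert_mul_single hG hp ht hv
      have hL : Lam (G * p) = Lam G := by rw [Lam_mul hG hp, htop, inf_top_eq]
      exact ⟨G, t, g, coeff t p, hG, hg, hvg,
        fun j hj => ⟨vert_mul_single hG hp ht hj, coeff_mul_single ht j⟩, le_refl _,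
        by rw [hL], by rw [hL]; omega⟩
    obtain ⟨a, ha, haY⟩ := exists_dot htop
    have hGp := mul_ne_zero hG hp
    have hLp : Lam (G * p) ≤ Lam p := by rw [Lam_mul hG hp]; exact inf_le_right
    obtain ⟨y, hy, hyv, hfin⟩ := exists_facet_at hGp hv ha (hLp.trans haY)
    have hG1 := ini_ne_zero y hG
    have hp1 := ini_ne_zero y hp
    have hmul := ini_mul y hG hp
    have hv1 : v ∈ vert (ini y G * ini y p) := by
      rw [← hmul]; exact vert_of_mem_ini hv hyv
    have hlt : finrank ℝ (Lam p) < finrank ℝ (Lam (ini y p)) := by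
      apply Submodule.finrank_lt_finrank_of_lt
      refine lt_of_le_of_ne (Lam_le_Lam_ini y p) ?_
      intro h
      apply hy
      have : y ∈ Lam p := by rw [h]; exact mem_Lam_ini y p
      exact LinearMap.mem_ker.mp (haY this)
    obtain ⟨E, t, g, c, hE, hg, hvg, hEt, hmE, hLE, hfE⟩ :=
      ih (ini y G) (ini y p) hG1 hp1 (by omega) v hv1
    rw [← hmul] at hEt hLE hfE
    refine ⟨E, t, g, c, hE, hg, hvg, fun j hj => ⟨vert_ini_subset y hGp (hEt j hj).1, ?_⟩,
      hmE.trans (mm_ini_le y hG), (Lam_le_Lam_ini y _).trans hLE, ?_⟩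
    · rw [← (hEt j hj).2, coeff_ini_of_mem (mem_vert.mp (hEt j hj).1).1]
    rw [hfin] at hfE
    omega

end Pool.Agent.MP_44c6d5_nt
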