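import Mathlib
import Pool.Agent.MP_44c6d5_nt.VertPar

/-!
Every vertex of the exponent polytope of a polynomial of bounded Mahler measure is a vertex of a
parallelepiped of almost full dimension all of whose vertices are vertices of the polytope.
-/

namespace Pool.Agent.MP_44c6d5_nt

open MeasureTheory Real MvPolynomial Module Filter Topology

variable {k : ℕ}

/-- the parallelepiped property at the vertex `v` -/
def Par (m : ℕ) (F : Pol k) (v : Fin k →₀ ℕ) : Prop :=
  ∃ (e : Fin m → Fin k → ℝ) (s : Fin m → ℤ), LinearIndependent ℝ e ∧ (∀ i, s i = 1 ∨ s i = -1) ∧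
    ∀ S : Finset (Fin m), ∃ w ∈ vert F, coeff w F = coeff v F * ∏ j ∈ S, s j ∧
      ∀ i, ((w i : ℕ) : ℝ) = v i + ∑ j ∈ S, e j i

theorem Par.zero {F : Pol k} {v : Fin k →₀ ℕ} (hv : v ∈ vert F) : Par 0 F v := by
  refine ⟨Fin.elim0, Fin.elim0, linearIndependent_empty_type, fun i => i.elim0, ?_⟩
  intro S
  have : S = ∅ := Finset.eq_empty_of_isEmpty S
  subst this
  exact ⟨v, hv, by simp, fun i => by simp⟩

theorem Par.translate {m : ℕ} {E F : Pol k} {g t v : Fin k →₀ ℕ} {c : ℤ} (h : Par m E g)
    (hg : g ∈ vert E) (hv : v = g + t)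
    (hEt : ∀ j ∈ vert E, j + t ∈ vert F ∧ coeff (j + t) F = c * coeff j E) : Par m F v := by
  obtain ⟨e, s, he, hs, hS⟩ := h
  refine ⟨e, s, he, hs, fun S => ?_⟩
  obtain ⟨w, hw, hwc, hwi⟩ := hS S
  refine ⟨w + t, (hEt w hw).1, ?_, fun i => ?_⟩
  · rw [hv, (hEt w hw).2, (hEt g hg).2, hwc]; ring
  rw [hv, Finsupp.add_apply, Finsupp.add_apply, Nat.cast_add, Nat.cast_add, hwi i]
  ring

theorem wt_sub_eq_dot (y : Fin k → ℝ) (a b : Fin k →₀ ℕ) :
    dot y (fun i => (a i : ℝ) - b i) = wt y a - wt y b := by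
  rw [dot_apply]
  unfold wt
  rw [← Finset.sum_sub_distrib]
  apply Finset.sum_congr rfl
  intro i _; ring

/-- adding one direction -/
theorem Par.succ {m : ℕ} {F G : Pol k} {g a b : Fin k →₀ ℕ} {y : Fin k → ℝ} {ca cb : ℤ}
    (h : Par m G g) (hg : g ∈ vert G)
    (hy : y ∈ Lam G) (hab : wt y b ≠ wt y a) (hc : |cb| = |ca|)
    (ha : ∀ j ∈ vert G, j + a ∈ vert F ∧ coeff (j + a) F = ca * coeff j G)
    (hb : ∀ j ∈ vert G, j + b ∈ vert F ∧ coeff (j + b) F = cb * coeff j G) :
    Par (m + 1) F (g + a) := by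
  classical
  obtain ⟨e, s, he, hs, hS⟩ := h
  set e0 : Fin k → ℝ := fun i => (b i : ℝ) - a i with he0
  obtain ⟨s0, hs0, hcb⟩ : ∃ s0 : ℤ, (s0 = 1 ∨ s0 = -1) ∧ cb = ca * s0 := by
    rcases abs_eq_abs.mp hc with h | h
    · exact ⟨1, Or.inl rfl, by rw [h, mul_one]⟩
    · exact ⟨-1, Or.inr rfl, by rw [h]; ring⟩
  refine ⟨Fin.cons e0 e, Fin.cons s0 s, ?_, ?_, ?_⟩
  · rw [linearIndependent_finCons]
    refine ⟨he, ?_⟩
    intro hmem
    have h1 : Submodule.span ℝ (Set.range e) ≤ LinearMap.ker (dot y) := by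
      rw [Submodule.span_le]
      rintro _ ⟨j, rfl⟩
      obtain ⟨w, hw, _, hwi⟩ := hS {j}
      obtain ⟨w', hw', _, hwi'⟩ := hS ∅
      have h2 : e j = fun i => (w i : ℝ) - w' i := by
        funext i
        rw [hwi i, hwi' i]; simp
      have h3 := hy w (mem_vert.mp hw).1 w' (mem_vert.mp hw').1
      show e j ∈ LinearMap.ker (dot y)
      rw [LinearMap.mem_ker, h2, wt_sub_eq_dot, h3, sub_self]
    have h2 := LinearMap.mem_ker.mp (h1 hmem)
    rw [he0, wt_sub_eq_dot] at h2
    exact hab (sub_eq_zero.mp h2)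
  · intro i
    refine Fin.cases ?_ (fun j => ?_) i
    · rw [Fin.cons_zero]; exact hs0
    · rw [Fin.cons_succ]; exact hs j
  · intro S
    set S' : Finset (Fin m) := Finset.univ.filter (fun j => j.succ ∈ S) with hS'
    obtain ⟨w, hw, hwc, hwi⟩ := hS S'
    have hsum : ∀ i, ∑ j ∈ S, (Fin.cons e0 e : Fin (m + 1) → Fin k → ℝ) j i =
        (if (0 : Fin (m + 1)) ∈ S then e0 i else 0) + ∑ j ∈ S', e j i := by
      intro i
      have h1 : ∑ j ∈ S, (Fin.cons e0 e : Fin (m + 1) → Fin k → ℝ) j i =
          ∑ j, if j ∈ S then (Fin.cons e0 e : Fin (m + 1) → Fin k → ℝ) j i else 0 := by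
        rw [Finset.sum_ite_mem, Finset.univ_inter]
      rw [h1, Fin.sum_univ_succ, Fin.cons_zero]
      congr 1
      rw [hS', Finset.sum_filter]
      apply Finset.sum_congr rfl
      intro j _
      rw [Fin.cons_succ]
    have hprod : ∏ j ∈ S, (Fin.cons s0 s : Fin (m + 1) → ℤ) j =
        (if (0 : Fin (m + 1)) ∈ S then s0 else 1) * ∏ j ∈ S', s j := by
      have h1 : ∏ j ∈ S, (Fin.cons s0 s : Fin (m + 1) → ℤ) j =
          ∏ j, if j ∈ S then (Fin.cons s0 s : Fin (m + 1) → ℤ) j else 1 := by
        rw [Finset.prod_ite_mem, Finset.univ_inter]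
      rw [h1, Fin.prod_univ_succ, Fin.cons_zero]
      congr 1
      rw [hS', Finset.prod_filter]
      apply Finset.prod_congr rfl
      intro j _
      rw [Fin.cons_succ]
    by_cases h0 : (0 : Fin (m + 1)) ∈ S
    · refine ⟨w + b, (hb w hw).1, ?_, fun i => ?_⟩
      · rw [hprod, if_pos h0, (hb w hw).2, (ha g hg).2, hwc, hcb]; ring
      rw [hsum i, if_pos h0, Finsupp.add_apply, Finsupp.add_apply, Nat.cast_add, Nat.cast_add,
        hwi i, he0]
      ring
    · refine ⟨w + a, (ha w hw).1, ?_, fun i => ?_⟩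
      · rw [hprod, if_neg h0, (ha w hw).2, (ha g hg).2, hwc]; ring
      rw [hsum i, if_neg h0, Finsupp.add_apply, Finsupp.add_apply, Nat.cast_add, Nat.cast_add,
        hwi i]
      ring

theorem par_bound {B : ℝ} : ∀ (n : ℕ) (F : Pol k), F ≠ 0 → k ≤ finrank ℝ (Lam F) + n → mm F ≤ B →
    ∀ v ∈ vert F, ∃ m : ℕ, Par m F v ∧ (k : ℝ) - finrank ℝ (Lam F) ≤ m +
      (2 * exp (2 * (2 * B + log 2)) * (Phi (2 * B + log 2) + 1)) * mm F := by
  intro n
  have hl2 : 0 ≤ log 2 := Real.log_nonneg (by norm_num)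
  induction n with
  | zero =>
    intro F hF hk hB v hv
    have h0 := mm_nonneg hF
    have hPhi := Phi_nonneg (h := 2 * B + log 2) (by linarith)
    have h1 : (k : ℝ) - finrank ℝ (Lam F) ≤ 0 := by
      have : (k : ℝ) ≤ finrank ℝ (Lam F) := by exact_mod_cast hk
      linarith
    have h3 : 0 ≤ (2 * exp (2 * (2 * B + log 2)) * (Phi (2 * B + log 2) + 1)) * mm F := by
      positivity
    refine ⟨0, Par.zero hv, ?_⟩
    rw [Nat.cast_zero]; linarith
  | succ n ih =>
    intro F hF hk hB v hv
    have h0 := mm_nonneg hF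
    have hh0 : 0 ≤ 2 * B + log 2 := by linarith
    have hPhi := Phi_nonneg hh0
    by_cases htop : Lam F = ⊤
    · have h1 : finrank ℝ (Lam F) = k := by rw [htop, finrank_top]; simp
      have h3 : 0 ≤ (2 * exp (2 * (2 * B + log 2)) * (Phi (2 * B + log 2) + 1)) * mm F := by
        positivity
      refine ⟨0, Par.zero hv, ?_⟩
      rw [h1, sub_self, Nat.cast_zero]; linarith
    obtain ⟨a, ha, haY⟩ := exists_dot htop
    obtain ⟨y, hya, hyv, hfac⟩ := exists_facet_at hF hv ha haY
    have hy : y ∉ Lam F := fun h => hya (LinearMap.mem_ker.mp (haY h))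
    have hv' : v ∈ vert (ini y F) := vert_of_mem_ini hv hyv
    obtain ⟨p, q, G, hrel, e1, e2⟩ :=
      UniqueFactorizationMonoid.exists_reduced_factors (ini y F) (ini_ne_zero y hF) (ini (-y) F)
    have n1 := ini_ne_zero y hF
    have n2 := ini_ne_zero (-y) hF
    rw [← e1] at n1
    rw [← e2] at n2
    have hG := left_ne_zero_of_mul n1
    have hp := right_ne_zero_of_mul n1
    have hq := right_ne_zero_of_mul n2
    have hH := H_faces_le y hF
    rw [← e1, ← e2, H_mul hG hp] at hH
    have hGm := mm_nonneg hG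
    have hpq := H_ge_log_two hp hq
    have hpm := mm_nonneg hp
    have hqm := mm_nonneg hq
    have hGF : mm G ≤ mm F := by linarith
    have hHpq : H p q ≤ 2 * B + log 2 := by linarith
    have hLamG : Lam (ini y F) ≤ Lam G := by
      rw [← e1, Lam_mul hG hp]; exact inf_le_left
    have hsub1 : ∀ j ∈ vert (G * p), j ∈ vert F ∧ coeff j F = coeff j (G * p) := by
      intro j hj
      rw [e1] at hj ⊢
      exact ⟨vert_ini_subset y hF hj, (coeff_ini_of_mem (mem_vert.mp hj).1).symm⟩
    have hsub2 : ∀ j ∈ vert (G * q), j ∈ vert F ∧ coeff j F = coeff j (G * q) := by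
      intro j hj
      rw [e2] at hj ⊢
      exact ⟨vert_ini_subset (-y) hF hj, (coeff_ini_of_mem (mem_vert.mp hj).1).symm⟩
    have hC : 0 ≤ 2 * exp (2 * (2 * B + log 2)) * (Phi (2 * B + log 2) + 1) := by positivity
    rw [← e1] at hv'
    by_cases hLL : LL p q = ⊤
    · -- good step
      have hLp : Lam p = ⊤ := by
        rw [eq_top_iff, ← hLL]; exact inf_le_left
      have hLq : Lam q = ⊤ := by
        rw [eq_top_iff, ← hLL]; exact inf_le_right
      obtain ⟨tp, htp⟩ := supp_of_top hp hLp
      obtain ⟨tq, htq⟩ := supp_of_top hq hLq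
      obtain ⟨g, hg, hvg⟩ := exists_of_vert_mul_single hG hp htp hv'
      have h1 : finrank ℝ (Lam G) = finrank ℝ (Lam F) + 1 := by
        rw [← hfac, ← e1, Lam_mul hG hp, hLp, inf_top_eq]
      obtain ⟨m, hm, hdim⟩ := ih G hG (by omega) (hGF.trans hB) g hg
      have hyG : y ∈ Lam G := hLamG (mem_Lam_ini y F)
      have hga : g + tp ∈ (ini y F).support := by
        rw [← e1]; exact (mem_vert.mp (vert_mul_single hG hp htp hg)).1
      have hgb : g + tq ∈ (ini (-y) F).support := by
        rw [← e2]; exact (mem_vert.mp (vert_mul_single hG hq htq hg)).1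
      have hab : wt y tq ≠ wt y tp := by
        intro h
        apply hy
        rw [← ord_add_ord_neg_eq_iff hF, ← (mem_support_ini.mp hga).2,
          ← (mem_support_ini.mp hgb).2, wt_neg, wt_add, wt_add, h]
        ring
      have h2 : (finrank ℝ (Lam G) : ℝ) = finrank ℝ (Lam F) + 1 := by exact_mod_cast h1
      rw [h2] at hdim
      have hA : ∀ j ∈ vert G, j + tp ∈ vert F ∧ coeff (j + tp) F = coeff tp p * coeff j G := by
        intro j hj
        have h3 := hsub1 _ (vert_mul_single hG hp htp hj)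
        exact ⟨h3.1, by rw [h3.2, coeff_mul_single htp]⟩
      have hB' : ∀ j ∈ vert G, j + tq ∈ vert F ∧ coeff (j + tq) F = coeff tq q * coeff j G := by
        intro j hj
        have h3 := hsub2 _ (vert_mul_single hG hq htq hj)
        exact ⟨h3.1, by rw [h3.2, coeff_mul_single htq]⟩
      by_cases hcc : |coeff tq q| = |coeff tp p|
      · refine ⟨m + 1, ?_, ?_⟩
        · rw [hvg]
          exact Par.succ hm hg hyG hab hcc hA hB'
        · have h3 := mul_le_mul_of_nonneg_left hGF hC
          rw [Nat.cast_add, Nat.cast_one]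
          linarith
      · -- unequal coefficients: a loss of at least `log 2`
        refine ⟨m, ?_, ?_⟩
        · exact Par.translate hm hg hvg hA
        have hcp : coeff tp p ≠ 0 := by rw [← MvPolynomial.mem_support_iff, htp]; simp
        have hcq : coeff tq q ≠ 0 := by rw [← MvPolynomial.mem_support_iff, htq]; simp
        have hcp' := Int.one_le_abs hcp
        have hcq' := Int.one_le_abs hcq
        have hmp : mm G + mm p ≤ mm F := by
          rw [← mm_mul hG hp, e1]; exact mm_ini_le y hF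
        have hmq : mm G + mm q ≤ mm F := by
          rw [← mm_mul hG hq, e2]; exact mm_ini_le (-y) hF
        have hloss : mm G ≤ mm F - log 2 := by
          have key : ∀ c : ℤ, 2 ≤ |c| → log 2 ≤ log |(c : ℝ)| := by
            intro c hc
            apply Real.log_le_log (by norm_num)
            exact_mod_cast hc
          rcases lt_or_gt_of_ne hcc with h3 | h3
          · have h4 := key (coeff tp p) (by omega)
            rw [← mm_single htp] at h4
            linarith
          · have h4 := key (coeff tq q) (by omega)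
            rw [← mm_single htq] at h4
            linarith
        have h3 := mul_le_mul_of_nonneg_left hloss hC
        have h4 : 1 ≤ (2 * exp (2 * (2 * B + log 2)) * (Phi (2 * B + log 2) + 1)) * log 2 := by
          have h5 : 0.69 < log 2 := by
            have := Real.log_two_gt_d9
            linarith
          have h6 : 1 ≤ exp (2 * (2 * B + log 2)) := Real.one_le_exp (by positivity)
          have h7 : 1 ≤ exp (2 * (2 * B + log 2)) * (Phi (2 * B + log 2) + 1) := by nlinarith
          nlinarith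
        rw [mul_sub] at h3
        linarith
    · -- bad step
      have h1 := pair_gap hp hq hrel hLL hHpq
      have h2 := codim_le_Phi hp hq hrel hHpq
      have hpk : finrank ℝ (Lam p) ≤ k := by
        have := Submodule.finrank_le (Lam p)
        simpa using this
      have h3 : finrank ℝ (LL p q) ≤ finrank ℝ (Lam p) := Submodule.finrank_mono inf_le_left
      obtain ⟨E, t, g, c, hE, hg, hvg, hEt, hmE, hLE, hfE⟩ :=
        exists_trans (k - finrank ℝ (Lam p)) G p hG hp (by omega) v hv'
      have hLE' : finrank ℝ (Lam F) + 1 ≤ finrank ℝ (Lam E) := by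
        rw [← hfac, ← e1]; exact Submodule.finrank_mono hLE
      obtain ⟨m, hm, hdim⟩ := ih E hE (by omega) ((hmE.trans hGF).trans hB) g hg
      refine ⟨m, Par.translate hm hg hvg (c := c) (fun j hj => ⟨(hsub1 _ (hEt j hj).1).1, by
        rw [(hsub1 _ (hEt j hj).1).2, (hEt j hj).2]⟩), ?_⟩
      have h4 : finrank ℝ (Lam (G * p)) = finrank ℝ (Lam F) + 1 := by rw [e1, hfac]
      have h5 : (finrank ℝ (Lam E) : ℝ) + finrank ℝ (LL p q) ≤ finrank ℝ (Lam F) + 1 + k := by
        have : finrank ℝ (Lam E) + finrank ℝ (LL p q) ≤ finrank ℝ (Lam F) + 1 + k := by omega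
        exact_mod_cast this
      have h6 : mm E ≤ mm F - exp (-2 * (2 * B + log 2)) / 2 := by linarith
      have h7 := mul_le_mul_of_nonneg_left h6 hC
      have h8 : (2 * exp (2 * (2 * B + log 2)) * (Phi (2 * B + log 2) + 1)) *
          (exp (-2 * (2 * B + log 2)) / 2) = Phi (2 * B + log 2) + 1 := by
        have : exp (2 * (2 * B + log 2)) * exp (-2 * (2 * B + log 2)) = 1 := by
          rw [← Real.exp_add]; simp
        calc (2 * exp (2 * (2 * B + log 2)) * (Phi (2 * B + log 2) + 1)) *
            (exp (-2 * (2 * B + log 2)) / 2)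
            = (exp (2 * (2 * B + log 2)) * exp (-2 * (2 * B + log 2))) *
              (Phi (2 * B + log 2) + 1) := by ring
          _ = _ := by rw [this, one_mul]
      rw [mul_sub, h8] at h7
      linarith

end Pool.Agent.MP_44c6d5_nt
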