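import Mathlib
import Pool.Agent.MP_44c6d5_nt.VertPar2

/-!
Vertices and extreme points; the parallelepiped theorem for extreme points.
-/

namespace Pool.Agent.MP_44c6d5_nt

open MeasureTheory Real MvPolynomial Module Filter Topology

variable {k : ℕ}

/-- an exponent vector as a point of `ℝ ^ k` -/
def pt (j : Fin k →₀ ℕ) : Fin k → ℝ := fun i => (j i : ℝ)

theorem pt_injective : Function.Injective (pt : (Fin k →₀ ℕ) → Fin k → ℝ) := by
  intro a b hab
  ext i
  have := congrFun hab i
  simp only [pt] at this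
  exact_mod_cast this

theorem newton_eq (F : Pol k) : newton F = convexHull ℝ (pt '' (F.support : Set (Fin k →₀ ℕ))) :=
  rfl

theorem linear_eq_dot (f : (Fin k → ℝ) →ₗ[ℝ] ℝ) : f = dot (fun i => f (Pi.single i 1)) := by
  apply LinearMap.ext
  intro x
  rw [dot_apply, LinearMap.pi_apply_eq_sum_univ f x]
  apply Finset.sum_congr rfl
  intro i _
  have : (fun j => if i = j then (1 : ℝ) else 0) = Pi.single i 1 := by
    ext j
    by_cases hij : i = j
    · subst hij; simp
    · rw [if_neg hij, Pi.single_eq_of_ne (Ne.symm hij)]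
  rw [this, smul_eq_mul, mul_comm]

theorem dot_pt (y : Fin k → ℝ) (j : Fin k →₀ ℕ) : dot y (pt j) = wt y j := by
  rw [dot_apply]; rfl

/-- extreme points of the exponent polytope are exposed exponents -/
theorem exists_vert_of_extreme {F : Pol k} {x : Fin k → ℝ}
    (hx : x ∈ Set.extremePoints ℝ (newton F)) : ∃ j ∈ vert F, x = pt j := by
  classical
  have h1 : x ∈ pt '' (F.support : Set (Fin k →₀ ℕ)) := by
    have := extremePoints_convexHull_subset (𝕜 := ℝ) (A := pt '' (F.support : Set (Fin k →₀ ℕ)))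
    exact this hx
  obtain ⟨j, hj, rfl⟩ := h1
  refine ⟨j, ?_, rfl⟩
  have hconv : Convex ℝ (newton F) := convex_convexHull ℝ _
  have h2 := (hconv.mem_extremePoints_iff_mem_sdiff_convexHull_sdiff).mp hx
  set S' : Set (Fin k → ℝ) := pt '' ((F.support : Set (Fin k →₀ ℕ)) \ {j}) with hS'
  have hsub : S' ⊆ newton F \ {pt j} := by
    rintro _ ⟨i, ⟨hi, hij⟩, rfl⟩
    refine ⟨subset_convexHull ℝ _ ⟨i, hi, rfl⟩, ?_⟩
    intro h
    exact hij (pt_injective h)
  have hnot : pt j ∉ convexHull ℝ S' := fun h => h2.2 (convexHull_mono hsub h)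
  have hfin : S'.Finite := (F.support.finite_toSet.sdiff).image pt
  have hcomp : IsCompact (convexHull ℝ S') := Set.Finite.isCompact_convexHull ℝ hfin
  have hclosed : IsClosed (convexHull ℝ S') := hcomp.isClosed
  obtain ⟨f, u, hu1, hu2⟩ :=
    geometric_hahn_banach_point_closed (convex_convexHull ℝ S') hclosed hnot
  have hf := linear_eq_dot (f : (Fin k → ℝ) →ₗ[ℝ] ℝ)
  set y : Fin k → ℝ := fun i => (f : (Fin k → ℝ) →ₗ[ℝ] ℝ) (Pi.single i 1) with hy
  have hfy : ∀ i : Fin k →₀ ℕ, f (pt i) = wt y i := by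
    intro i
    have : (f : (Fin k → ℝ) →ₗ[ℝ] ℝ) (pt i) = dot y (pt i) := by
      conv_lhs => rw [hf]
    rw [dot_pt] at this
    exact this
  refine mem_vert.mpr ⟨hj, y, fun i hi hij => ?_⟩
  have h3 : pt i ∈ convexHull ℝ S' := subset_convexHull ℝ _ ⟨i, ⟨hi, hij⟩, rfl⟩
  have h4 := hu2 _ h3
  rw [hfy] at h4 hu1
  linarith

/-- exposed exponents are extreme points of the exponent polytope -/
theorem vert_extreme {F : Pol k} {j : Fin k →₀ ℕ} (hj : j ∈ vert F) :
    pt j ∈ Set.extremePoints ℝ (newton F) := by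
  classical
  obtain ⟨hjs, y, hy⟩ := mem_vert.mp hj
  have hconv : Convex ℝ (newton F) := convex_convexHull ℝ _
  set C : Set (Fin k → ℝ) := {x | x = pt j ∨ wt y j < dot y x} with hC
  have hCconv : Convex ℝ C := by
    intro a ha b hb s t hs ht hst
    rcases eq_or_lt_of_le hs with hs0 | hs0
    · rw [← hs0] at hst ⊢
      have : t = 1 := by linarith
      rw [this]; simpa using hb
    rcases eq_or_lt_of_le ht with ht0 | ht0
    · rw [← ht0] at hst ⊢
      have : s = 1 := by linarith
      rw [this]; simpa using ha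
    rcases ha with ha | ha
    · rcases hb with hb | hb
      · left
        rw [ha, hb, ← add_smul, hst, one_smul]
      · right
        rw [map_add, map_smul, map_smul, ha, dot_pt]
        simp only [smul_eq_mul]
        have : t = 1 - s := by linarith
        subst this
        nlinarith
    · have hb' : wt y j ≤ dot y b := by
        rcases hb with hb | hb
        · rw [hb, dot_pt]
        · exact hb.le
      right
      rw [map_add, map_smul, map_smul]
      simp only [smul_eq_mul]
      have : t = 1 - s := by linarith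
      subst this
      nlinarith
  have hnC : newton F ⊆ C := by
    apply convexHull_min _ hCconv
    rintro _ ⟨i, hi, rfl⟩
    rcases eq_or_ne i j with h | h
    · left; rw [h]; rfl
    · right
      have := hy i hi h
      show wt y j < dot y (pt i)
      rw [dot_pt]; exact this
  rw [mem_extremePoints]
  refine ⟨subset_convexHull ℝ _ ⟨j, hjs, rfl⟩, ?_⟩
  intro a ha b hb hab
  obtain ⟨s, t, hs, ht, hst, hjab⟩ := hab
  have h1 : wt y j = s * dot y a + t * dot y b := by
    rw [← dot_pt, ← hjab, map_add, map_smul, map_smul]; rfl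
  have ha' : a = pt j ∨ wt y j < dot y a := hnC ha
  have hb' : b = pt j ∨ wt y j < dot y b := hnC hb
  have ht' : t = 1 - s := by linarith
  subst ht'
  rcases ha' with ha' | ha'
  · rcases hb' with hb' | hb'
    · exact ⟨ha', hb'⟩
    · exfalso
      rw [ha', dot_pt] at h1
      nlinarith
  · exfalso
    have hb'' : wt y j ≤ dot y b := by
      rcases hb' with hb' | hb'
      · rw [hb', dot_pt]
      · exact hb'.le
    nlinarith

theorem vert_of_extreme {F : Pol k} {v : Fin k →₀ ℕ}
    (hv : (fun i => (v i : ℝ)) ∈ Set.extremePoints ℝ (newton F)) : v ∈ vert F := by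
  obtain ⟨j, hj, hvj⟩ := exists_vert_of_extreme hv
  have : v = j := pt_injective hvj
  rw [this]; exact hj

/-- **Parallelepiped theorem**, for extreme points. -/
theorem extreme_par {B : ℝ} {F : Pol k} (hF : F ≠ 0) (hB : mm F ≤ B) {v : Fin k →₀ ℕ}
    (hv : (fun i => (v i : ℝ)) ∈ Set.extremePoints ℝ (newton F)) :
    ∃ (m : ℕ) (e : Fin m → Fin k → ℝ) (s : Fin m → ℤ), LinearIndependent ℝ e ∧
      (∀ i, s i = 1 ∨ s i = -1) ∧
      (∀ S : Finset (Fin m), ∃ w : Fin k →₀ ℕ,
        (fun i => (w i : ℝ)) = (fun i => (v i : ℝ)) + ∑ j ∈ S, e j ∧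
        (fun i => (w i : ℝ)) ∈ Set.extremePoints ℝ (newton F) ∧
        coeff w F = coeff v F * ∏ j ∈ S, s j) ∧
      (ndim F : ℝ) ≤ m +
        (2 * exp (2 * (2 * B + log 2)) * (Phi (2 * B + log 2) + 1)) * mm F := by
  obtain ⟨m, ⟨e, s, he, hs, hS⟩, hdim⟩ :=
    par_bound (B := B) k F hF (by omega) hB v (vert_of_extreme hv)
  refine ⟨m, e, s, he, hs, fun S => ?_, ?_⟩
  · obtain ⟨w, hw, hwc, hwi⟩ := hS S
    refine ⟨w, ?_, vert_extreme hw, hwc⟩
    funext i
    rw [Pi.add_apply, Finset.sum_apply]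
    exact hwi i
  · have h4 := ndim_add_le F
    have h5 : (ndim F : ℝ) + Module.finrank ℝ (Lam F) ≤ k := by exact_mod_cast h4
    linarith

theorem Phi_ge {h : ℝ} (hh : log 2 ≤ h) : 18 ≤ Phi h := by
  have hl2 : 0.69 < log 2 := by
    have := Real.log_two_gt_d9
    linarith
  have h8 : 1 ≤ log 3 := by
    rw [Real.le_log_iff_exp_le (by norm_num)]
    exact Real.exp_one_lt_three.le
  have h1 : 64 ≤ exp (6 * h) := by
    have h2 : exp (6 * log 2) ≤ exp (6 * h) := Real.exp_le_exp.mpr (by linarith)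
    have h3 : exp (6 * log 2) = 64 := by
      have : (6 : ℝ) * log 2 = log ((2 : ℝ) ^ 6) := by rw [Real.log_pow]; norm_num
      rw [this, Real.exp_log (by norm_num)]
      norm_num
    linarith
  unfold Phi
  have h4 : (9 * 0.69) * 2 ≤ 9 * h * (2 * h + log 3) := by nlinarith
  nlinarith

end Pool.Agent.MP_44c6d5_nt
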